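import Mathlib

set_option autoImplicit false

open Matrix

namespace Pool.Agent.H438R2

/-- The maximal minor of the integer matrix `B` with rows `0, …, d` on the columns
`f 0, …, f d`. -/
def maxMinor {n d : ℕ} (B : Matrix (Fin (d + 1)) (Fin (n + 1)) ℤ) (f : Fin (d + 1) → Fin (n + 1)) : ℤ :=
  (B.submatrix id f).det

/-- `L` is a rational subspace of `ℝ^(n+1)` of dimension `d+1` (its projectivisation is a rational
linear subvariety of dimension `d` of projective `n`-space) and `p` is a primitive integer vector of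
Plücker coordinates of `L`: the rows of an integer matrix `B` form a basis of `L`, the vector of
maximal minors of `B` is a nonzero integer multiple of `p`, and the entries of `p` have no common
divisor except units. -/
structure IsPluecker (n d : ℕ) (L : Submodule ℝ (Fin (n + 1) → ℝ))
    (p : (Fin (d + 1) → Fin (n + 1)) → ℤ) : Prop where
  primitive : ∀ g : ℤ, (∀ f, g ∣ p f) → IsUnit g
  minors : ∃ B : Matrix (Fin (d + 1)) (Fin (n + 1)) ℤ,
    LinearIndependent ℝ (fun i => fun j => (B i j : ℝ)) ∧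
    Submodule.span ℝ (Set.range fun i => (fun j => (B i j : ℝ))) = L ∧
    ∃ c : ℤ, c ≠ 0 ∧ ∀ f, maxMinor B f = c * p f

/-- The height: the maximum norm of the vector of Plücker coordinates. -/
def maxNorm {n d : ℕ} (p : (Fin (d + 1) → Fin (n + 1)) → ℤ) : ℕ :=
  Finset.univ.sup (fun f => (p f).natAbs)

/-- The Euclidean norm on `ℝ^(n+1)`. -/
noncomputable def eNorm {n : ℕ} (x : Fin (n + 1) → ℝ) : ℝ := Real.sqrt (∑ i, x i ^ 2)

/-- The Euclidean norm of the bivector `x ∧ y`. -/
noncomputable def wedgeNorm {n : ℕ} (x y : Fin (n + 1) → ℝ) : ℝ :=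
  Real.sqrt ((∑ i, ∑ j, (x i * y j - x j * y i) ^ 2) / 2)

/-- The projective distance. -/
noncomputable def projDist {n : ℕ} (x y : Fin (n + 1) → ℝ) : ℝ :=
  wedgeNorm x y / (eNorm x * eNorm y)

/-- The projective distance from `(1 : θ)` to the linear subvariety given by `L`. -/
noncomputable def distTo {n : ℕ} (θ : Fin n → ℝ) (L : Submodule ℝ (Fin (n + 1) → ℝ)) : ℝ :=
  ⨅ P : {P : Fin (n + 1) → ℝ // P ∈ L ∧ P ≠ 0}, projDist (Fin.cons 1 θ) P.1

/-- The intermediate exponent `ω_{n,d}(θ)`: the supremum of the real `ω` such that infinitely many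
rational linear subvarieties `L` of dimension `d` satisfy `H(L) d(θ, L) ≤ H(L)^(-ω)`. -/
noncomputable def omegaExp (n d : ℕ) (θ : Fin n → ℝ) : EReal :=
  sSup {w : EReal | ∃ ω : ℝ, w = (ω : EReal) ∧
    {L : Submodule ℝ (Fin (n + 1) → ℝ) | ∃ p : (Fin (d + 1) → Fin (n + 1)) → ℤ, IsPluecker n d L p ∧
      (maxNorm p : ℝ) * distTo θ L ≤ (maxNorm p : ℝ) ^ (-ω)}.Infinite}

end Pool.Agent.H438R2
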