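import Mathlib

set_option autoImplicit false

open Set

namespace Pool.Agent.H438R2

/-- the embedding `z ↦ (0, z)` -/
def emb (r : ℕ) : (Fin r → ℤ) →+ (Fin (r + 1) → ℤ) where
  toFun z := Fin.cons 0 z
  map_zero' := by
    ext i; refine Fin.cases ?_ (fun j => ?_) i <;> simp
  map_add' x y := by
    ext i; refine Fin.cases ?_ (fun j => ?_) i <;> simp

/-- the first coordinate -/
def pr0 (r : ℕ) : (Fin (r + 1) → ℤ) →+ ℤ where
  toFun z := z 0
  map_zero' := rfl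
  map_add' _ _ := rfl

theorem emb_apply (r : ℕ) (z : Fin r → ℤ) : emb r z = Fin.cons 0 z := rfl

theorem ker_pr0 (r : ℕ) : (pr0 r).ker = (emb r).range := by
  ext x
  constructor
  · intro h
    have h0 : x 0 = 0 := h
    refine ⟨Fin.tail x, ?_⟩
    rw [emb_apply, ← h0, Fin.cons_self_tail]
  · rintro ⟨z, rfl⟩
    show (emb r z) 0 = 0
    simp [emb_apply]

theorem index_eq (r : ℕ) (Γ : AddSubgroup (Fin (r + 1) → ℤ)) :
    Γ.index = (Γ.comap (emb r)).index * (Γ.map (pr0 r)).index := by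
  have h1 : (Γ.map (pr0 r)).index = (Γ ⊔ (pr0 r).ker).index := by
    rw [AddSubgroup.index_map]
    have : (pr0 r).range = ⊤ := AddMonoidHom.range_eq_top_of_surjective _ (fun n =>
      ⟨Fin.cons n 0, by simp [pr0]⟩)
    rw [this, AddSubgroup.index_top, mul_one]
  rw [h1, AddSubgroup.index_comap, ← ker_pr0, ← AddSubgroup.relIndex_sup_left (pr0 r).ker Γ,
    AddSubgroup.relIndex_mul_index le_sup_left]

/-- generator of the projection -/
theorem exists_gen (r : ℕ) (Γ : AddSubgroup (Fin (r + 1) → ℤ)) (h : Γ.index ≠ 0) :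
    (Γ.map (pr0 r)).index ≠ 0 ∧ ∃ v : Fin r → ℤ, Fin.cons ((Γ.map (pr0 r)).index : ℤ) v ∈ Γ ∧
      ∀ x ∈ Γ, ((Γ.map (pr0 r)).index : ℤ) ∣ x 0 := by
  have h1 : (Γ.map (pr0 r)).index ≠ 0 := by
    intro h0
    rw [index_eq, h0, mul_zero] at h
    exact h rfl
  obtain ⟨a, ha⟩ : ∃ a : ℤ, Γ.map (pr0 r) = AddSubgroup.zmultiples a := by
    obtain ⟨a, ha⟩ := Int.subgroup_cyclic (Γ.map (pr0 r))
    exact ⟨a, by rw [ha, AddSubgroup.zmultiples_eq_closure]⟩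
  have h2 : (Γ.map (pr0 r)).index = a.natAbs := by
    rw [ha, Int.index_zmultiples]
  have h3 : Γ.map (pr0 r) = AddSubgroup.zmultiples ((Γ.map (pr0 r)).index : ℤ) := by
    rw [h2, ha]
    rcases Int.natAbs_eq a with h | h
    · rw [← h]
    · conv_lhs => rw [h]
      exact AddSubgroup.zmultiples_neg
  refine ⟨h1, ?_⟩
  have h4 : ((Γ.map (pr0 r)).index : ℤ) ∈ Γ.map (pr0 r) := by
    have : ((Γ.map (pr0 r)).index : ℤ) ∈ AddSubgroup.zmultiples ((Γ.map (pr0 r)).index : ℤ) :=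
      AddSubgroup.mem_zmultiples _
    rwa [← h3] at this
  obtain ⟨x, hx, hx0⟩ := h4
  refine ⟨Fin.tail x, ?_, ?_⟩
  · have hx0' : x 0 = ((Γ.map (pr0 r)).index : ℤ) := hx0
    rw [← hx0', Fin.cons_self_tail]; exact hx
  · intro y hy
    have h5 : y 0 ∈ Γ.map (pr0 r) := ⟨y, hy, rfl⟩
    rw [h3] at h5
    exact Int.mem_zmultiples_iff.1 h5

/-- subgroups of index at most `H` -/
def Sg (r H : ℕ) : Set (AddSubgroup (Fin r → ℤ)) := {Γ | Γ.index ≠ 0 ∧ Γ.index ≤ H}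

theorem fiber_count (r H : ℕ) (Γ' : AddSubgroup (Fin r → ℤ)) (h' : Γ'.index ≠ 0) :
    {Γ : AddSubgroup (Fin (r + 1) → ℤ) | Γ ∈ Sg (r + 1) H ∧ Γ.comap (emb r) = Γ'}.Finite ∧
    {Γ : AddSubgroup (Fin (r + 1) → ℤ) | Γ ∈ Sg (r + 1) H ∧ Γ.comap (emb r) = Γ'}.ncard ≤ H := by
  classical
  have hfi : Γ'.FiniteIndex := ⟨h'⟩
  have hfin : Finite ((Fin r → ℤ) ⧸ Γ') := AddSubgroup.finite_quotient_of_finiteIndex
  set S := {Γ : AddSubgroup (Fin (r + 1) → ℤ) | Γ ∈ Sg (r + 1) H ∧ Γ.comap (emb r) = Γ'} with hS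
  have hsel : ∀ Γ : AddSubgroup (Fin (r + 1) → ℤ), ∃ v : Fin r → ℤ, Γ ∈ S →
      (Fin.cons ((Γ.map (pr0 r)).index : ℤ) v ∈ Γ ∧ ∀ x ∈ Γ, ((Γ.map (pr0 r)).index : ℤ) ∣ x 0) := by
    intro Γ
    by_cases hΓ : Γ ∈ S
    · obtain ⟨_, v, hv⟩ := exists_gen r Γ hΓ.1.1
      exact ⟨v, fun _ => hv⟩
    · exact ⟨0, fun h => absurd h hΓ⟩
  choose v hv using hsel
  set F : AddSubgroup (Fin (r + 1) → ℤ) → ℕ × ((Fin r → ℤ) ⧸ Γ') :=
    fun Γ => ((Γ.map (pr0 r)).index, QuotientAddGroup.mk (v Γ)) with hF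
  set T : Set (ℕ × ((Fin r → ℤ) ⧸ Γ')) := (Icc 1 (H / Γ'.index)) ×ˢ (univ : Set ((Fin r → ℤ) ⧸ Γ'))
    with hT
  have hTfin : T.Finite := (finite_Icc _ _).prod (finite_univ)
  have hmaps : ∀ Γ ∈ S, F Γ ∈ T := by
    intro Γ hΓ
    have h1 := index_eq r Γ
    rw [hΓ.2] at h1
    have h2 := (exists_gen r Γ hΓ.1.1).1
    refine ⟨⟨Nat.pos_of_ne_zero h2, ?_⟩, mem_univ _⟩
    rw [Nat.le_div_iff_mul_le (Nat.pos_of_ne_zero h'), mul_comm, ← h1]
    exact hΓ.1.2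
  have hinj : InjOn F S := by
    have key : ∀ Γ1 ∈ S, ∀ Γ2 ∈ S, F Γ1 = F Γ2 → Γ1 ≤ Γ2 := by
      intro Γ1 h1 Γ2 h2 h12 x hx
      have e1 : (Γ1.map (pr0 r)).index = (Γ2.map (pr0 r)).index := congrArg Prod.fst h12
      have e2 : -(v Γ1) + v Γ2 ∈ Γ' := QuotientAddGroup.eq.1 (congrArg Prod.snd h12)
      obtain ⟨k, hk⟩ := (hv Γ1 h1).2 x hx
      have m1 := (hv Γ1 h1).1
      have m2 := (hv Γ2 h2).1
      have m3 : x - k • (Fin.cons ((Γ1.map (pr0 r)).index : ℤ) (v Γ1) : Fin (r + 1) → ℤ) ∈ Γ1 :=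
        sub_mem hx (AddSubgroup.zsmul_mem _ m1 k)
      have m4 : x - k • (Fin.cons ((Γ1.map (pr0 r)).index : ℤ) (v Γ1) : Fin (r + 1) → ℤ) =
          emb r (Fin.tail x - k • v Γ1) := by
        ext i
        refine Fin.cases ?_ (fun j => ?_) i
        · simp [emb_apply]
          rw [hk]; ring
        · simp [emb_apply, Fin.tail]
      rw [m4] at m3
      have m5 : Fin.tail x - k • v Γ1 ∈ Γ' := by
        rw [← h1.2]; exact m3
      have m6 : Fin.tail x - k • v Γ2 ∈ Γ' := by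
        have : Fin.tail x - k • v Γ2 = (Fin.tail x - k • v Γ1) - k • (-(v Γ1) + v Γ2) := by
          ext i; simp; ring
        rw [this]
        exact sub_mem m5 (AddSubgroup.zsmul_mem _ e2 k)
      have m7 : emb r (Fin.tail x - k • v Γ2) ∈ Γ2 := by
        rw [← h2.2] at m6; exact m6
      have m8 : x = emb r (Fin.tail x - k • v Γ2) +
          k • (Fin.cons ((Γ2.map (pr0 r)).index : ℤ) (v Γ2) : Fin (r + 1) → ℤ) := by
        ext i
        refine Fin.cases ?_ (fun j => ?_) i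
        · simp [emb_apply]
          rw [← e1, hk]; ring
        · simp [emb_apply, Fin.tail]
      rw [m8]
      exact add_mem m7 (AddSubgroup.zsmul_mem _ m2 k)
    intro Γ1 h1 Γ2 h2 h12
    exact le_antisymm (key Γ1 h1 Γ2 h2 h12) (key Γ2 h2 Γ1 h1 h12.symm)
  have hSfin : S.Finite := Set.Finite.of_injOn hmaps hinj hTfin
  refine ⟨hSfin, ?_⟩
  refine (ncard_le_ncard_of_injOn F hmaps hinj hTfin).trans ?_
  rw [hT, ncard_prod, ncard_univ]
  have e3 : Nat.card ((Fin r → ℤ) ⧸ Γ') = Γ'.index := rfl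
  have e4 : (Icc 1 (H / Γ'.index)).ncard = H / Γ'.index := by
    rw [← Finset.coe_Icc, ncard_coe_finset]; simp
  rw [e3, e4]
  exact Nat.div_mul_le_self _ _

/-- The number of subgroups of `ℤ^r` of index at most `H` is at most `H^r`. -/
theorem sg_count (r H : ℕ) : (Sg r H).Finite ∧ (Sg r H).ncard ≤ H ^ r := by
  classical
  induction r with
  | zero =>
    have h1 : (Sg 0 H).Subsingleton := by
      intro a ha b hb
      ext x
      have : x = 0 := Subsingleton.elim _ _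
      rw [this]
      exact ⟨fun _ => zero_mem _, fun _ => zero_mem _⟩
    exact ⟨h1.finite, by rw [pow_zero]; exact ncard_le_one_iff_subsingleton.2 h1⟩
  | succ r ih =>
    obtain ⟨ih1, ih2⟩ := ih
    have hcov : Sg (r + 1) H ⊆ ⋃ Γ' ∈ Sg r H,
        {Γ : AddSubgroup (Fin (r + 1) → ℤ) | Γ ∈ Sg (r + 1) H ∧ Γ.comap (emb r) = Γ'} := by
      intro Γ hΓ
      have h1 := index_eq r Γ
      have h0 := hΓ.1
      have h2 : (Γ.comap (emb r)).index ≠ 0 := by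
        intro h; rw [h, zero_mul] at h1; exact h0 h1
      have h3 : (Γ.map (pr0 r)).index ≠ 0 := by
        intro h; rw [h, mul_zero] at h1; exact h0 h1
      have h4 : (Γ.comap (emb r)).index ≤ H := by
        refine le_trans ?_ hΓ.2
        rw [h1]
        exact Nat.le_mul_of_pos_right _ (Nat.pos_of_ne_zero h3)
      simp only [mem_iUnion]
      exact ⟨Γ.comap (emb r), ⟨h2, h4⟩, hΓ, rfl⟩
    have hfin : (⋃ Γ' ∈ Sg r H,
        {Γ : AddSubgroup (Fin (r + 1) → ℤ) | Γ ∈ Sg (r + 1) H ∧ Γ.comap (emb r) = Γ'}).Finite :=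
      ih1.biUnion (fun Γ' h' => (fiber_count r H Γ' h'.1).1)
    refine ⟨hfin.subset hcov, ?_⟩
    refine (ncard_le_ncard hcov hfin).trans ?_
    have h5 : ∀ Γ' : AddSubgroup (Fin r → ℤ), Γ' ∈ ih1.toFinset →
        {Γ : AddSubgroup (Fin (r + 1) → ℤ) | Γ ∈ Sg (r + 1) H ∧ Γ.comap (emb r) = Γ'}.Finite :=
      fun Γ' h => (fiber_count r H Γ' (ih1.mem_toFinset.1 h).1).1
    have h6 : (⋃ Γ' ∈ Sg r H,
        {Γ : AddSubgroup (Fin (r + 1) → ℤ) | Γ ∈ Sg (r + 1) H ∧ Γ.comap (emb r) = Γ'}).ncard ≤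
        ∑ Γ' ∈ ih1.toFinset,
        {Γ : AddSubgroup (Fin (r + 1) → ℤ) | Γ ∈ Sg (r + 1) H ∧ Γ.comap (emb r) = Γ'}.ncard := by
      have := Finset.set_ncard_biUnion_le ih1.toFinset (fun Γ' =>
        {Γ : AddSubgroup (Fin (r + 1) → ℤ) | Γ ∈ Sg (r + 1) H ∧ Γ.comap (emb r) = Γ'})
      simpa using this
    refine h6.trans ?_
    refine (Finset.sum_le_card_nsmul _ _ H (fun Γ' h =>
      (fiber_count r H Γ' (ih1.mem_toFinset.1 h).1).2)).trans ?_
    rw [smul_eq_mul, pow_succ]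
    refine Nat.mul_le_mul_right _ ?_
    rw [← ncard_eq_toFinset_card _ ih1]
    exact ih2

end Pool.Agent.H438R2
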