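import Mathlib
import Pool.Agent.H438R2.Lat

set_option autoImplicit false

open Set

namespace Pool.Agent.H438R2

/-- bounded vectors of the dual lattice of `Γ` -/
def VG (r K : ℕ) (Γ : AddSubgroup (Fin r → ℤ)) : Set (Fin r → ℝ) :=
  {a | (∀ i, |a i| ≤ K) ∧ ∀ z ∈ Γ, ∃ n : ℤ, ∑ i, (z i : ℝ) * a i = n}

theorem vg_count (r K : ℕ) (Γ : AddSubgroup (Fin r → ℤ)) (hΓ : Γ.index ≠ 0) :
    (VG r K Γ).Finite ∧ (VG r K Γ).ncard ≤ (2 * K + 1) ^ r * Γ.index := by
  classical
  induction r with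
  | zero =>
    have h1 : (VG 0 K Γ).Subsingleton := fun a _ b _ => Subsingleton.elim _ _
    refine ⟨h1.finite, ?_⟩
    rw [pow_zero, one_mul]
    exact (ncard_le_one_iff_subsingleton.2 h1).trans (Nat.pos_of_ne_zero hΓ)
  | succ r ih =>
    have h1 := index_eq r Γ
    have h2 : (Γ.comap (emb r)).index ≠ 0 := by
      intro h; rw [h, zero_mul] at h1; exact hΓ h1
    have h3 : (Γ.map (pr0 r)).index ≠ 0 := by
      intro h; rw [h, mul_zero] at h1; exact hΓ h1
    obtain ⟨ih1, ih2⟩ := ih (Γ.comap (emb r)) h2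
    obtain ⟨_, v, hv, _⟩ := exists_gen r Γ hΓ
    obtain ⟨a0, ha0⟩ : ∃ a0 : ℕ, a0 = (Γ.map (pr0 r)).index := ⟨_, rfl⟩
    rw [← ha0] at hv h1 h3
    have ha0R : (0 : ℝ) < a0 := by exact_mod_cast Nat.pos_of_ne_zero h3
    -- the lower end
    obtain ⟨lo, hlo⟩ : ∃ lo : (Fin r → ℝ) → ℤ, lo = fun a' => ⌈(∑ i, (v i : ℝ) * a' i) - K * a0⌉ :=
      ⟨_, rfl⟩
    obtain ⟨num, hnum⟩ : ∃ num : (Fin (r + 1) → ℝ) → ℤ,
      num = fun a => ⌊(a0 : ℝ) * a 0 + ∑ i, (v i : ℝ) * a i.succ⌋ := ⟨_, rfl⟩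
    have hnumE : ∀ a ∈ VG (r + 1) K Γ, ((num a : ℤ) : ℝ) = (a0 : ℝ) * a 0 + ∑ i, (v i : ℝ) * a i.succ := by
      intro a ha
      obtain ⟨n, hn⟩ := ha.2 _ hv
      rw [Fin.sum_univ_succ] at hn
      simp only [Fin.cons_zero, Fin.cons_succ, Int.cast_natCast] at hn
      rw [hnum]
      simp only [hn, Int.floor_intCast]
    set F : (Fin (r + 1) → ℝ) → (Fin r → ℝ) × ℕ :=
      fun a => (Fin.tail a, (num a - lo (Fin.tail a)).toNat) with hF
    set T : Set ((Fin r → ℝ) × ℕ) :=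
      (VG r K (Γ.comap (emb r))) ×ˢ ((Finset.range ((2 * K + 1) * a0) : Finset ℕ) : Set ℕ) with hT
    have hTfin : T.Finite := ih1.prod (Finset.finite_toSet _)
    have hlow : ∀ a ∈ VG (r + 1) K Γ, lo (Fin.tail a) ≤ num a := by
      intro a ha
      rw [hlo]
      simp only
      rw [Int.ceil_le, hnumE a ha]
      have := (abs_le.1 (ha.1 0)).1
      have h5 : ∑ i, (v i : ℝ) * Fin.tail a i = ∑ i, (v i : ℝ) * a i.succ := rfl
      rw [h5]
      nlinarith
    have hup : ∀ a ∈ VG (r + 1) K Γ, (num a - lo (Fin.tail a)) < ((2 * K + 1) * a0 : ℕ) := by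
      intro a ha
      have h6 : (((num a - lo (Fin.tail a) : ℤ)) : ℝ) < (((2 * K + 1) * a0 : ℕ) : ℝ) := by
        push_cast
        rw [hnumE a ha]
        have h7 : (∑ i, (v i : ℝ) * Fin.tail a i) - K * a0 ≤ (lo (Fin.tail a) : ℝ) := by
          rw [hlo]; exact Int.le_ceil _
        have h5 : ∑ i, (v i : ℝ) * Fin.tail a i = ∑ i, (v i : ℝ) * a i.succ := rfl
        rw [h5] at h7
        have := (abs_le.1 (ha.1 0)).2
        nlinarith
      exact_mod_cast h6
    have hmaps : ∀ a ∈ VG (r + 1) K Γ, F a ∈ T := by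
      intro a ha
      refine ⟨⟨fun i => ha.1 i.succ, ?_⟩, ?_⟩
      · intro z hz
        obtain ⟨n, hn⟩ := ha.2 _ hz
        refine ⟨n, ?_⟩
        rw [← hn, Fin.sum_univ_succ]
        simp [emb_apply, Fin.tail, F]
      · simp only [Finset.coe_range, mem_Iio, F]
        have := hlow a ha
        have := hup a ha
        omega
    have hinj : InjOn F (VG (r + 1) K Γ) := by
      intro a ha b hb hab
      have e1 : Fin.tail a = Fin.tail b := congrArg Prod.fst hab
      have e2 : (num a - lo (Fin.tail a)).toNat = (num b - lo (Fin.tail b)).toNat :=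
        congrArg Prod.snd hab
      have e3 := hlow a ha
      have e4 := hlow b hb
      rw [e1] at e2 e3
      have e5 : num a = num b := by omega
      have e6 : ((num a : ℤ) : ℝ) = ((num b : ℤ) : ℝ) := by rw [e5]
      rw [hnumE a ha, hnumE b hb] at e6
      have e7 : ∑ i, (v i : ℝ) * a i.succ = ∑ i, (v i : ℝ) * b i.succ := by
        refine Finset.sum_congr rfl (fun i _ => ?_)
        have : a i.succ = b i.succ := congrFun e1 i
        rw [this]
      have e8 : a 0 = b 0 := by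
        rw [e7] at e6
        have : (a0 : ℝ) * a 0 = a0 * b 0 := by linarith
        exact mul_left_cancel₀ ha0R.ne' this
      ext i
      refine Fin.cases e8 (fun j => congrFun e1 j) i
    refine ⟨Set.Finite.of_injOn hmaps hinj hTfin, ?_⟩
    refine (ncard_le_ncard_of_injOn F hmaps hinj hTfin).trans ?_
    rw [hT, ncard_prod, ncard_coe_finset, Finset.card_range]
    calc _ ≤ ((2 * K + 1) ^ r * (Γ.comap (emb r)).index) * ((2 * K + 1) * a0) :=
          Nat.mul_le_mul_right _ ih2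
      _ = (2 * K + 1) ^ (r + 1) * Γ.index := by rw [h1]; ring

end Pool.Agent.H438R2
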