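import Mathlib

set_option autoImplicit false

open Matrix

namespace Pool.Agent.H438R2

variable {R : Type*} [CommRing R] {r N : ℕ}

/-- The maximal minors of a matrix, indexed by tuples of columns. -/
def mnr (B : Matrix (Fin r) (Fin N) R) (f : Fin r → Fin N) : R := (B.submatrix id f).det

omit [CommRing R] in
theorem updateCol_eq (B : Matrix (Fin r) (Fin N) R) (f : Fin r → Fin N) (i : Fin r) (k : Fin N) :
    (B.submatrix id f).updateCol i (fun j => B j k) = B.submatrix id (Function.update f i k) := by
  ext a b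
  simp only [updateCol_apply, submatrix_apply, id]
  by_cases h : b = i
  · subst h; simp
  · simp [h]

theorem mnr_identity (B : Matrix (Fin r) (Fin N) R) (f : Fin r → Fin N) (k : Fin N) (c : Fin r → R) :
    mnr B f * (c ᵥ* B) k = ∑ i, (c ᵥ* B) (f i) * mnr B (Function.update f i k) := by
  have h := mulVec_cramer (B.submatrix id f) (fun j => B j k)
  have h2 : c ⬝ᵥ ((B.submatrix id f) *ᵥ cramer (B.submatrix id f) (fun j => B j k)) =
      c ⬝ᵥ ((B.submatrix id f).det • (fun j => B j k)) := by rw [h]
  rw [dotProduct_mulVec, dotProduct_smul] at h2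
  unfold mnr
  have h3 : c ⬝ᵥ (fun j => B j k) = (c ᵥ* B) k := rfl
  rw [h3, smul_eq_mul] at h2
  rw [← h2]
  unfold dotProduct
  refine Finset.sum_congr rfl (fun i _ => ?_)
  rw [cramer_apply, updateCol_eq]
  rfl

theorem mnr_update_eq (B : Matrix (Fin r) (Fin N) R) (f : Fin r → Fin N) (i : Fin r) (k : Fin N) :
    mnr B (Function.update f i k) = ((B.submatrix id f).adjugate * B) i k := by
  unfold mnr
  rw [← updateCol_eq, ← cramer_apply, cramer_eq_adjugate_mulVec]
  rfl

theorem mnr_of_eq (B : Matrix (Fin r) (Fin N) R) (f : Fin r → Fin N) (i j : Fin r) (hij : i ≠ j)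
    (h : f i = f j) : mnr B f = 0 := by
  unfold mnr
  apply det_zero_of_column_eq hij
  intro k
  simp [h]

theorem exists_mnr_ne_zero {F : Type*} [Field F] (M : Matrix (Fin r) (Fin N) F)
    (h : LinearIndependent F M.row) : ∃ f : Fin r → Fin N, mnr M f ≠ 0 := by
  have h1 : M.rank = r := by
    have := LinearIndependent.rank_matrix h
    simpa using this
  have h2 : Module.finrank F (Submodule.span F (Set.range M.col)) = r := by
    rw [← rank_eq_finrank_span_cols, h1]
  obtain ⟨g, hg1, hg2, hg3⟩ := Submodule.exists_fun_fin_finrank_span_eq F (Set.range M.col)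
  choose f hf using hg1
  obtain ⟨e, he⟩ : ∃ e : Fin r ≃ Fin (Module.finrank F (Submodule.span F (Set.range M.col))),
    e = finCongr h2.symm := ⟨_, rfl⟩
  refine ⟨fun i => f (e i), ?_⟩
  unfold mnr
  have h4 : LinearIndependent F (fun i => g (e i)) := hg3.comp _ e.injective
  have h5 : (M.submatrix id (fun i => f (e i))).col = fun i => g (e i) := by
    ext i j
    rw [← hf]
    rfl
  rw [← h5] at h4
  have h6 := linearIndependent_cols_iff_isUnit.1 h4
  exact ((Matrix.isUnit_iff_isUnit_det _).1 h6).ne_zero

end Pool.Agent.H438R2
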