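import Mathlib
import Pool.Agent.H438R2.Minors
import Pool.Agent.H438R2.Dual

set_option autoImplicit false

open Set Matrix

namespace Pool.Agent.H438R2

/-- `p` is a primitive integer vector of Plücker coordinates of the subspace `L`. -/
structure IsPP {r N : ℕ} (L : Submodule ℝ (Fin N → ℝ)) (p : (Fin r → Fin N) → ℤ) : Prop where
  prim : ∀ g : ℤ, (∀ f, g ∣ p f) → IsUnit g
  ex : ∃ B : Matrix (Fin r) (Fin N) ℤ, LinearIndependent ℝ (fun i => fun j => (B i j : ℝ)) ∧
    Submodule.span ℝ (Set.range fun i => (fun j => (B i j : ℝ))) = L ∧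
    ∃ c : ℤ, c ≠ 0 ∧ ∀ f, mnr B f = c * p f

variable {r N : ℕ}

theorem mnr_cast (B : Matrix (Fin r) (Fin N) ℤ) (f : Fin r → Fin N) :
    mnr (B.map (Int.cast : ℤ → ℝ)) f = ((mnr B f : ℤ) : ℝ) := by
  unfold mnr
  have : (B.map (Int.cast : ℤ → ℝ)).submatrix id f = (B.submatrix id f).map (Int.castRingHom ℝ) := rfl
  rw [this]
  exact (RingHom.map_det (Int.castRingHom ℝ) (B.submatrix id f)).symm

/-- elements of the span are row combinations -/
theorem mem_span_rows (B : Matrix (Fin r) (Fin N) ℤ) (x : Fin N → ℝ) :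
    x ∈ Submodule.span ℝ (Set.range fun i => (fun j => (B i j : ℝ))) ↔
      ∃ c : Fin r → ℝ, x = c ᵥ* (B.map (Int.cast : ℤ → ℝ)) := by
  rw [Submodule.mem_span_range_iff_exists_fun]
  refine exists_congr (fun c => ?_)
  have : c ᵥ* (B.map (Int.cast : ℤ → ℝ)) = ∑ i, c i • (fun j => (B i j : ℝ)) := by
    ext j
    simp [vecMul, dotProduct, Finset.sum_apply]
  rw [this]
  exact eq_comm

theorem IsPP.identity {L : Submodule ℝ (Fin N → ℝ)} {p : (Fin r → Fin N) → ℤ} (h : IsPP L p)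
    {x : Fin N → ℝ} (hx : x ∈ L) (f : Fin r → Fin N) (k : Fin N) :
    (p f : ℝ) * x k = ∑ i, x (f i) * (p (Function.update f i k) : ℝ) := by
  obtain ⟨B, _, hB, c, hc, hm⟩ := h.ex
  rw [← hB, mem_span_rows] at hx
  obtain ⟨a, rfl⟩ := hx
  have h1 := mnr_identity (B.map (Int.cast : ℤ → ℝ)) f k a
  simp only [mnr_cast, hm] at h1
  push_cast at h1
  have hcR : (c : ℝ) ≠ 0 := by exact_mod_cast hc
  have h2 : (c : ℝ) * ((p f : ℝ) * (a ᵥ* B.map (Int.cast : ℤ → ℝ)) k) =
      c * ∑ i, (a ᵥ* B.map (Int.cast : ℤ → ℝ)) (f i) * (p (Function.update f i k) : ℝ) := by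
    rw [Finset.mul_sum, ← mul_assoc, h1]
    exact Finset.sum_congr rfl (fun i _ => by ring)
  exact mul_left_cancel₀ hcR h2

theorem IsPP.exists_ne {L : Submodule ℝ (Fin N → ℝ)} {p : (Fin r → Fin N) → ℤ} (h : IsPP L p) :
    ∃ f, p f ≠ 0 := by
  by_contra hcon
  push Not at hcon
  have := h.prim 0 (fun f => by rw [hcon f])
  exact not_isUnit_zero this

theorem IsPP.of_eq {L : Submodule ℝ (Fin N → ℝ)} {p : (Fin r → Fin N) → ℤ} (h : IsPP L p)
    (f : Fin r → Fin N) (i j : Fin r) (hij : i ≠ j) (hf : f i = f j) : p f = 0 := by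
  obtain ⟨B, _, hB, c, hc, hm⟩ := h.ex
  have h1 := mnr_of_eq B f i j hij hf
  rw [hm] at h1
  exact (mul_eq_zero.1 h1).resolve_left hc

/-- A graph description of a plane. -/
structure Graph (r N K : ℕ) (f : Fin r → Fin N) (A : Fin r → Fin N → ℝ) (L : Submodule ℝ (Fin N → ℝ)) :
    Prop where
  inj : Function.Injective f
  diag : ∀ i j, A i (f j) = if i = j then 1 else 0
  bdd : ∀ i k, |A i k| ≤ K
  mem : ∀ x ∈ L, ∀ k, x k = ∑ i, x (f i) * A i k
  row : ∀ i, A i ∈ L

theorem Graph.eq_span {K : ℕ} {f : Fin r → Fin N} {A : Fin r → Fin N → ℝ} {L : Submodule ℝ (Fin N → ℝ)}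
    (h : Graph r N K f A L) : L = Submodule.span ℝ (Set.range A) := by
  apply le_antisymm
  · intro x hx
    rw [Submodule.mem_span_range_iff_exists_fun]
    refine ⟨fun i => x (f i), ?_⟩
    ext k
    rw [h.mem x hx k]
    simp [Finset.sum_apply]
  · rw [Submodule.span_le]
    rintro _ ⟨i, rfl⟩
    exact h.row i

theorem exists_graph {n r K : ℕ} {L : Submodule ℝ (Fin (n + 1) → ℝ)} {p : (Fin r → Fin (n + 1)) → ℤ}
    (h : IsPP L p) {x : Fin (n + 1) → ℝ} (hx : x ∈ L) (hx0 : x 0 = 1) (hxK : ∀ i, |x i| ≤ K)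
    (hK : 1 ≤ K) :
    ∃ (f : Fin r → Fin (n + 1)) (i0 : Fin r), f i0 = 0 ∧ p f ≠ 0 ∧
      (∀ g, |(p g : ℝ)| ≤ (r * K : ℕ) * |(p f : ℝ)|) ∧
      Graph r (n + 1) (r * K) f (fun i k => (p (Function.update f i k) : ℝ) / p f) L := by
  classical
  have hKR : (1 : ℝ) ≤ K := by exact_mod_cast hK
  -- r is positive
  have hr : 0 < r := by
    rcases Nat.eq_zero_or_pos r with h0 | h0
    · subst h0
      obtain ⟨f, hf⟩ := h.exists_ne
      have h1 := h.identity hx f 0
      rw [hx0, mul_one, Finset.univ_eq_empty, Finset.sum_empty] at h1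
      exact absurd (by exact_mod_cast h1) hf
    · exact h0
  obtain ⟨S, hS⟩ : ∃ S : Finset (Fin r → Fin (n + 1)), S = Finset.univ.filter (fun f => ∃ i, f i = 0) :=
    ⟨_, rfl⟩
  have hSne : S.Nonempty := ⟨fun _ => 0, by rw [hS]; simp; exact ⟨⟨0, hr⟩⟩⟩
  obtain ⟨f, hfS, hmax⟩ := S.exists_max_image (fun f => |(p f : ℝ)|) hSne
  have hfS' : ∃ i, f i = 0 := by rw [hS] at hfS; simpa using hfS
  obtain ⟨i0, hi0⟩ := hfS'
  have hbound : ∀ g, |(p g : ℝ)| ≤ (r * K : ℕ) * |(p f : ℝ)| := by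
    intro g
    have h1 := h.identity hx g 0
    rw [hx0, mul_one] at h1
    rw [h1]
    calc |∑ i, x (g i) * (p (Function.update g i 0) : ℝ)|
        ≤ ∑ i, |x (g i) * (p (Function.update g i 0) : ℝ)| := Finset.abs_sum_le_sum_abs _ _
      _ ≤ ∑ i : Fin r, (K : ℝ) * |(p f : ℝ)| := by
          refine Finset.sum_le_sum (fun i _ => ?_)
          rw [abs_mul]
          refine mul_le_mul (hxK _) ?_ (abs_nonneg _) (by linarith)
          refine hmax _ ?_
          rw [hS]; simp only [Finset.mem_filter, Finset.mem_univ, true_and]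
          exact ⟨i, by simp⟩
      _ = (r * K : ℕ) * |(p f : ℝ)| := by
          rw [Finset.sum_const, Finset.card_univ, Fintype.card_fin, nsmul_eq_mul]; push_cast; ring
  have hpf : p f ≠ 0 := by
    intro h0
    obtain ⟨g, hg⟩ := h.exists_ne
    have h1 := hbound g
    rw [h0, Int.cast_zero, abs_zero, mul_zero] at h1
    have h2 : (p g : ℝ) = 0 := abs_nonpos_iff.1 h1
    exact hg (by exact_mod_cast h2)
  have hpfR : (p f : ℝ) ≠ 0 := by exact_mod_cast hpf
  have hinj : Function.Injective f := by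
    intro i j hij
    by_contra hne
    exact hpf (h.of_eq f i j hne hij)
  refine ⟨f, i0, hi0, hpf, hbound, ⟨hinj, ?_, ?_, ?_, ?_⟩⟩
  · intro i j
    by_cases hij : i = j
    · subst hij
      simp only [if_true, Function.update_eq_self]
      exact div_self hpfR
    · simp only [hij, if_false]
      have : p (Function.update f i (f j)) = 0 := by
        refine h.of_eq _ i j hij ?_
        rw [Function.update_self, Function.update_of_ne (Ne.symm hij)]
      rw [this]; simp
  · intro i k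
    rw [abs_div, div_le_iff₀ (abs_pos.2 hpfR)]
    exact hbound _
  · intro y hy k
    have h1 := h.identity hy f k
    have h2 : y k = (∑ i, y (f i) * (p (Function.update f i k) : ℝ)) / p f := by
      rw [← h1]; field_simp
    rw [h2, Finset.sum_div]
    exact Finset.sum_congr rfl (fun i _ => by ring)
  · intro i
    obtain ⟨B, _, hB, c, hc, hm⟩ := h.ex
    have hcR : (c : ℝ) ≠ 0 := by exact_mod_cast hc
    rw [← hB, mem_span_rows]
    refine ⟨fun j => ((((B.map (Int.cast : ℤ → ℝ)).submatrix id f).adjugate i j) / (c * p f)), ?_⟩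
    ext k
    have h1 := mnr_update_eq (B.map (Int.cast : ℤ → ℝ)) f i k
    rw [mnr_cast, hm] at h1
    push_cast at h1
    have h2 : (p (Function.update f i k) : ℝ) / p f = (c * (p (Function.update f i k) : ℝ)) / (c * p f) := by
      field_simp
    show (p (Function.update f i k) : ℝ) / p f = ∑ j, ((((B.map (Int.cast : ℤ → ℝ)).submatrix id
      f).adjugate i j) / (c * p f)) * (B.map (Int.cast : ℤ → ℝ)) j k
    rw [h2, h1, Matrix.mul_apply, Finset.sum_div]
    exact Finset.sum_congr rfl (fun j _ => by ring)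

end Pool.Agent.H438R2
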