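import Mathlib
import Pool.Agent.H438R2.Plane

set_option autoImplicit false

open Set Matrix MeasureTheory

namespace Pool.Agent.H438R2

/-- the point `(1, θ)` -/
def hat {n : ℕ} (θ : Fin n → ℝ) : Fin (n + 1) → ℝ := Fin.cons 1 θ

@[simp] theorem hat_zero {n : ℕ} (θ : Fin n → ℝ) : hat θ 0 = 1 := rfl
@[simp] theorem hat_succ {n : ℕ} (θ : Fin n → ℝ) (i : Fin n) : hat θ i.succ = θ i := by
  simp [hat]

/-- the points of the box of side `K` within `ρ` of a plane `L` -/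
def Nr (n K : ℕ) (L : Submodule ℝ (Fin (n + 1) → ℝ)) (ρ : ℝ) : Set (Fin n → ℝ) :=
  {θ | (∀ i, |θ i| ≤ K) ∧ ∃ P ∈ L, P 0 = 1 ∧ ∀ i : Fin n, |P i.succ - θ i| ≤ ρ}

theorem sum_abs_le {r : ℕ} (a b : Fin r → ℝ) (x y : ℝ) (hx : ∀ i, |a i| ≤ x) (hy : ∀ i, |b i| ≤ y)
    (hx0 : 0 ≤ x) : |∑ i, a i * b i| ≤ r * (x * y) := by
  calc |∑ i, a i * b i| ≤ ∑ i, |a i * b i| := Finset.abs_sum_le_sum_abs _ _
    _ ≤ ∑ _i : Fin r, x * y := Finset.sum_le_sum (fun i _ => by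
        rw [abs_mul]; exact mul_le_mul (hx i) (hy i) (abs_nonneg _) hx0)
    _ = r * (x * y) := by rw [Finset.sum_const, Finset.card_univ, Fintype.card_fin, nsmul_eq_mul]

theorem nr_cover (n r K : ℕ) (hK : 1 ≤ K) : ∃ C : ℝ, 1 ≤ C ∧
    ∀ (L : Submodule ℝ (Fin (n + 1) → ℝ)) (p : (Fin r → Fin (n + 1)) → ℤ), IsPP L p →
    ∀ ρ : ℝ, 0 < ρ → ρ ≤ 1 → ∃ S : Finset (Fin n → ℝ), (S.card : ℝ) ≤ C * (ρ⁻¹) ^ (r - 1) ∧
      Nr n K L ρ ⊆ ⋃ c ∈ S, Metric.closedBall c (C * ρ) := by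
  classical
  obtain ⟨M, hM⟩ : ∃ M : ℝ, M = ((r * (K + 1) : ℕ) : ℝ) := ⟨_, rfl⟩
  have hM0 : 0 ≤ M := by rw [hM]; positivity
  have hKR : (1 : ℝ) ≤ K := by exact_mod_cast hK
  refine ⟨max (2 + 3 * (r * M)) ((2 * K + 2) ^ (r - 1)), ?_, ?_⟩
  · refine le_max_of_le_left ?_
    have : 0 ≤ r * M := by positivity
    linarith
  intro L p hp ρ hρ hρ1
  obtain ⟨C, hC⟩ : ∃ C : ℝ, C = max (2 + 3 * (r * M)) ((2 * K + 2) ^ (r - 1)) := ⟨_, rfl⟩
  rw [← hC]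
  have hC1 : 2 + 3 * (r * M) ≤ C := hC ▸ le_max_left _ _
  have hC2 : (2 * K + 2) ^ (r - 1) ≤ C := hC ▸ le_max_right _ _
  have hC0 : 0 ≤ C := le_trans (by positivity) hC1
  rcases (Nr n K L ρ).eq_empty_or_nonempty with he | ⟨θ0, hθ0, P0, hP0, hP00, hP0θ⟩
  · refine ⟨∅, ?_, by rw [he]; exact empty_subset _⟩
    simp; positivity
  have hx : ∀ i, |P0 i| ≤ ((K + 1 : ℕ) : ℝ) := by
    intro i
    refine Fin.cases ?_ (fun i => ?_) i
    · rw [hP00]; push_cast; rw [abs_one]; linarith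
    · have h1 := hP0θ i
      have h2 := hθ0 i
      have h3 : |P0 i.succ| ≤ |P0 i.succ - θ0 i| + |θ0 i| := by
        calc |P0 i.succ| = |(P0 i.succ - θ0 i) + θ0 i| := by rw [sub_add_cancel]
          _ ≤ _ := abs_add_le _ _
      push_cast; linarith
  obtain ⟨f, i0, hfi, hpf, hbd, hG⟩ := exists_graph hp hP0 hP00 hx (by omega : 1 ≤ K + 1)
  obtain ⟨A, hA⟩ : ∃ A : Fin r → Fin (n + 1) → ℝ,
    A = fun i k => (p (Function.update f i k) : ℝ) / p f := ⟨_, rfl⟩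
  rw [← hA] at hG
  have hGb : ∀ i k, |A i k| ≤ M := by rw [hM]; exact hG.bdd
  -- key inequality
  have key : ∀ θ ∈ Nr n K L ρ, ∀ k : Fin n, |θ k - ∑ i, hat θ (f i) * A i k.succ| ≤ (1 + r * M) * ρ := by
    rintro θ ⟨hθ, P, hP, hP0, hPθ⟩ k
    have h1 := hG.mem P hP k.succ
    have h2 : ∀ j, |P j - hat θ j| ≤ ρ := by
      intro j
      refine Fin.cases ?_ (fun i => ?_) j
      · rw [hP0, hat_zero, sub_self, abs_zero]; exact hρ.le
      · rw [hat_succ]; exact hPθ i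
    have h3 : θ k - ∑ i, hat θ (f i) * A i k.succ =
        -(P k.succ - θ k) + ∑ i, (P (f i) - hat θ (f i)) * A i k.succ := by
      rw [h1]
      simp only [sub_mul, Finset.sum_sub_distrib]
      ring
    rw [h3]
    have h4 := sum_abs_le (fun i => P (f i) - hat θ (f i)) (fun i => A i k.succ) ρ M
      (fun i => h2 (f i)) (fun i => hGb i _) hρ.le
    have h5 := hPθ k
    calc |-(P k.succ - θ k) + ∑ i, (P (f i) - hat θ (f i)) * A i k.succ|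
        ≤ |-(P k.succ - θ k)| + |∑ i, (P (f i) - hat θ (f i)) * A i k.succ| := abs_add_le _ _
      _ ≤ ρ + r * (ρ * M) := by rw [abs_neg]; exact add_le_add h5 h4
      _ = (1 + r * M) * ρ := by ring
  -- cells
  obtain ⟨Q, hQ⟩ : ∃ Q : Finset (Fin r → ℤ), Q = Fintype.piFinset (fun i =>
    if i = i0 then {⌊(1 : ℝ) / ρ⌋} else Finset.Icc ⌊-(K : ℝ) / ρ⌋ ⌊(K : ℝ) / ρ⌋) := ⟨_, rfl⟩
  have hcell : ∀ q : Fin r → ℤ, ∃ c : Fin n → ℝ, ∀ θ ∈ Nr n K L ρ, (∀ i, ⌊hat θ (f i) / ρ⌋ = q i) →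
      θ ∈ Metric.closedBall c (C * ρ) := by
    intro q
    by_cases hex : ∃ θ ∈ Nr n K L ρ, ∀ i, ⌊hat θ (f i) / ρ⌋ = q i
    · obtain ⟨c, hc, hcq⟩ := hex
      refine ⟨c, fun θ hθ hθq => ?_⟩
      rw [Metric.mem_closedBall, dist_pi_le_iff (by positivity)]
      intro k
      rw [Real.dist_eq]
      have h1 := key θ hθ k
      have h2 := key c hc k
      have h3 : ∀ i, |hat θ (f i) - hat c (f i)| ≤ ρ := by
        intro i
        have h4 : ⌊hat θ (f i) / ρ⌋ = ⌊hat c (f i) / ρ⌋ := by rw [hθq, hcq]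
        have h5 := Int.abs_sub_lt_one_of_floor_eq_floor h4
        rw [← sub_div, abs_div, abs_of_pos hρ, div_lt_one hρ] at h5
        exact h5.le
      have h4 := sum_abs_le (fun i => hat θ (f i) - hat c (f i)) (fun i => A i k.succ) ρ M
        h3 (fun i => hGb i _) hρ.le
      have h6 : θ k - c k = (θ k - ∑ i, hat θ (f i) * A i k.succ) - (c k - ∑ i, hat c (f i) * A i k.succ)
          + ∑ i, (hat θ (f i) - hat c (f i)) * A i k.succ := by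
        simp only [sub_mul, Finset.sum_sub_distrib]
        ring
      rw [h6]
      calc _ ≤ |(θ k - ∑ i, hat θ (f i) * A i k.succ) - (c k - ∑ i, hat c (f i) * A i k.succ)|
            + |∑ i, (hat θ (f i) - hat c (f i)) * A i k.succ| := abs_add_le _ _
        _ ≤ (|θ k - ∑ i, hat θ (f i) * A i k.succ| + |c k - ∑ i, hat c (f i) * A i k.succ|)
            + |∑ i, (hat θ (f i) - hat c (f i)) * A i k.succ| := by gcongr; exact abs_sub _ _
        _ ≤ ((1 + r * M) * ρ + (1 + r * M) * ρ) + r * (ρ * M) := by gcongr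
        _ = (2 + 3 * (r * M)) * ρ := by ring
        _ ≤ C * ρ := by gcongr
    · refine ⟨0, fun θ hθ hθq => absurd ⟨θ, hθ, hθq⟩ hex⟩
  choose c hc using hcell
  refine ⟨Q.image c, ?_, ?_⟩
  · have h1 : ((Q.image c).card : ℝ) ≤ Q.card := by exact_mod_cast Finset.card_image_le
    refine h1.trans ?_
    rw [hQ, Fintype.card_piFinset]
    push_cast
    rw [← Finset.mul_prod_erase Finset.univ _ (Finset.mem_univ i0)]
    simp only [if_true, Finset.card_singleton, Nat.cast_one, one_mul]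
    have h2 : ∀ i ∈ Finset.univ.erase i0, (((if i = i0 then {⌊(1 : ℝ) / ρ⌋} else
        Finset.Icc ⌊-(K : ℝ) / ρ⌋ ⌊(K : ℝ) / ρ⌋ : Finset ℤ).card : ℕ) : ℝ) ≤ (2 * K + 2) * ρ⁻¹ := by
      intro i hi
      rw [if_neg (Finset.ne_of_mem_erase hi), Int.card_Icc]
      have h3 : ⌊-(K : ℝ) / ρ⌋ ≤ ⌊(K : ℝ) / ρ⌋ := by
        apply Int.floor_le_floor
        gcongr
        linarith
      have h4 : (((⌊(K : ℝ) / ρ⌋ + 1 - ⌊-(K : ℝ) / ρ⌋).toNat : ℕ) : ℝ) =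
          ((⌊(K : ℝ) / ρ⌋ + 1 - ⌊-(K : ℝ) / ρ⌋ : ℤ) : ℝ) := by
        have h5 : (((⌊(K : ℝ) / ρ⌋ + 1 - ⌊-(K : ℝ) / ρ⌋).toNat : ℕ) : ℤ) =
          (⌊(K : ℝ) / ρ⌋ + 1 - ⌊-(K : ℝ) / ρ⌋ : ℤ) := Int.toNat_of_nonneg (by omega)
        exact_mod_cast h5
      rw [h4]
      push_cast
      have h6 : (⌊(K : ℝ) / ρ⌋ : ℝ) ≤ K / ρ := Int.floor_le _
      have h7 : -(K : ℝ) / ρ - 1 < (⌊-(K : ℝ) / ρ⌋ : ℝ) := Int.sub_one_lt_floor _
      have h8 : 1 ≤ ρ⁻¹ := (one_le_inv₀ hρ).2 hρ1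
      have h9 : (2 * (K : ℝ) + 2) * ρ⁻¹ = K / ρ - (-(K : ℝ) / ρ) + 2 * ρ⁻¹ := by
        field_simp; ring
      rw [h9]; linarith
    have h3 : ∏ i ∈ Finset.univ.erase i0, (((if i = i0 then {⌊(1 : ℝ) / ρ⌋} else
        Finset.Icc ⌊-(K : ℝ) / ρ⌋ ⌊(K : ℝ) / ρ⌋ : Finset ℤ).card : ℕ) : ℝ) ≤
        ((2 * K + 2) * ρ⁻¹) ^ (r - 1) := by
      refine (Finset.prod_le_prod (fun i _ => by positivity) h2).trans ?_
      rw [Finset.prod_const, Finset.card_erase_of_mem (Finset.mem_univ _), Finset.card_univ,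
        Fintype.card_fin]
    refine h3.trans ?_
    rw [mul_pow]
    gcongr
  · intro θ hθ
    have hθ1 := hθ.1
    simp only [mem_iUnion, Finset.mem_image, exists_prop]
    refine ⟨c (fun i => ⌊hat θ (f i) / ρ⌋), ⟨_, ?_, rfl⟩, hc _ θ hθ (fun i => rfl)⟩
    rw [hQ, Fintype.mem_piFinset]
    intro i
    by_cases hi : i = i0
    · rw [if_pos hi, hi, hfi, hat_zero, Finset.mem_singleton]
    · rw [if_neg hi, Finset.mem_Icc]
      have h1 : |hat θ (f i)| ≤ K := by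
        refine Fin.cases ?_ (fun i => ?_) (f i)
        · rw [hat_zero, abs_one]; exact hKR
        · rw [hat_succ]; exact hθ1 i
      rw [abs_le] at h1
      constructor
      · apply Int.floor_le_floor; gcongr; exact h1.1
      · apply Int.floor_le_floor; gcongr; exact h1.2

end Pool.Agent.H438R2
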