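import Mathlib

set_option autoImplicit false

open MeasureTheory Set Metric Module
open scoped ENNReal

namespace Pool.Agent.H438R2

/-- the points of the unit cube with an exceptionally good small approximation -/
def EX (n : ℕ) (V δ : ℝ) : Set (Fin n → ℝ) :=
  {θ | (∀ i, 0 ≤ θ i ∧ θ i ≤ 1) ∧ ∃ v : Fin (n + 1) → ℤ, v ≠ 0 ∧ |(v 0 : ℝ)| ≤ V ∧
    ∀ i : Fin n, |(v 0 : ℝ) * θ i - v i.succ| ≤ δ}

/-- the one-dimensional slices -/
def TQ (q : ℤ) (δ : ℝ) : Set ℝ := {t | (0 ≤ t ∧ t ≤ 1) ∧ ∃ a : ℤ, |(q : ℝ) * t - a| ≤ δ}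

theorem tq_vol (q : ℤ) (hq : q ≠ 0) (δ : ℝ) (hδ : 0 < δ) (hδ1 : δ < 1) :
    volume (TQ q δ) ≤ ENNReal.ofReal (10 * δ) := by
  have hqR : (0 : ℝ) < |(q : ℝ)| := abs_pos.2 (by exact_mod_cast hq)
  have hqR1 : (1 : ℝ) ≤ |(q : ℝ)| := by
    have : (1 : ℤ) ≤ |q| := Int.one_le_abs hq
    exact_mod_cast this
  have hq' : (q : ℝ) ≠ 0 := by exact_mod_cast hq
  have hsub : TQ q δ ⊆ ⋃ a ∈ Finset.Icc (-|q| - 1) (|q| + 1), closedBall ((a : ℝ) / q) (δ / |(q : ℝ)|) := by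
    rintro t ⟨⟨ht0, ht1⟩, a, ha⟩
    have h1 : |(a : ℝ)| < |(q : ℝ)| + 1 := by
      calc |(a : ℝ)| = |(q : ℝ) * t - (q * t - a)| := by congr 1; ring
        _ ≤ |(q : ℝ) * t| + |(q : ℝ) * t - a| := abs_sub _ _
        _ ≤ |(q : ℝ)| * 1 + δ := by
            rw [abs_mul, abs_of_nonneg ht0]; gcongr
        _ < |(q : ℝ)| + 1 := by linarith
    have h2 : |a| < |q| + 1 := by exact_mod_cast h1
    rw [abs_lt] at h2
    simp only [mem_iUnion, Finset.mem_Icc]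
    refine ⟨a, ⟨by omega, by omega⟩, ?_⟩
    rw [mem_closedBall, Real.dist_eq]
    have h3 : t - (a : ℝ) / q = (q * t - a) / q := by field_simp
    rw [h3, abs_div]
    gcongr
  refine (measure_mono hsub).trans ((measure_biUnion_finset_le _ _).trans ?_)
  simp only [Real.volume_closedBall]
  rw [Finset.sum_const, nsmul_eq_mul, ← ENNReal.ofReal_natCast, ← ENNReal.ofReal_mul (by positivity)]
  refine ENNReal.ofReal_le_ofReal ?_
  rw [Int.card_Icc]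
  have h5 : (((|q| + 1 + 1 - (-|q| - 1)).toNat : ℕ) : ℝ) = 2 * |(q : ℝ)| + 3 := by
    have h6 : (((|q| + 1 + 1 - (-|q| - 1)).toNat : ℕ) : ℤ) = 2 * |q| + 3 := by
      rw [Int.toNat_of_nonneg (by have := abs_nonneg q; linarith)]; ring
    exact_mod_cast h6
  rw [h5]
  calc (2 * |(q : ℝ)| + 3) * (2 * (δ / |(q : ℝ)|)) ≤ (5 * |(q : ℝ)|) * (2 * (δ / |(q : ℝ)|)) := by
        gcongr; linarith
    _ = 10 * δ := by field_simp; ring

theorem ex_vol (n : ℕ) (V δ : ℝ) (hV : 0 ≤ V) (hδ : 0 < δ) (hδ1 : δ < 1) :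
    volume (EX n V δ) ≤ ENNReal.ofReal ((2 * V + 1) * (10 * δ) ^ n) := by
  have hsub : EX n V δ ⊆ ⋃ q ∈ (Finset.Icc (-⌊V⌋) ⌊V⌋).erase 0, Set.pi univ (fun _ => TQ q δ) := by
    rintro θ ⟨hθ, v, hv, hv0, hvi⟩
    have h0 : v 0 ≠ 0 := by
      intro h0
      apply hv
      ext j
      refine Fin.cases ?_ (fun i => ?_) j
      · rw [h0]; rfl
      · have h1 := hvi i
        rw [h0, Int.cast_zero, zero_mul, zero_sub, abs_neg] at h1
        have h2 : |(v i.succ : ℝ)| < 1 := lt_of_le_of_lt h1 hδ1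
        have h3 : |v i.succ| < 1 := by exact_mod_cast h2
        exact Int.abs_lt_one_iff.1 h3
    rw [abs_le] at hv0
    simp only [mem_iUnion, Finset.mem_erase, Finset.mem_Icc]
    refine ⟨v 0, ⟨h0, ?_, ?_⟩, ?_⟩
    · have : (-(v 0) : ℤ) ≤ ⌊V⌋ := Int.le_floor.2 (by push_cast; linarith)
      omega
    · exact Int.le_floor.2 hv0.2
    · intro i _
      exact ⟨hθ i, v i.succ, hvi i⟩
  refine (measure_mono hsub).trans ((measure_biUnion_finset_le _ _).trans ?_)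
  have h1 : ∀ q ∈ (Finset.Icc (-⌊V⌋) ⌊V⌋).erase 0, volume (Set.pi univ (fun (_ : Fin n) => TQ q δ)) ≤
      ENNReal.ofReal ((10 * δ) ^ n) := by
    intro q hq
    rw [volume_pi_pi, Finset.prod_const, Finset.card_univ, Fintype.card_fin,
      ENNReal.ofReal_pow (by positivity)]
    gcongr
    exact tq_vol q (Finset.ne_of_mem_erase hq) δ hδ hδ1
  refine (Finset.sum_le_card_nsmul _ _ _ h1).trans ?_
  rw [nsmul_eq_mul, ← ENNReal.ofReal_natCast, ← ENNReal.ofReal_mul (by positivity)]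
  refine ENNReal.ofReal_le_ofReal ?_
  gcongr
  have h2 : (((Finset.Icc (-⌊V⌋) ⌊V⌋).erase 0).card : ℝ) ≤ (Finset.Icc (-⌊V⌋) ⌊V⌋).card := by
    exact_mod_cast Finset.card_erase_le
  refine h2.trans ?_
  rw [Int.card_Icc]
  have h3 : 0 ≤ ⌊V⌋ := Int.floor_nonneg.2 hV
  have h5 : (((⌊V⌋ + 1 - -⌊V⌋).toNat : ℕ) : ℝ) = 2 * (⌊V⌋ : ℝ) + 1 := by
    have h6 : (((⌊V⌋ + 1 - -⌊V⌋).toNat : ℕ) : ℤ) = 2 * ⌊V⌋ + 1 := by
      rw [Int.toNat_of_nonneg (by omega)]; ring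
    exact_mod_cast h6
  rw [h5]
  have := Int.floor_le V
  linarith

theorem packing {E : Type*} [NormedAddCommGroup E] [NormedSpace ℝ E] [FiniteDimensional ℝ E]
    (s : Finset E) (R δ : ℝ) (hδ : 0 < δ) (hR : 0 ≤ R) (hs : ∀ c ∈ s, ‖c‖ ≤ R)
    (h : ∀ c ∈ s, ∀ d ∈ s, c ≠ d → δ ≤ ‖c - d‖) : (s.card : ℝ) ≤ (2 * R / δ + 1) ^ finrank ℝ E := by
  borelize E
  let μ : Measure E := Measure.addHaar
  obtain ⟨e, he⟩ : ∃ e : ℝ, e = δ / 2 := ⟨_, rfl⟩
  obtain ⟨ρ, hρ⟩ : ∃ ρ : ℝ, ρ = R + δ / 2 := ⟨_, rfl⟩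
  have epos : 0 < e := by rw [he]; positivity
  have ρpos : 0 < ρ := by rw [hρ]; positivity
  set A := ⋃ c ∈ s, ball (c : E) e with hA
  have D : Set.Pairwise (s : Set E) (Function.onFun Disjoint (fun c => ball (c : E) e)) := by
    rintro c hc d hd hcd
    apply ball_disjoint_ball
    rw [dist_eq_norm, he, add_halves]
    exact h c hc d hd hcd
  have A_subset : A ⊆ ball (0 : E) ρ := by
    refine iUnion₂_subset fun x hx => ?_
    apply ball_subset_ball'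
    rw [dist_zero_right, he, hρ]
    have := hs x hx
    linarith
  have I :
    (s.card : ℝ≥0∞) * ENNReal.ofReal (e ^ finrank ℝ E) * μ (ball 0 1) ≤
      ENNReal.ofReal (ρ ^ finrank ℝ E) * μ (ball 0 1) :=
    calc
      (s.card : ℝ≥0∞) * ENNReal.ofReal (e ^ finrank ℝ E) * μ (ball 0 1) = μ A := by
        rw [hA, measure_biUnion_finset D fun c _ => measurableSet_ball]
        simp only [μ.addHaar_ball_of_pos _ epos]
        simp only [Finset.sum_const, nsmul_eq_mul, mul_assoc]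
      _ ≤ μ (ball (0 : E) ρ) := measure_mono A_subset
      _ = ENNReal.ofReal (ρ ^ finrank ℝ E) * μ (ball 0 1) := by
        simp only [μ.addHaar_ball_of_pos _ ρpos]
  have J : (s.card : ℝ≥0∞) * ENNReal.ofReal (e ^ finrank ℝ E) ≤ ENNReal.ofReal (ρ ^ finrank ℝ E) :=
    (ENNReal.mul_le_mul_iff_left (measure_ball_pos _ _ zero_lt_one).ne' measure_ball_lt_top.ne).1 I
  rw [← ENNReal.ofReal_natCast, ← ENNReal.ofReal_mul (by positivity),
    ENNReal.ofReal_le_ofReal_iff (by positivity)] at J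
  have h1 : 2 * R / δ + 1 = ρ / e := by rw [hρ, he]; field_simp
  rw [h1, div_pow, le_div_iff₀ (by positivity)]
  exact J

end Pool.Agent.H438R2
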