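import Mathlib
import Pool.Agent.H438R2.Cover
import Pool.Agent.H438R2.Exc

set_option autoImplicit false

open Set Matrix MeasureTheory

namespace Pool.Agent.H438R2

/-- a grid of points on a plane -/
theorem cluster (n r : ℕ) (L : Submodule ℝ (Fin (n + 1) → ℝ)) (p : (Fin r → Fin (n + 1)) → ℤ)
    (hp : IsPP L p) (P : Fin (n + 1) → ℝ) (hP : P ∈ L) (hP0 : P 0 = 1) (hP2 : ∀ i, |P i| ≤ ((2 : ℕ) : ℝ))
    (q : ℝ) (hq : 0 < q) (Z : ℕ) :
    ∃ C : Finset (Fin n → ℝ), C.card = Z ^ (r - 1) ∧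
      (∀ y ∈ C, ∃ P' ∈ L, P' 0 = 1 ∧ ∀ i : Fin n, P' i.succ = y i) ∧
      (∀ y ∈ C, ∀ i, |y i - P i.succ| ≤ 8 * r ^ 2 * q * Z) ∧
      (∀ y ∈ C, ∀ y' ∈ C, y ≠ y' → 4 * q ≤ dist y y') ∧
      ∀ u : ℝ, q ≤ u → ∀ G : Finset (Fin n → ℝ), G ⊆ C → (∀ y ∈ G, ∀ y' ∈ G, dist y y' ≤ 3 * u) →
        (G.card : ℝ) ≤ (3 * (u / q)) ^ (r - 1) := by
  classical
  obtain ⟨f, i0, hfi, hpf, hbd, hG⟩ := exists_graph hp hP hP0 hP2 (by omega : 1 ≤ 2)
  obtain ⟨A, hA⟩ : ∃ A : Fin r → Fin (n + 1) → ℝ,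
    A = fun i k => (p (Function.update f i k) : ℝ) / p f := ⟨_, rfl⟩
  rw [← hA] at hG
  have hr0 : 0 < r := lt_of_le_of_lt (Nat.zero_le _) i0.2
  obtain ⟨Y, hY⟩ : ∃ Y : (Fin r → ℕ) → (Fin (n + 1) → ℝ),
    Y = fun z k => P k + 4 * q * ∑ j, (z j : ℝ) * A j k := ⟨_, rfl⟩
  obtain ⟨y, hy⟩ : ∃ y : (Fin r → ℕ) → (Fin n → ℝ), y = fun z k => Y z k.succ := ⟨_, rfl⟩
  obtain ⟨Zs, hZs⟩ : ∃ Zs : Finset (Fin r → ℕ), Zs = Fintype.piFinset (fun i =>
    if i = i0 then {0} else Finset.range Z) := ⟨_, rfl⟩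
  have hz0 : ∀ z ∈ Zs, z i0 = 0 := by
    intro z hz
    rw [hZs, Fintype.mem_piFinset] at hz
    have := hz i0
    rw [if_pos rfl, Finset.mem_singleton] at this
    exact this
  have hzZ : ∀ z ∈ Zs, ∀ j, z j ≤ Z := by
    intro z hz j
    by_cases hj : j = i0
    · rw [hj, hz0 z hz]; exact Nat.zero_le _
    · rw [hZs, Fintype.mem_piFinset] at hz
      have := hz j
      rw [if_neg hj, Finset.mem_range] at this
      exact this.le
  have hYf : ∀ z j, Y z (f j) = P (f j) + 4 * q * z j := by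
    intro z j
    rw [hY]
    dsimp only
    congr 2
    simp only [hG.diag]
    simp
  have hYL : ∀ z, Y z ∈ L := by
    intro z
    have : Y z = P + (4 * q) • ∑ j, (z j : ℝ) • A j := by
      ext k
      rw [hY]
      simp [Finset.sum_apply]
    rw [this]
    exact L.add_mem hP (L.smul_mem _ (L.sum_mem (fun j _ => L.smul_mem _ (hG.row j))))
  have hY0 : ∀ z ∈ Zs, Y z 0 = 1 := by
    intro z hz
    have h1 := hYf z i0
    rw [hfi, hz0 z hz, hP0] at h1
    rw [h1]; simp
  -- the key separation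
  have key : ∀ z ∈ Zs, ∀ z' ∈ Zs, ∀ j, 4 * q * |(z j : ℝ) - z' j| ≤ dist (y z) (y z') := by
    intro z hz z' hz' j
    by_cases hj : j = i0
    · rw [hj, hz0 z hz, hz0 z' hz', sub_self, abs_zero, mul_zero]; exact dist_nonneg
    · have hfj : f j ≠ 0 := by
        intro h0
        rw [← hfi] at h0
        exact hj (hG.inj h0)
      obtain ⟨k, hk⟩ := Fin.exists_succ_eq.2 hfj
      have h1 : dist (y z k) (y z' k) ≤ dist (y z) (y z') := dist_le_pi_dist _ _ _
      refine le_trans (le_of_eq ?_) h1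
      rw [hy, Real.dist_eq]
      dsimp only
      rw [hk, hYf, hYf]
      have h2 : P (f j) + 4 * q * (z j : ℝ) - (P (f j) + 4 * q * (z' j : ℝ)) = (4 * q) * ((z j : ℝ) - z' j) := by
        ring
      rw [h2, abs_mul, abs_of_pos (show 0 < 4 * q by positivity)]
  have hinj : Set.InjOn y (Zs : Set (Fin r → ℕ)) := by
    intro z hz z' hz' hzz
    ext j
    have h1 := key z hz z' hz' j
    rw [hzz, dist_self] at h1
    have h2 : |(z j : ℝ) - z' j| ≤ 0 := by
      by_contra h3
      push Not at h3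
      have : 0 < 4 * q * |(z j : ℝ) - z' j| := by positivity
      linarith
    have h3 : (z j : ℝ) - z' j = 0 := abs_nonpos_iff.1 h2
    have h4 : (z j : ℝ) = z' j := by linarith
    exact_mod_cast h4
  refine ⟨Zs.image y, ?_, ?_, ?_, ?_, ?_⟩
  · rw [Finset.card_image_of_injOn hinj, hZs, Fintype.card_piFinset,
      ← Finset.mul_prod_erase Finset.univ _ (Finset.mem_univ i0)]
    simp only [if_true, Finset.card_singleton, one_mul]
    have h2 : ∀ i ∈ Finset.univ.erase i0, (if i = i0 then ({0} : Finset ℕ) else Finset.range Z).card = Z := by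
      intro i hi
      rw [if_neg (Finset.ne_of_mem_erase hi), Finset.card_range]
    rw [Finset.prod_congr rfl h2, Finset.prod_const, Finset.card_erase_of_mem (Finset.mem_univ _),
      Finset.card_univ, Fintype.card_fin]
  · intro a ha
    rw [Finset.mem_image] at ha
    obtain ⟨z, hz, rfl⟩ := ha
    exact ⟨Y z, hYL z, hY0 z hz, fun i => by rw [hy]⟩
  · intro a ha i
    rw [Finset.mem_image] at ha
    obtain ⟨z, hz, rfl⟩ := ha
    have h1 : y z i - P i.succ = 4 * q * ∑ j, (z j : ℝ) * A j i.succ := by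
      rw [hy, hY]; ring
    rw [h1, abs_mul, abs_of_pos (show 0 < 4 * q by positivity)]
    have h2 := sum_abs_le (fun j => (z j : ℝ)) (fun j => A j i.succ) Z (((r * 2 : ℕ)) : ℝ)
      (fun j => by
        rw [abs_of_nonneg (Nat.cast_nonneg _)]
        exact_mod_cast hzZ z hz j) (fun j => hG.bdd j _) (Nat.cast_nonneg _)
    calc 4 * q * |∑ j, (z j : ℝ) * A j i.succ| ≤ 4 * q * (r * (Z * ((r * 2 : ℕ) : ℝ))) := by gcongr
      _ = 8 * r ^ 2 * q * Z := by push_cast; ring
  · intro a ha b hb hab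
    rw [Finset.mem_image] at ha hb
    obtain ⟨z, hz, rfl⟩ := ha
    obtain ⟨z', hz', rfl⟩ := hb
    have h1 : z ≠ z' := fun h => hab (by rw [h])
    obtain ⟨j, hj⟩ : ∃ j, z j ≠ z' j := Function.ne_iff.1 h1
    have h2 := key z hz z' hz' j
    have h3 : (1 : ℝ) ≤ |(z j : ℝ) - z' j| := by
      have h4 : ((z j : ℤ) - z' j) ≠ 0 := by omega
      have h5 := Int.one_le_abs h4
      exact_mod_cast h5
    calc 4 * q = 4 * q * 1 := by ring
      _ ≤ 4 * q * |(z j : ℝ) - z' j| := by gcongr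
      _ ≤ _ := h2
  · intro u hu G hGC hGd
    have hu0 : 0 < u := lt_of_lt_of_le hq hu
    have huq : 1 ≤ u / q := (one_le_div hq).2 hu
    rcases G.eq_empty_or_nonempty with he | ⟨a, ha⟩
    · rw [he]; simp; positivity
    obtain ⟨z0, hz0s, rfl⟩ := Finset.mem_image.1 (hGC ha)
    obtain ⟨D, hD⟩ : ∃ D : Finset (Fin r → ℕ), D = Zs.filter (fun z => y z ∈ G) := ⟨_, rfl⟩
    have hcard : G.card ≤ D.card := by
      refine Finset.card_le_card_of_surjOn y ?_
      intro b hb
      obtain ⟨z, hz, hzb⟩ := Finset.mem_image.1 (hGC hb)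
      refine ⟨z, ?_, hzb⟩
      rw [hD, Finset.mem_coe, Finset.mem_filter]
      exact ⟨hz, by rw [hzb]; exact hb⟩
    obtain ⟨w, hw⟩ : ∃ w : ℕ, w = ⌊u / q⌋₊ := ⟨_, rfl⟩
    have hwle : (w : ℝ) ≤ u / q := by rw [hw]; exact Nat.floor_le (by positivity)
    have hDsub : D ⊆ Fintype.piFinset (fun i => if i = i0 then {0} else Finset.Icc (z0 i - w) (z0 i + w)) := by
      intro z hz
      rw [hD, Finset.mem_filter] at hz
      rw [Fintype.mem_piFinset]
      intro i
      by_cases hi : i = i0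
      · rw [if_pos hi, hi, hz0 z hz.1, Finset.mem_singleton]
      · rw [if_neg hi, Finset.mem_Icc]
        have h1 := (key z hz.1 z0 hz0s i).trans (hGd _ hz.2 _ ha)
        have h2 : |(z i : ℝ) - z0 i| ≤ u / q := by
          rw [le_div_iff₀ hq]
          nlinarith
        rcases le_total (z i) (z0 i) with h3 | h3
        · have h4 : ((z0 i - z i : ℕ) : ℝ) ≤ u / q := by
            rw [Nat.cast_sub h3]
            have := (abs_le.1 h2).1
            linarith
          have h5 : z0 i - z i ≤ w := by rw [hw]; exact Nat.le_floor h4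
          omega
        · have h4 : ((z i - z0 i : ℕ) : ℝ) ≤ u / q := by
            rw [Nat.cast_sub h3]
            have := (abs_le.1 h2).2
            linarith
          have h5 : z i - z0 i ≤ w := by rw [hw]; exact Nat.le_floor h4
          omega
    have h1 : (G.card : ℝ) ≤ ((Fintype.piFinset (fun i => if i = i0 then {0} else
        Finset.Icc (z0 i - w) (z0 i + w))).card : ℝ) := by
      exact_mod_cast hcard.trans (Finset.card_le_card hDsub)
    refine h1.trans ?_
    rw [Fintype.card_piFinset, ← Finset.mul_prod_erase Finset.univ _ (Finset.mem_univ i0)]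
    simp only [if_true, Finset.card_singleton, one_mul]
    push_cast
    have h2 : ∀ i ∈ Finset.univ.erase i0, (((if i = i0 then ({0} : Finset ℕ) else
        Finset.Icc (z0 i - w) (z0 i + w)).card : ℕ) : ℝ) ≤ 3 * (u / q) := by
      intro i hi
      rw [if_neg (Finset.ne_of_mem_erase hi), Nat.card_Icc]
      have h3 : z0 i + w + 1 - (z0 i - w) ≤ 2 * w + 1 := by omega
      have h4 : ((z0 i + w + 1 - (z0 i - w) : ℕ) : ℝ) ≤ 2 * w + 1 := by exact_mod_cast h3
      linarith
    refine (Finset.prod_le_prod (fun i _ => by positivity) h2).trans ?_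
    rw [Finset.prod_const, Finset.card_erase_of_mem (Finset.mem_univ _), Finset.card_univ,
      Fintype.card_fin]

/-- a maximal separated set -/
theorem exists_net (n : ℕ) (G : Set (Fin n → ℝ)) (hG : ∀ x ∈ G, ‖x‖ ≤ 1) (σ : ℝ) (hσ : 0 < σ) :
    ∃ F : Finset (Fin n → ℝ), (∀ x ∈ F, x ∈ G) ∧ (∀ x ∈ F, ∀ y ∈ F, x ≠ y → σ ≤ dist x y) ∧
      ∀ g ∈ G, ∃ y ∈ F, dist g y < σ := by
  classical
  by_contra hcon
  push Not at hcon
  have h1 : ∀ k : ℕ, ∃ F : Finset (Fin n → ℝ), (∀ x ∈ F, x ∈ G) ∧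
      (∀ x ∈ F, ∀ y ∈ F, x ≠ y → σ ≤ dist x y) ∧ F.card = k := by
    intro k
    induction k with
    | zero => exact ⟨∅, by simp, by simp, rfl⟩
    | succ k ih =>
      obtain ⟨F, hF1, hF2, hF3⟩ := ih
      obtain ⟨g, hg, hgF⟩ := hcon F hF1 hF2
      have hgn : g ∉ F := by
        intro hgm
        have := hgF g hgm
        rw [dist_self] at this
        linarith
      refine ⟨insert g F, ?_, ?_, ?_⟩
      · intro x hx
        rcases Finset.mem_insert.1 hx with rfl | hx
        · exact hg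
        · exact hF1 x hx
      · intro x hx y hy hxy
        rcases Finset.mem_insert.1 hx with rfl | hx'
        · rcases Finset.mem_insert.1 hy with rfl | hy'
          · exact absurd rfl hxy
          · exact hgF y hy'
        · rcases Finset.mem_insert.1 hy with rfl | hy'
          · rw [dist_comm]; exact hgF x hx'
          · exact hF2 x hx' y hy' hxy
      · rw [Finset.card_insert_of_notMem hgn, hF3]
  obtain ⟨k, hk⟩ := exists_nat_gt ((2 * 1 / σ + 1) ^ Module.finrank ℝ (Fin n → ℝ))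
  obtain ⟨F, hF1, hF2, hF3⟩ := h1 k
  have h2 := packing F 1 σ hσ zero_le_one (fun c hc => hG c (hF1 c hc)) (fun c hc d hd hcd => by
    rw [← dist_eq_norm]; exact hF2 c hc d hd hcd)
  rw [hF3] at h2
  linarith

end Pool.Agent.H438R2
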