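import Mathlib
import Pool.Agent.H438R2.Exc

set_option autoImplicit false

open MeasureTheory Set Metric Module
open scoped ENNReal

namespace Pool.Agent.H438R2

/-- pigeonhole: many integer points in the box -/
theorem many_points (n : ℕ) (θ : Fin n → ℝ) (Y R : ℝ) (hR : 1 ≤ R) (hRY : R ≤ Y) :
    ∃ S : Finset (Fin (n + 1) → ℤ), R ^ (n + 1) / 2 ^ n ≤ S.card ∧
      ∀ v ∈ S, |(v 0 : ℝ)| ≤ R * Y ^ n ∧ ∀ i : Fin n, |(v 0 : ℝ) * θ i - v i.succ| ≤ R / Y := by
  classical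
  have hR0 : 0 < R := by linarith
  have hY0 : 0 < Y := by linarith
  obtain ⟨M, hM⟩ : ∃ M : ℕ, M = ⌈Y / R⌉₊ := ⟨_, rfl⟩
  have hYR : 1 ≤ Y / R := (one_le_div hR0).2 hRY
  have hM1 : Y / R ≤ M := by rw [hM]; exact Nat.le_ceil _
  have hM2 : (M : ℝ) ≤ 2 * (Y / R) := by
    have := Nat.ceil_lt_add_one (show 0 ≤ Y / R by positivity)
    rw [hM]; linarith
  have hMR : (0 : ℝ) < M := by linarith
  have hM0 : 0 < M := by exact_mod_cast hMR
  obtain ⟨Q, hQ⟩ : ∃ Q : ℕ, Q = ⌊R * Y ^ n⌋₊ := ⟨_, rfl⟩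
  have hQ1 : (Q : ℝ) ≤ R * Y ^ n := by rw [hQ]; exact Nat.floor_le (by positivity)
  have hQ2 : R * Y ^ n ≤ Q + 1 := by rw [hQ]; exact (Nat.lt_floor_add_one _).le
  -- boxes
  set F : ℕ → (Fin n → Fin M) := fun q i => ⟨⌊(M : ℝ) * Int.fract (q * θ i)⌋₊, by
    rw [Nat.floor_lt (by positivity)]
    have := Int.fract_lt_one ((q : ℝ) * θ i)
    calc (M : ℝ) * Int.fract (q * θ i) < M * 1 := by gcongr
      _ = M := mul_one _⟩ with hF
  have hne : (Finset.univ : Finset (Fin n → Fin M)).Nonempty := ⟨fun _ => ⟨0, hM0⟩, Finset.mem_univ _⟩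
  obtain ⟨y, _, hy⟩ := Finset.exists_le_card_fiber_of_nsmul_le_card_of_maps_to
    (s := Finset.range (Q + 1)) (t := (Finset.univ : Finset (Fin n → Fin M))) (f := F)
    (b := ((Q + 1 : ℕ) : ℝ) / (M : ℝ) ^ n) (fun a _ => Finset.mem_univ _) hne (by
      rw [Finset.card_univ, Fintype.card_fun, Fintype.card_fin, Fintype.card_fin, nsmul_eq_mul,
        Finset.card_range]
      push_cast
      rw [mul_div_cancel₀ _ (by positivity)])
  obtain ⟨D, hD⟩ : ∃ D : Finset ℕ, D = {x ∈ Finset.range (Q + 1) | F x = y} := ⟨_, rfl⟩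
  rw [← hD] at hy
  have hcard : R ^ (n + 1) / 2 ^ n ≤ D.card := by
    refine le_trans ?_ hy
    rw [div_le_div_iff₀ (by positivity) (by positivity)]
    calc R ^ (n + 1) * (M : ℝ) ^ n ≤ R ^ (n + 1) * (2 * (Y / R)) ^ n := by gcongr
      _ = (R * Y ^ n) * 2 ^ n := by rw [mul_pow, div_pow, pow_succ]; field_simp
      _ ≤ ((Q + 1 : ℕ) : ℝ) * 2 ^ n := by gcongr; push_cast; exact hQ2
  have hDne : D.Nonempty := by
    rw [← Finset.card_pos]
    have : (0 : ℝ) < D.card := lt_of_lt_of_le (by positivity) hcard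
    exact_mod_cast this
  obtain ⟨q0, hq0⟩ := hDne
  have hmem : ∀ q ∈ D, q ≤ Q ∧ F q = y := by
    intro q hq
    rw [hD, Finset.mem_filter, Finset.mem_range] at hq
    exact ⟨by omega, hq.2⟩
  set V : ℕ → (Fin (n + 1) → ℤ) := fun q => Fin.cons ((q : ℤ) - q0) (fun i => ⌊(q : ℝ) * θ i⌋ - ⌊(q0 : ℝ) * θ i⌋) with hV
  have hV0 : ∀ q, V q 0 = (q : ℤ) - q0 := fun q => rfl
  have hVs : ∀ q i, V q (Fin.succ i) = ⌊(q : ℝ) * θ i⌋ - ⌊(q0 : ℝ) * θ i⌋ := fun q i => by simp [hV]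
  have hinj : InjOn V (D : Set ℕ) := by
    intro a _ b _ hab
    have h1 := congrFun hab 0
    rw [hV0, hV0] at h1
    omega
  refine ⟨D.image V, ?_, ?_⟩
  · rw [Finset.card_image_of_injOn hinj]; exact hcard
  · intro v hv
    rw [Finset.mem_image] at hv
    obtain ⟨q, hq, rfl⟩ := hv
    obtain ⟨hqQ, hqy⟩ := hmem q hq
    obtain ⟨hq0Q, hq0y⟩ := hmem q0 hq0
    refine ⟨?_, fun i => ?_⟩
    · rw [hV0]
      have h1 : |(q : ℤ) - q0| ≤ Q := by rw [abs_le]; omega
      have h2 : |(((q : ℤ) - q0 : ℤ) : ℝ)| ≤ Q := by exact_mod_cast h1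
      exact h2.trans hQ1
    · rw [hV0, hVs]
      push_cast
      have h1 : ((q : ℝ) - q0) * θ i - ((⌊(q : ℝ) * θ i⌋ : ℝ) - ⌊(q0 : ℝ) * θ i⌋) =
          Int.fract ((q : ℝ) * θ i) - Int.fract ((q0 : ℝ) * θ i) := by
        unfold Int.fract; ring
      rw [h1]
      have h2 : F q = F q0 := by rw [hqy, hq0y]
      have h3 := congrArg Fin.val (congrFun h2 i)
      simp only [hF] at h3
      have h4 : ⌊(M : ℝ) * Int.fract ((q : ℝ) * θ i)⌋ = ⌊(M : ℝ) * Int.fract ((q0 : ℝ) * θ i)⌋ := by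
        rw [← Int.natCast_floor_eq_floor (by positivity), ← Int.natCast_floor_eq_floor (by positivity), h3]
      have h5 := Int.abs_sub_lt_one_of_floor_eq_floor h4
      rw [← mul_sub, abs_mul, abs_of_pos hMR] at h5
      have h6 : R / Y * M ≥ 1 := by
        calc R / Y * M ≥ R / Y * (Y / R) := by gcongr
          _ = 1 := by field_simp
      have h7 : |Int.fract ((q : ℝ) * θ i) - Int.fract ((q0 : ℝ) * θ i)| ≤ 1 / M := by
        rw [le_div_iff₀ hMR, mul_comm]; exact h5.le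
      refine h7.trans ?_
      rw [div_le_iff₀ hMR]; exact h6

/-- many independent points -/
theorem dirichlet (n r : ℕ) (hr : r ≤ n + 1) (θ : Fin n → ℝ) (hθ01 : ∀ i, 0 ≤ θ i ∧ θ i ≤ 1)
    (Y R B : ℝ) (hR : 1 ≤ R) (hRY : R ≤ Y) (hB : 1 ≤ B) (hRB : (6 * B) ^ n < R)
    (hθ : θ ∉ EX n (Y ^ n / B) (1 / (Y * B))) :
    ∃ A : Matrix (Fin r) (Fin (n + 1)) ℤ, LinearIndependent ℝ (fun i => fun j => (A i j : ℝ)) ∧
      (∀ i, |(A i 0 : ℝ)| ≤ R * Y ^ n) ∧ ∀ i (j : Fin n), |(A i 0 : ℝ) * θ j - A i j.succ| ≤ R / Y := by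
  classical
  have hR0 : 0 < R := by linarith
  have hY0 : 0 < Y := by linarith
  have hB0 : 0 < B := by linarith
  obtain ⟨S, hS1, hS2⟩ := many_points n θ Y R hR hRY
  -- the cast
  obtain ⟨cst, hcst⟩ : ∃ cst : (Fin (n + 1) → ℤ) → (Fin (n + 1) → ℝ), cst = fun v j => (v j : ℝ) := ⟨_, rfl⟩
  have hcap : ∀ v j, cst v j = (v j : ℝ) := by rw [hcst]; intro v j; rfl
  obtain ⟨W, hW⟩ : ∃ W : Submodule ℝ (Fin (n + 1) → ℝ), W = Submodule.span ℝ (cst '' (S : Set (Fin (n + 1) → ℤ))) :=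
    ⟨_, rfl⟩
  -- the dimension is full
  have hdim : n + 1 ≤ finrank ℝ W := by
    by_contra hcon
    push Not at hcon
    have hcon' : finrank ℝ W ≤ n := by omega
    let T : (Fin (n + 1) → ℝ) →ₗ[ℝ] (Fin (n + 1) → ℝ) :=
      { toFun := fun x => Fin.cons (x 0 / Y ^ n) (fun i => (x 0 * θ i - x i.succ) * Y)
        map_add' := by
          intro x y; ext j; refine Fin.cases ?_ (fun i => ?_) j
          · simp [add_div]
          · simp only [Fin.cons_succ, Pi.add_apply]; ring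
        map_smul' := by
          intro c x; ext j; refine Fin.cases ?_ (fun i => ?_) j
          · simp [mul_div_assoc]
          · simp only [Fin.cons_succ, Pi.smul_apply, smul_eq_mul, RingHom.id_apply]; ring }
    have hT0 : ∀ x, T x 0 = x 0 / Y ^ n := fun x => rfl
    have hTs : ∀ x (i : Fin n), T x i.succ = (x 0 * θ i - x i.succ) * Y := fun x i => by
      show (Fin.cons (x 0 / Y ^ n) (fun i => (x 0 * θ i - x i.succ) * Y) : Fin (n + 1) → ℝ) i.succ = _
      rw [Fin.cons_succ]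
    -- separation
    have hsep : ∀ w : Fin (n + 1) → ℤ, w ≠ 0 → 1 / B ≤ ‖T (cst w)‖ := by
      intro w hw
      by_contra hlt
      push Not at hlt
      apply hθ
      refine ⟨hθ01, w, hw, ?_, fun i => ?_⟩
      · have h1 := (norm_le_pi_norm (T (cst w)) 0).trans hlt.le
        rw [hT0, Real.norm_eq_abs, abs_div, abs_of_pos (show 0 < Y ^ n by positivity), hcst,
          div_le_iff₀ (by positivity)] at h1
        calc |(w 0 : ℝ)| ≤ 1 / B * Y ^ n := h1
          _ = Y ^ n / B := by ring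
      · have h1 := (norm_le_pi_norm (T (cst w)) i.succ).trans hlt.le
        rw [hTs, Real.norm_eq_abs, abs_mul, abs_of_pos hY0, hcst, ← le_div_iff₀ hY0] at h1
        refine h1.trans (le_of_eq ?_)
        field_simp
    have hTinj : ∀ v ∈ S, ∀ w ∈ S, v ≠ w → 1 / B ≤ ‖T (cst v) - T (cst w)‖ := by
      intro v _ w _ hvw
      rw [← map_sub]
      have : cst v - cst w = cst (v - w) := by rw [hcst]; ext j; simp
      rw [this]
      exact hsep _ (sub_ne_zero.2 hvw)
    -- the image space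
    obtain ⟨E, hE⟩ : ∃ E : Submodule ℝ (Fin (n + 1) → ℝ), E = W.map T := ⟨_, rfl⟩
    have hEdim : finrank ℝ E ≤ n := by
      rw [hE]; exact (Submodule.finrank_map_le T W).trans hcon'
    have hmemE : ∀ v ∈ S, T (cst v) ∈ E := by
      intro v hv
      rw [hE]
      refine Submodule.mem_map_of_mem ?_
      rw [hW]
      exact Submodule.subset_span ⟨v, hv, rfl⟩
    let G : {v // v ∈ S} → E := fun v => ⟨T (cst v.1), hmemE v.1 v.2⟩
    have hGinj : Function.Injective G := by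
      intro v w hvw
      by_contra hne
      have h1 := hTinj v.1 v.2 w.1 w.2 (fun h => hne (Subtype.ext h))
      have h2 : T (cst v.1) = T (cst w.1) := congrArg Subtype.val hvw
      rw [h2, sub_self, norm_zero] at h1
      have : 0 < 1 / B := by positivity
      linarith
    have hpack := packing (Finset.univ.image G) R (1 / B) (by positivity) hR0.le (by
      intro c hc
      rw [Finset.mem_image] at hc
      obtain ⟨v, _, rfl⟩ := hc
      obtain ⟨h1, h2⟩ := hS2 v.1 v.2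
      show ‖T (cst v.1)‖ ≤ R
      rw [pi_norm_le_iff_of_nonneg hR0.le]
      intro j
      refine Fin.cases ?_ (fun i => ?_) j
      · rw [hT0, Real.norm_eq_abs, abs_div, abs_of_pos (show 0 < Y ^ n by positivity), hcst,
          div_le_iff₀ (by positivity)]
        exact h1
      · rw [hTs, Real.norm_eq_abs, abs_mul, abs_of_pos hY0, hcst, ← le_div_iff₀ hY0]
        exact h2 i) (by
      intro c hc d hd hcd
      rw [Finset.mem_image] at hc hd
      obtain ⟨v, _, rfl⟩ := hc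
      obtain ⟨w, _, rfl⟩ := hd
      exact hTinj v.1 v.2 w.1 w.2 (fun h => hcd (by rw [Subtype.ext h])))
    rw [Finset.card_image_of_injective _ hGinj, Finset.card_univ, Fintype.card_coe] at hpack
    have h1 : (2 * R / (1 / B) + 1) ^ finrank ℝ E ≤ (3 * (R * B)) ^ n := by
      have h2 : 2 * R / (1 / B) + 1 ≤ 3 * (R * B) := by
        have h3 : 1 ≤ R * B := by nlinarith
        have h4 : 2 * R / (1 / B) = 2 * (R * B) := by field_simp
        rw [h4]; linarith
      have h5 : 1 ≤ 2 * R / (1 / B) + 1 := by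
        have : 0 ≤ 2 * R / (1 / B) := by positivity
        linarith
      calc (2 * R / (1 / B) + 1) ^ finrank ℝ E ≤ (2 * R / (1 / B) + 1) ^ n := pow_le_pow_right₀ h5 hEdim
        _ ≤ (3 * (R * B)) ^ n := by gcongr
    have h2 : R ^ (n + 1) / 2 ^ n ≤ (3 * (R * B)) ^ n := hS1.trans (hpack.trans h1)
    rw [div_le_iff₀ (by positivity)] at h2
    have h3 : (3 * (R * B)) ^ n * 2 ^ n = R ^ n * (6 * B) ^ n := by
      rw [← mul_pow, ← mul_pow]; congr 1; ring
    rw [h3, pow_succ] at h2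
    have h4 : R ≤ (6 * B) ^ n := le_of_mul_le_mul_left h2 (by positivity)
    linarith
  obtain ⟨f, hf1, _, hf3⟩ := Submodule.exists_fun_fin_finrank_span_eq ℝ (cst '' (S : Set (Fin (n + 1) → ℤ)))
  rw [hW] at hdim
  have hrle : r ≤ finrank ℝ (Submodule.span ℝ (cst '' (S : Set (Fin (n + 1) → ℤ)))) := hr.trans hdim
  have hg : ∀ i : Fin r, ∃ v ∈ S, cst v = f (Fin.castLE hrle i) := fun i => hf1 _
  choose g hg1 hg2 using hg
  refine ⟨Matrix.of g, ?_, fun i => (hS2 (g i) (hg1 i)).1, fun i j => (hS2 (g i) (hg1 i)).2 j⟩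
  have h1 : (fun i : Fin r => fun j => ((Matrix.of g i j : ℤ) : ℝ)) = f ∘ (Fin.castLE hrle) := by
    ext i j
    have h2 := congrFun (hg2 i) j
    rw [hcap] at h2
    exact h2
  rw [h1]
  exact hf3.comp _ (Fin.castLE_injective hrle)

end Pool.Agent.H438R2
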