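import Mathlib
import Pool.Agent.H438R2.Plane

set_option autoImplicit false

open Set Matrix

namespace Pool.Agent.H438R2

variable {r N : ℕ}

theorem dvd_of_prim {p : (Fin r → Fin N) → ℤ} (hp : ∀ g : ℤ, (∀ f, g ∣ p f) → IsUnit g) (a b : ℤ)
    (h : ∀ f, a ∣ b * p f) : a ∣ b := by
  classical
  have h1 : IsUnit (Finset.univ.gcd p) := hp _ (fun f => Finset.gcd_dvd (Finset.mem_univ f))
  have h2 : a ∣ Finset.univ.gcd (fun f => b * p f) := Finset.dvd_gcd (fun f _ => h f)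
  rw [Finset.gcd_mul_left] at h2
  have h3 : a ∣ normalize b := (IsUnit.dvd_mul_right h1).1 h2
  exact (dvd_normalize_iff).1 h3

theorem IsPP.prop {L : Submodule ℝ (Fin N → ℝ)} {p p' : (Fin r → Fin N) → ℤ} (h : IsPP L p)
    (h' : IsPP L p') (f g : Fin r → Fin N) : p f * p' g = p' f * p g := by
  obtain ⟨B, _, hB, c, hc, hm⟩ := h.ex
  obtain ⟨B', _, hB', c', hc', hm'⟩ := h'.ex
  have h1 : ∀ i, (fun j => (B' i j : ℝ)) ∈ Submodule.span ℝ (Set.range fun i => (fun j => (B i j : ℝ))) := by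
    intro i
    rw [hB, ← hB']
    exact Submodule.subset_span ⟨i, rfl⟩
  simp only [mem_span_rows] at h1
  choose M hM using h1
  have h2 : ∀ f, (c' : ℝ) * p' f = Matrix.det (Matrix.of M) * (c * p f) := by
    intro f
    have h3 : (B'.map (Int.cast : ℤ → ℝ)).submatrix id f =
        (Matrix.of M) * (B.map (Int.cast : ℤ → ℝ)).submatrix id f := by
      ext i j
      have h4 := congrFun (hM i) (f j)
      simp only [submatrix_apply, map_apply, id, Matrix.mul_apply, of_apply]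
      rw [h4]
      simp [vecMul, dotProduct]
    have h5 := congrArg Matrix.det h3
    rw [Matrix.det_mul] at h5
    have h6 := mnr_cast B' f
    have h7 := mnr_cast B f
    unfold mnr at h6 h7
    rw [h6, h7] at h5
    have h8 := hm' f
    have h9 := hm f
    unfold mnr at h8 h9
    rw [h8, h9] at h5
    push_cast at h5
    exact h5
  have hcR : (c' : ℝ) ≠ 0 := by exact_mod_cast hc'
  have h3 : (c' : ℝ) * (p f * p' g) = c' * (p' f * p g) := by
    calc (c' : ℝ) * (p f * p' g) = p f * (c' * p' g) := by ring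
      _ = (Matrix.det (Matrix.of M) * (c * p f)) * p g := by rw [h2 g]; ring
      _ = c' * (p' f * p g) := by rw [← h2 f]; ring
  have h4 := mul_left_cancel₀ hcR h3
  exact_mod_cast h4

theorem IsPP.natAbs_eq {L : Submodule ℝ (Fin N → ℝ)} {p p' : (Fin r → Fin N) → ℤ} (h : IsPP L p)
    (h' : IsPP L p') (f : Fin r → Fin N) : (p f).natAbs = (p' f).natAbs := by
  obtain ⟨f0, hf0⟩ := h.exists_ne
  have hf0' : p' f0 ≠ 0 := by
    intro h0
    obtain ⟨g, hg⟩ := h'.exists_ne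
    have h1 := h.prop h' f0 g
    rw [h0, zero_mul] at h1
    exact (mul_ne_zero hf0 hg) h1
  have h1 : p f0 ∣ p' f0 := dvd_of_prim h.prim _ _ (fun g => ⟨p' g, by rw [h.prop h' f0 g]⟩)
  have h2 : p' f0 ∣ p f0 := dvd_of_prim h'.prim _ _ (fun g => ⟨p g, by rw [h.prop h' f0 g]⟩)
  have h3 : (p f0).natAbs = (p' f0).natAbs := Int.natAbs_eq_of_dvd_dvd h1 h2
  have h4 := congrArg Int.natAbs (h.prop h' f0 f)
  rw [Int.natAbs_mul, Int.natAbs_mul, h3] at h4
  exact (Nat.eq_of_mul_eq_mul_left (Int.natAbs_pos.2 hf0') h4).symm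

theorem IsPP.row_mem {L : Submodule ℝ (Fin N → ℝ)} {p : (Fin r → Fin N) → ℤ} (h : IsPP L p)
    (f : Fin r → Fin N) (hpf : p f ≠ 0) (i : Fin r) :
    (fun k => (p (Function.update f i k) : ℝ) / p f) ∈ L := by
  have hpfR : (p f : ℝ) ≠ 0 := by exact_mod_cast hpf
  obtain ⟨B, _, hB, c, hc, hm⟩ := h.ex
  have hcR : (c : ℝ) ≠ 0 := by exact_mod_cast hc
  rw [← hB, mem_span_rows]
  refine ⟨fun j => ((((B.map (Int.cast : ℤ → ℝ)).submatrix id f).adjugate i j) / (c * p f)), ?_⟩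
  ext k
  have h1 := mnr_update_eq (B.map (Int.cast : ℤ → ℝ)) f i k
  rw [mnr_cast, hm] at h1
  push_cast at h1
  have h2 : (p (Function.update f i k) : ℝ) / p f = (c * (p (Function.update f i k) : ℝ)) / (c * p f) := by
    field_simp
  show (p (Function.update f i k) : ℝ) / p f = ∑ j, ((((B.map (Int.cast : ℤ → ℝ)).submatrix id
    f).adjugate i j) / (c * p f)) * (B.map (Int.cast : ℤ → ℝ)) j k
  rw [h2, h1, Matrix.mul_apply, Finset.sum_div]
  exact Finset.sum_congr rfl (fun j _ => by ring)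

theorem IsPP.ext_le {L L' : Submodule ℝ (Fin N → ℝ)} {p : (Fin r → Fin N) → ℤ} (h : IsPP L p)
    (h' : IsPP L' p) : L ≤ L' := by
  obtain ⟨f, hf⟩ := h.exists_ne
  have hpfR : (p f : ℝ) ≠ 0 := by exact_mod_cast hf
  intro x hx
  have h1 : x = ∑ i, x (f i) • (fun k => (p (Function.update f i k) : ℝ) / p f) := by
    ext k
    have h2 := h.identity hx f k
    simp only [Finset.sum_apply, Pi.smul_apply, smul_eq_mul]
    have h3 : x k = (∑ i, x (f i) * (p (Function.update f i k) : ℝ)) / p f := by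
      rw [← h2]; field_simp
    rw [h3, Finset.sum_div]
    exact Finset.sum_congr rfl (fun i _ => by ring)
  rw [h1]
  exact Submodule.sum_mem _ (fun i _ => Submodule.smul_mem _ _ (h'.row_mem f hf i))

theorem IsPP.ext {L L' : Submodule ℝ (Fin N → ℝ)} {p : (Fin r → Fin N) → ℤ} (h : IsPP L p)
    (h' : IsPP L' p) : L = L' := le_antisymm (h.ext_le h') (h'.ext_le h)

/-- the height of a family of coordinates -/
def ht (p : (Fin r → Fin N) → ℤ) : ℕ := Finset.univ.sup (fun f => (p f).natAbs)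

theorem le_ht (p : (Fin r → Fin N) → ℤ) (f : Fin r → Fin N) : (p f).natAbs ≤ ht p :=
  Finset.le_sup (f := fun f => (p f).natAbs) (Finset.mem_univ f)

theorem ht_le_iff (p : (Fin r → Fin N) → ℤ) (H : ℕ) : ht p ≤ H ↔ ∀ f, (p f).natAbs ≤ H := by
  unfold ht
  simp

theorem IsPP.ht_eq {L : Submodule ℝ (Fin N → ℝ)} {p p' : (Fin r → Fin N) → ℤ} (h : IsPP L p)
    (h' : IsPP L p') : ht p = ht p' := by
  unfold ht
  exact Finset.sup_congr rfl (fun f _ => h.natAbs_eq h' f)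

theorem IsPP.ht_pos {L : Submodule ℝ (Fin N → ℝ)} {p : (Fin r → Fin N) → ℤ} (h : IsPP L p) :
    1 ≤ ht p := by
  obtain ⟨f, hf⟩ := h.exists_ne
  exact (Nat.one_le_iff_ne_zero.2 (Int.natAbs_ne_zero.2 hf)).trans (le_ht p f)

theorem finite_ht (H : ℕ) :
    {L : Submodule ℝ (Fin N → ℝ) | ∃ p : (Fin r → Fin N) → ℤ, IsPP L p ∧ ht p ≤ H}.Finite := by
  classical
  have hfin : {p : (Fin r → Fin N) → ℤ | ∀ f, p f ∈ Set.Icc (-(H : ℤ)) H}.Finite := by
    have := Set.Finite.pi (fun (_ : Fin r → Fin N) => (Set.finite_Icc (-(H : ℤ)) (H : ℤ)))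
    refine this.subset ?_
    intro p hp f _
    exact hp f
  have hinj : ∀ L ∈ {L : Submodule ℝ (Fin N → ℝ) | ∃ p : (Fin r → Fin N) → ℤ, IsPP L p ∧ ht p ≤ H},
      ∃ p ∈ {p : (Fin r → Fin N) → ℤ | ∀ f, p f ∈ Set.Icc (-(H : ℤ)) H}, IsPP L p := by
    rintro L ⟨p, hp, hpH⟩
    refine ⟨p, ?_, hp⟩
    intro f
    have h1 := (ht_le_iff p H).1 hpH f
    rw [Set.mem_Icc]
    omega
  choose! F hF1 hF2 using hinj
  refine Set.Finite.of_injOn (f := F) (fun L hL => hF1 L hL) ?_ hfin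
  intro L hL L' hL' hLL
  have h1 := hF2 L hL
  have h2 := hF2 L' hL'
  rw [hLL] at h1
  exact h1.ext h2

end Pool.Agent.H438R2
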