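import Mathlib
import Pool.Agent.H438R2.Dir
import Pool.Agent.H438R2.Cover
import Pool.Agent.H438R2.Height

set_option autoImplicit false

open MeasureTheory Set Metric Module
open scoped ENNReal

namespace Pool.Agent.H438R2

theorem det_bound (r : ℕ) (a b : Fin r → ℝ) (e : Matrix (Fin r) (Fin r) ℝ) (A E : ℝ) (hE : 0 ≤ E)
    (hEA : E ≤ A) (hr : 1 ≤ r) (ha : ∀ i, |a i| ≤ A) (hb : ∀ i, |b i| ≤ 1) (he : ∀ i j, |e i j| ≤ E) :
    |(Matrix.of (fun i j => a i * b j + e i j)).det| ≤ (r + 1).factorial * (A * E ^ (r - 1)) := by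
  classical
  have hA : 0 ≤ A := hE.trans hEA
  obtain ⟨M, hM⟩ : ∃ M : Matrix (Unit ⊕ Fin r) (Unit ⊕ Fin r) ℝ,
    M = Matrix.fromBlocks 1 (Matrix.of (fun _ j => -b j)) (Matrix.of (fun i _ => a i)) e := ⟨_, rfl⟩
  have h1 : M.det = (Matrix.of (fun i j => a i * b j + e i j)).det := by
    rw [hM, Matrix.det_fromBlocks_one₁₁]
    congr 1
    ext i j
    simp [Matrix.mul_apply]
    ring
  rw [← h1, Matrix.det_apply]
  have h2 : ∀ σ : Equiv.Perm (Unit ⊕ Fin r), |Equiv.Perm.sign σ • ∏ i, M (σ i) i| ≤ A * E ^ (r - 1) := by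
    intro σ
    have h3 : |Equiv.Perm.sign σ • ∏ i, M (σ i) i| = |∏ i, M (σ i) i| := by
      rcases Int.units_eq_one_or (Equiv.Perm.sign σ) with h | h
      · rw [h, one_smul]
      · rw [h]; simp
    rw [h3, Fintype.prod_sum_type, abs_mul, Finset.abs_prod]
    simp only [Finset.univ_unique, Finset.prod_singleton, Finset.abs_prod]
    by_cases hσ : σ (Sum.inl default) = Sum.inl default
    · have h4 : |M (σ (Sum.inl default)) (Sum.inl default)| = 1 := by
        rw [hσ, hM, Matrix.fromBlocks_apply₁₁]; simp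
      rw [h4, one_mul]
      have h5 : ∀ j ∈ (Finset.univ : Finset (Fin r)), |M (σ (Sum.inr j)) (Sum.inr j)| ≤ E := by
        intro j _
        rcases h6 : σ (Sum.inr j) with u | i
        · exfalso
          have h7 : σ (Sum.inr j) = σ (Sum.inl default) := by rw [h6, hσ]
          exact absurd (σ.injective h7) (by simp)
        · rw [hM, Matrix.fromBlocks_apply₂₂]; exact he i j
      refine (Finset.prod_le_prod (fun _ _ => abs_nonneg _) h5).trans ?_
      rw [Finset.prod_const, Finset.card_univ, Fintype.card_fin]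
      obtain ⟨k, rfl⟩ : ∃ k, r = k + 1 := ⟨r - 1, by omega⟩
      rw [pow_succ, Nat.add_sub_cancel, mul_comm]
      gcongr
    · -- the column hitting the first row
      obtain ⟨x, hx⟩ : ∃ x, σ x = Sum.inl default := ⟨σ.symm (Sum.inl default), by simp⟩
      rcases x with u | j0
      · exact absurd hx hσ
      have h4 : |M (σ (Sum.inl default)) (Sum.inl default)| ≤ A := by
        rcases h6 : σ (Sum.inl default) with u | i
        · exact absurd h6 hσ
        · rw [hM, Matrix.fromBlocks_apply₂₁]; exact ha i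
      refine mul_le_mul h4 ?_ (Finset.prod_nonneg (fun _ _ => abs_nonneg _)) hA
      rw [← Finset.mul_prod_erase Finset.univ _ (Finset.mem_univ j0)]
      have h5 : |M (σ (Sum.inr j0)) (Sum.inr j0)| ≤ 1 := by
        rw [hx, hM, Matrix.fromBlocks_apply₁₂, Matrix.of_apply, abs_neg]; exact hb j0
      have h6 : ∀ j ∈ Finset.univ.erase j0, |M (σ (Sum.inr j)) (Sum.inr j)| ≤ E := by
        intro j hj
        rcases h6 : σ (Sum.inr j) with u | i
        · exfalso
          have h7 : σ (Sum.inr j) = σ (Sum.inr j0) := by rw [h6, hx]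
          exact (Finset.ne_of_mem_erase hj) (Sum.inr_injective (σ.injective h7))
        · rw [hM, Matrix.fromBlocks_apply₂₂]; exact he i j
      calc _ ≤ 1 * E ^ (Finset.univ.erase j0).card := by
            refine mul_le_mul h5 ?_ (Finset.prod_nonneg (fun _ _ => abs_nonneg _)) zero_le_one
            refine (Finset.prod_le_prod (fun _ _ => abs_nonneg _) h6).trans ?_
            rw [Finset.prod_const]
        _ = E ^ (r - 1) := by
            rw [one_mul, Finset.card_erase_of_mem (Finset.mem_univ _), Finset.card_univ, Fintype.card_fin]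
  refine (Finset.abs_sum_le_sum_abs _ _).trans ?_
  refine (Finset.sum_le_card_nsmul _ _ _ (fun σ _ => h2 σ)).trans ?_
  rw [Finset.card_univ, Fintype.card_perm, Fintype.card_sum, Fintype.card_unit, Fintype.card_fin,
    nsmul_eq_mul, add_comm 1 r]

/-- primitive coordinates of a plane spanned by integer rows -/
theorem exists_pp {r N : ℕ} (A : Matrix (Fin r) (Fin N) ℤ)
    (hA : LinearIndependent ℝ (fun i => fun j => (A i j : ℝ))) :
    ∃ p : (Fin r → Fin N) → ℤ, IsPP (Submodule.span ℝ (Set.range fun i => (fun j => (A i j : ℝ)))) p ∧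
      ∀ f, (p f).natAbs ≤ (mnr A f).natAbs := by
  classical
  obtain ⟨g, hg⟩ : ∃ g : ℤ, g = Finset.univ.gcd (fun f => mnr A f) := ⟨_, rfl⟩
  have hdvd : ∀ f, g ∣ mnr A f := fun f => hg ▸ Finset.gcd_dvd (Finset.mem_univ f)
  choose p hp using hdvd
  obtain ⟨f0, hf0⟩ : ∃ f, mnr A f ≠ 0 := by
    obtain ⟨f, hf⟩ := exists_mnr_ne_zero (A.map (Int.cast : ℤ → ℝ)) hA
    refine ⟨f, fun h => hf ?_⟩
    rw [mnr_cast, h, Int.cast_zero]
  have hg0 : g ≠ 0 := by
    intro h0
    rw [hp f0, h0, zero_mul] at hf0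
    exact hf0 rfl
  refine ⟨p, ⟨?_, A, hA, rfl, g, hg0, hp⟩, ?_⟩
  · intro h hh
    have h1 : g * h ∣ g := by
      conv_rhs => rw [hg]
      refine Finset.dvd_gcd (fun f _ => ?_)
      rw [hp f]
      exact mul_dvd_mul_left g (hh f)
    have h2 : g * h ∣ g * 1 := by rwa [mul_one]
    exact isUnit_of_dvd_one ((mul_dvd_mul_iff_left hg0).1 h2)
  · intro f
    rw [hp f, Int.natAbs_mul]
    exact Nat.le_mul_of_pos_left _ (Int.natAbs_pos.2 hg0)

theorem good_plane (n r : ℕ) (hr1 : 1 ≤ r) (hr : r ≤ n + 1) (θ : Fin n → ℝ) (hθ01 : ∀ i, 0 ≤ θ i ∧ θ i ≤ 1)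
    (Y R B B' : ℝ) (hR : 1 ≤ R) (hRY : R ≤ Y) (hB : 1 ≤ B) (hB' : 1 ≤ B') (hRB : (6 * B) ^ n < R)
    (hθ : θ ∉ EX n (Y ^ n / B) (1 / (Y * B))) (hθ' : θ ∉ EX n (Y ^ n / B') (R / Y)) :
    ∃ (L : Submodule ℝ (Fin (n + 1) → ℝ)) (p : (Fin r → Fin (n + 1)) → ℤ), IsPP L p ∧
      (ht p : ℝ) ≤ (r + 1).factorial * ((R * Y ^ n) * (R / Y) ^ (r - 1)) ∧
      ∃ P ∈ L, P 0 = 1 ∧ ∀ i : Fin n, |P i.succ - θ i| ≤ (R / Y) / (Y ^ n / B') := by
  classical
  have hR0 : 0 < R := by linarith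
  have hY0 : 0 < Y := by linarith
  have hB0 : 0 < B' := by linarith
  obtain ⟨A, hA1, hA2, hA3⟩ := dirichlet n r hr θ hθ01 Y R B hR hRY hB hRB hθ
  obtain ⟨p, hp, hpA⟩ := exists_pp A hA1
  refine ⟨_, p, hp, ?_, ?_⟩
  · -- the height
    have h1 : ∀ f, (((p f).natAbs : ℕ) : ℝ) ≤ (r + 1).factorial * ((R * Y ^ n) * (R / Y) ^ (r - 1)) := by
      intro f
      have h2 : (((p f).natAbs : ℕ) : ℝ) ≤ |((mnr A f : ℤ) : ℝ)| := by
        have h3 : (((p f).natAbs : ℕ) : ℝ) ≤ (((mnr A f).natAbs : ℕ) : ℝ) := by exact_mod_cast hpA f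
        rwa [Nat.cast_natAbs (mnr A f), Int.cast_abs] at h3
      refine h2.trans ?_
      rw [← mnr_cast]
      have h4 : mnr (A.map (Int.cast : ℤ → ℝ)) f = (Matrix.of (fun (i j : Fin r) => (A i 0 : ℝ) * hat θ (f j) +
          ((A i (f j) : ℝ) - (A i 0 : ℝ) * hat θ (f j)))).det := by
        unfold mnr
        congr 1
        ext i j
        simp
      rw [h4]
      refine det_bound r (fun i => (A i 0 : ℝ)) (fun j => hat θ (f j))
        (fun i j => (A i (f j) : ℝ) - (A i 0 : ℝ) * hat θ (f j)) (R * Y ^ n) (R / Y) (by positivity)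
        ?_ hr1 hA2 ?_ ?_
      · have h5 : 1 ≤ Y ^ n := one_le_pow₀ (by linarith)
        have h6 : R / Y ≤ R := by
          rw [div_le_iff₀ hY0]; nlinarith
        nlinarith
      · intro j
        refine Fin.cases ?_ (fun i => ?_) (f j)
        · rw [hat_zero, abs_one]
        · rw [hat_succ, abs_of_nonneg (hθ01 i).1]; exact (hθ01 i).2
      · intro i j
        show |(A i (f j) : ℝ) - (A i 0 : ℝ) * hat θ (f j)| ≤ R / Y
        refine Fin.cases ?_ (fun k => ?_) (f j)
        · rw [hat_zero, mul_one, sub_self, abs_zero]; positivity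
        · rw [hat_succ, abs_sub_comm]; exact hA3 i k
    obtain ⟨f, _, hf⟩ := Finset.exists_mem_eq_sup (Finset.univ : Finset (Fin r → Fin (n + 1)))
      ⟨fun _ => 0, Finset.mem_univ _⟩ (fun f => (p f).natAbs)
    have h2 : ht p = (p f).natAbs := hf
    rw [h2]; exact h1 f
  · -- the point
    obtain ⟨i0⟩ : Nonempty (Fin r) := ⟨⟨0, hr1⟩⟩
    have hv : A i0 ≠ 0 := by
      intro h0
      apply hA1.ne_zero i0
      ext j
      rw [h0]; simp
    have hv0 : Y ^ n / B' < |(A i0 0 : ℝ)| := by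
      by_contra hcon
      push Not at hcon
      exact hθ' ⟨hθ01, A i0, hv, hcon, hA3 i0⟩
    have hv0' : (0 : ℝ) < |(A i0 0 : ℝ)| := lt_trans (by positivity) hv0
    have hv0n : (A i0 0 : ℝ) ≠ 0 := abs_pos.1 hv0'
    refine ⟨((A i0 0 : ℝ))⁻¹ • (fun j => (A i0 j : ℝ)), ?_, ?_, ?_⟩
    · exact Submodule.smul_mem _ _ (Submodule.subset_span ⟨i0, rfl⟩)
    · simp only [Pi.smul_apply, smul_eq_mul]; exact inv_mul_cancel₀ hv0n
    · intro i
      simp only [Pi.smul_apply, smul_eq_mul]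
      have h1 : ((A i0 0 : ℝ))⁻¹ * (A i0 i.succ : ℝ) - θ i = -((A i0 0 : ℝ) * θ i - A i0 i.succ) / (A i0 0 : ℝ) := by
        field_simp; ring
      rw [h1, abs_div, abs_neg]
      exact div_le_div₀ (by positivity) (hA3 i0 i) (by positivity) hv0.le

end Pool.Agent.H438R2
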