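import Mathlib
import Pool.Agent.H438R2.Plane

set_option autoImplicit false

open Set Matrix

namespace Pool.Agent.H438R2

variable {r N : ℕ}

/-- the integer vectors `z` with `z A` integral -/
def latA (A : Fin r → Fin N → ℝ) : AddSubgroup (Fin r → ℤ) where
  carrier := {z | ∀ k, ∃ n : ℤ, ∑ i, (z i : ℝ) * A i k = n}
  zero_mem' := fun k => ⟨0, by simp⟩
  add_mem' := by
    intro a b ha hb k
    obtain ⟨n, hn⟩ := ha k
    obtain ⟨m, hm⟩ := hb k
    refine ⟨n + m, ?_⟩
    push_cast
    rw [← hn, ← hm, ← Finset.sum_add_distrib]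
    refine Finset.sum_congr rfl (fun i _ => ?_)
    simp; ring
  neg_mem' := by
    intro a ha k
    obtain ⟨n, hn⟩ := ha k
    refine ⟨-n, ?_⟩
    push_cast
    rw [← hn, ← Finset.sum_neg_distrib]
    refine Finset.sum_congr rfl (fun i _ => ?_)
    simp

theorem mem_latA (A : Fin r → Fin N → ℝ) (z : Fin r → ℤ) :
    z ∈ latA A ↔ ∀ k, ∃ n : ℤ, ∑ i, (z i : ℝ) * A i k = n := Iff.rfl

theorem index_le {K : ℕ} {L : Submodule ℝ (Fin N → ℝ)} {p : (Fin r → Fin N) → ℤ} (h : IsPP L p)
    (f : Fin r → Fin N) (hf : p f ≠ 0)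
    (hG : Graph r N K f (fun i k => (p (Function.update f i k) : ℝ) / p f) L) :
    (latA (fun i k => (p (Function.update f i k) : ℝ) / p f)).index = (p f).natAbs := by
  classical
  obtain ⟨A, hA⟩ : ∃ A : Fin r → Fin N → ℝ, A = fun i k => (p (Function.update f i k) : ℝ) / p f :=
    ⟨_, rfl⟩
  rw [← hA] at hG ⊢
  have hpR : (p f : ℝ) ≠ 0 := by exact_mod_cast hf
  obtain ⟨Γ, hΓ⟩ : ∃ Γ, Γ = latA A := ⟨_, rfl⟩
  rw [← hΓ]
  -- multiples
  have hmul : ∀ z : Fin r → ℤ, (p f) • z ∈ Γ := by
    intro z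
    rw [hΓ, mem_latA]
    intro k
    refine ⟨∑ i, z i * p (Function.update f i k), ?_⟩
    push_cast
    refine Finset.sum_congr rfl (fun i _ => ?_)
    rw [hA]
    simp only [Pi.smul_apply, smul_eq_mul]
    push_cast
    field_simp
  -- rank
  have hrank : Module.finrank ℤ Γ.toIntSubmodule = r := by
    have h1 : Module.finrank ℤ Γ.toIntSubmodule ≤ Module.finrank ℤ (Fin r → ℤ) :=
      Submodule.finrank_le _
    have h2 : Module.finrank ℤ (Fin r → ℤ) ≤ Module.finrank ℤ Γ.toIntSubmodule := by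
      refine LinearMap.finrank_le_finrank_of_injective
        (f := LinearMap.codRestrict Γ.toIntSubmodule ((p f) • LinearMap.id) (fun z => hmul z)) ?_
      intro x y hxy
      have h3 : (p f) • x = (p f) • y := congrArg Subtype.val hxy
      ext i
      have h4 := congrFun h3 i
      simp only [Pi.smul_apply, smul_eq_mul] at h4
      exact mul_left_cancel₀ hf h4
    rw [Module.finrank_fin_fun] at h1 h2
    omega
  obtain ⟨bN⟩ : Nonempty (Module.Basis (Fin r) ℤ Γ) :=
    ⟨(Module.finBasis ℤ Γ.toIntSubmodule).reindex (finCongr hrank)⟩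
  obtain ⟨G, hGdef⟩ : ∃ G : Matrix (Fin r) (Fin r) ℤ, G = fun a i => ((bN a : Γ) : Fin r → ℤ) i := ⟨_, rfl⟩
  have hidx : Γ.index = G.det.natAbs := by
    rw [AddSubgroup.index_eq_natAbs_det (Pi.basisFun ℤ (Fin r)) Γ bN, Pi.basisFun_det, hGdef]
    rfl
  -- the integer matrix
  have hBex : ∀ a k, ∃ n : ℤ, ∑ i, (G a i : ℝ) * A i k = n := by
    intro a k
    have h1 : ((bN a : Γ) : Fin r → ℤ) ∈ latA A := by rw [← hΓ]; exact (bN a).2
    rw [mem_latA] at h1
    rw [hGdef]
    exact h1 k
  choose B hB using hBex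
  have hBmat : (Matrix.of B).map (Int.cast : ℤ → ℝ) = G.map (Int.cast : ℤ → ℝ) * Matrix.of A := by
    ext a k
    rw [Matrix.mul_apply]
    simp only [Matrix.map_apply, Matrix.of_apply]
    exact (hB a k).symm
  -- minors of `A`
  have hmA : ∀ g, mnr (Matrix.of A) g = (p g : ℝ) / p f := by
    intro g
    obtain ⟨B0, _, hB0, c, hc, hm⟩ := h.ex
    have hcR : (c : ℝ) ≠ 0 := by exact_mod_cast hc
    have h1 : (B0.map (Int.cast : ℤ → ℝ)) =
        (B0.map (Int.cast : ℤ → ℝ)).submatrix id f * Matrix.of A := by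
      ext a k
      rw [Matrix.mul_apply]
      simp only [Matrix.map_apply, Matrix.submatrix_apply, id, Matrix.of_apply]
      refine hG.mem (fun j => (B0 a j : ℝ)) ?_ k
      rw [← hB0]
      exact Submodule.subset_span ⟨a, rfl⟩
    have h2 : mnr (B0.map (Int.cast : ℤ → ℝ)) g =
        mnr (B0.map (Int.cast : ℤ → ℝ)) f * mnr (Matrix.of A) g := by
      conv_lhs => rw [h1]
      unfold mnr
      rw [← Matrix.det_mul]
      congr 1
    rw [mnr_cast, mnr_cast, hm, hm] at h2
    push_cast at h2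
    rw [eq_div_iff hpR]
    have h3 : (c : ℝ) * (p g : ℝ) = c * (mnr (Matrix.of A) g * p f) := by rw [h2]; ring
    exact (mul_left_cancel₀ hcR h3).symm
  have hmB : ∀ g, mnr (Matrix.of B) g * p f = G.det * p g := by
    intro g
    have h1 : mnr ((Matrix.of B).map (Int.cast : ℤ → ℝ)) g =
        (G.map (Int.cast : ℤ → ℝ)).det * mnr (Matrix.of A) g := by
      rw [hBmat]
      unfold mnr
      rw [← Matrix.det_mul]
      congr 1
    have h2 : (G.map (Int.cast : ℤ → ℝ)).det = ((G.det : ℤ) : ℝ) :=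
      (RingHom.map_det (Int.castRingHom ℝ) G).symm
    rw [mnr_cast, hmA, h2] at h1
    have h3 : ((mnr (Matrix.of B) g : ℤ) : ℝ) * (p f : ℝ) = (G.det : ℝ) * (p g : ℝ) := by
      rw [h1]; field_simp
    exact_mod_cast h3
  -- `p f ∣ det G`
  have hdvd : p f ∣ G.det := by
    obtain ⟨D, u, v, hD, hu, hv, huv⟩ : ∃ D u v : ℤ, D ≠ 0 ∧ p f = D * u ∧ G.det = D * v ∧ IsCoprime u v := by
      have hg : 0 < Int.gcd (p f) G.det := by
        rw [Nat.pos_iff_ne_zero]
        intro h0
        exact hf (Int.gcd_eq_zero_iff.1 h0).1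
      obtain ⟨u, v, huv, hu, hv⟩ := Int.exists_gcd_one hg
      refine ⟨(Int.gcd (p f) G.det : ℤ), u, v, by exact_mod_cast hg.ne', ?_, ?_,
        Int.isCoprime_iff_gcd_eq_one.2 huv⟩
      · rw [mul_comm]; exact hu
      · rw [mul_comm]; exact hv
    have h1 : ∀ g, u ∣ p g := by
      intro g
      have h2 := hmB g
      rw [hu, hv] at h2
      have h3 : D * (mnr (Matrix.of B) g * u) = D * (v * p g) := by linear_combination h2
      have h4 : mnr (Matrix.of B) g * u = v * p g := mul_left_cancel₀ hD h3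
      exact huv.dvd_of_dvd_mul_left (Dvd.intro_left _ h4)
    have h5 := h.prim u h1
    rw [hu, hv]
    exact mul_dvd_mul_left D (h5.dvd)
  obtain ⟨t, ht⟩ := hdvd
  have hmB' : ∀ g, mnr (Matrix.of B) g = t * p g := by
    intro g
    have h1 := hmB g
    rw [ht] at h1
    have h2 : p f * mnr (Matrix.of B) g = p f * (t * p g) := by linear_combination h1
    exact mul_left_cancel₀ hf h2
  -- `t` is a unit
  have htu : IsUnit t := by
    by_contra hnu
    have ht1 : t.natAbs ≠ 1 := fun h1 => hnu (Int.isUnit_iff_natAbs_eq.2 h1)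
    obtain ⟨l, hl, hlt⟩ := Nat.exists_prime_and_dvd ht1
    have : Fact l.Prime := ⟨hl⟩
    have hlt' : (l : ℤ) ∣ t := Int.natCast_dvd.2 hlt
    have hl0 : (l : ℤ) ≠ 0 := by exact_mod_cast hl.ne_zero
    have hlR : (l : ℝ) ≠ 0 := by exact_mod_cast hl.ne_zero
    -- dependent rows mod l
    have hdep : ¬ LinearIndependent (ZMod l) ((Matrix.of B).map (Int.cast : ℤ → ZMod l)).row := by
      intro hli
      obtain ⟨g, hg⟩ := exists_mnr_ne_zero _ hli
      apply hg
      have h1 : mnr ((Matrix.of B).map (Int.cast : ℤ → ZMod l)) g = ((mnr (Matrix.of B) g : ℤ) : ZMod l) := by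
        unfold mnr
        have : ((Matrix.of B).map (Int.cast : ℤ → ZMod l)).submatrix id g =
          ((Matrix.of B).submatrix id g).map (Int.castRingHom (ZMod l)) := rfl
        rw [this]
        exact (RingHom.map_det (Int.castRingHom (ZMod l)) _).symm
      rw [h1, hmB', ZMod.intCast_zmod_eq_zero_iff_dvd]
      exact Dvd.dvd.mul_right hlt' _
    rw [Fintype.not_linearIndependent_iff] at hdep
    obtain ⟨ub, hub, a0, ha0⟩ := hdep
    obtain ⟨u, hu⟩ : ∃ u : Fin r → ℤ, ∀ a, ((u a : ℤ) : ZMod l) = ub a :=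
      ⟨fun a => ((ub a).val : ℤ), fun a => by simp⟩
    have hcol : ∀ k, (l : ℤ) ∣ ∑ a, u a * B a k := by
      intro k
      have h1 := congrFun hub k
      simp only [Finset.sum_apply, Pi.smul_apply, Matrix.row, Matrix.map_apply, Matrix.of_apply,
        smul_eq_mul, Pi.zero_apply] at h1
      rw [← ZMod.intCast_zmod_eq_zero_iff_dvd]
      push_cast
      rw [← h1]
      exact Finset.sum_congr rfl (fun a _ => by rw [hu])
    choose w hw using hcol
    have hw' : ∀ k, ∑ i, (∑ a, (u a : ℝ) * (G a i : ℝ)) * A i k = l * w k := by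
      intro k
      have h1 : ((∑ a, u a * B a k : ℤ) : ℝ) = (l : ℝ) * w k := by rw [hw]; push_cast; ring
      rw [← h1]
      push_cast
      simp only [Finset.sum_mul]
      rw [Finset.sum_comm]
      refine Finset.sum_congr rfl (fun a _ => ?_)
      rw [← hB a k, Finset.mul_sum]
      exact Finset.sum_congr rfl (fun i _ => by ring)
    -- `z`
    have hz : ∀ i, ∑ a, (u a : ℝ) * (G a i : ℝ) = l * (w (f i) : ℝ) := by
      intro i
      have h1 := hw' (f i)
      have h2 : ∑ j, (∑ a, (u a : ℝ) * (G a j : ℝ)) * A j (f i) = ∑ a, (u a : ℝ) * (G a i : ℝ) := by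
        rw [Finset.sum_eq_single i]
        · rw [hG.diag]; simp
        · intro j _ hj
          rw [hG.diag]; simp [hj]
        · intro hi; exact absurd (Finset.mem_univ i) hi
      rw [← h2, h1]
    have hzmem : (fun i => w (f i)) ∈ Γ := by
      rw [hΓ, mem_latA]
      intro k
      refine ⟨w k, ?_⟩
      have h1 := hw' k
      simp only [hz] at h1
      have h2 : (l : ℝ) * ∑ i, (w (f i) : ℝ) * A i k = l * w k := by
        rw [← h1, Finset.mul_sum]
        exact Finset.sum_congr rfl (fun i _ => by ring)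
      exact mul_left_cancel₀ hlR h2
    -- expand in the basis
    have hexp : ∑ a, (l * bN.repr ⟨_, hzmem⟩ a - u a) • bN a = 0 := by
      simp only [sub_smul, mul_smul, Finset.sum_sub_distrib]
      rw [← Finset.smul_sum, bN.sum_repr, sub_eq_zero]
      apply Subtype.ext
      ext i
      have h1 : ((∑ a, u a • bN a : Γ) : Fin r → ℤ) i = ∑ a, u a * G a i := by
        rw [hGdef]
        simp [Finset.sum_apply]
      rw [h1]
      have h2 := hz i
      have h3 : (∑ a, u a * G a i : ℤ) = l * w (f i) := by exact_mod_cast h2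
      rw [h3]
      simp
    have hli := Fintype.linearIndependent_iff.1 bN.linearIndependent _ hexp a0
    apply ha0
    rw [← hu]
    rw [ZMod.intCast_zmod_eq_zero_iff_dvd]
    exact ⟨bN.repr ⟨_, hzmem⟩ a0, by linarith⟩
  rw [hidx, ht, Int.natAbs_mul, Int.isUnit_iff_natAbs_eq.1 htu, mul_one]

end Pool.Agent.H438R2
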