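import Mathlib
import Pool.Agent.H438R2.Idx

set_option autoImplicit false

open Set Matrix

namespace Pool.Agent.H438R2

/-- matrices with identity columns `f` and all columns in the bounded dual lattice -/
def AM (r N K : ℕ) (f : Fin r → Fin N) (Γ : AddSubgroup (Fin r → ℤ)) : Set (Fin r → Fin N → ℝ) :=
  {A | (∀ i j, A i (f j) = if i = j then 1 else 0) ∧ ∀ k, (fun i => A i k) ∈ VG r K Γ}

theorem am_count (r N K : ℕ) (f : Fin r → Fin N) (hf : Function.Injective f)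
    (Γ : AddSubgroup (Fin r → ℤ)) (hΓ : Γ.index ≠ 0) :
    (AM r N K f Γ).Finite ∧ (AM r N K f Γ).ncard ≤ ((2 * K + 1) ^ r * Γ.index) ^ (N - r) := by
  classical
  obtain ⟨hV1, hV2⟩ := vg_count r K Γ hΓ
  obtain ⟨T, hT⟩ : ∃ T : Finset ({k : Fin N // k ∉ Set.range f} → (Fin r → ℝ)),
    T = Fintype.piFinset (fun _ => hV1.toFinset) := ⟨_, rfl⟩
  set F : (Fin r → Fin N → ℝ) → ({k : Fin N // k ∉ Set.range f} → (Fin r → ℝ)) :=
    fun A k i => A i k with hF
  have hmaps : ∀ A ∈ AM r N K f Γ, F A ∈ (T : Set ({k : Fin N // k ∉ Set.range f} → (Fin r → ℝ))) := by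
    intro A hA
    rw [hT]
    simp only [Finset.mem_coe, Fintype.mem_piFinset, Set.Finite.mem_toFinset]
    intro k
    exact hA.2 k
  have hinj : InjOn F (AM r N K f Γ) := by
    intro A hA B hB hAB
    ext i k
    by_cases hk : k ∈ Set.range f
    · obtain ⟨j, rfl⟩ := hk
      rw [hA.1, hB.1]
    · exact congrFun (congrFun hAB ⟨k, hk⟩) i
  refine ⟨Set.Finite.of_injOn hmaps hinj T.finite_toSet, ?_⟩
  refine (ncard_le_ncard_of_injOn F hmaps hinj T.finite_toSet).trans ?_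
  rw [ncard_coe_finset, hT, Fintype.card_piFinset, Finset.prod_const, Finset.card_univ]
  have h1 : Fintype.card {k : Fin N // k ∉ Set.range f} = N - r := by
    rw [Fintype.card_subtype_compl, Fintype.card_fin]
    congr 1
    have h9 := Set.card_range_of_injective hf
    rw [Fintype.card_fin] at h9
    exact h9
  rw [h1, ← ncard_eq_toFinset_card _ hV1]
  exact Nat.pow_le_pow_left hV2 _

/-- the planes of height at most `H` which meet the bounded region -/
def planes (n r K H : ℕ) : Set (Submodule ℝ (Fin (n + 1) → ℝ)) :=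
  {L | ∃ p : (Fin r → Fin (n + 1)) → ℤ, IsPP L p ∧ (∀ f, |p f| ≤ H) ∧
    ∃ x ∈ L, x 0 = 1 ∧ ∀ i, |x i| ≤ K}

theorem planes_count (n r K : ℕ) (hr : r ≤ n + 1) (hK : 1 ≤ K) :
    ∃ C : ℕ, ∀ H : ℕ, (planes n r K H).Finite ∧ (planes n r K H).ncard ≤ C * H ^ (n + 1) := by
  classical
  refine ⟨(Fintype.card (Fin r → Fin (n + 1))) * ((2 * (r * K) + 1) ^ r) ^ (n + 1 - r), fun H => ?_⟩
  obtain ⟨hS1, hS2⟩ := sg_count r H
  obtain ⟨I, hI⟩ : ∃ I : Finset (Fin r → Fin (n + 1)),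
    I = Finset.univ.filter (fun f => Function.Injective f) := ⟨_, rfl⟩
  set U : (Fin r → Fin (n + 1)) → AddSubgroup (Fin r → ℤ) → Set (Submodule ℝ (Fin (n + 1) → ℝ)) :=
    fun f Γ => (fun A => Submodule.span ℝ (Set.range A)) '' (AM r (n + 1) (r * K) f Γ) with hU
  have hcov : planes n r K H ⊆ ⋃ f ∈ I, ⋃ Γ ∈ hS1.toFinset, U f Γ := by
    rintro L ⟨p, hp, hpH, x, hx, hx0, hxK⟩
    obtain ⟨f, i0, hfi, hpf, hbd, hG⟩ := exists_graph hp hx hx0 hxK hK
    have hidx := index_le hp f hpf hG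
    simp only [mem_iUnion]
    refine ⟨f, ?_, latA (fun i k => (p (Function.update f i k) : ℝ) / p f), ?_, _, ⟨hG.diag, ?_⟩,
      hG.eq_span.symm⟩
    · rw [hI]; simp only [Finset.mem_filter, Finset.mem_univ, true_and]; exact hG.inj
    · rw [Set.Finite.mem_toFinset]
      refine ⟨?_, ?_⟩
      · rw [hidx]; exact Int.natAbs_ne_zero.2 hpf
      · rw [hidx]
        have h9 : (((p f).natAbs : ℕ) : ℤ) ≤ H := by rw [Int.natCast_natAbs]; exact hpH f
        exact_mod_cast h9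
    · intro k
      refine ⟨fun i => hG.bdd i k, ?_⟩
      intro z hz
      exact hz k
  have hfib : ∀ f ∈ I, ∀ Γ ∈ hS1.toFinset, (U f Γ).Finite ∧
      (U f Γ).ncard ≤ ((2 * (r * K) + 1) ^ r * H) ^ (n + 1 - r) := by
    intro f hf Γ hΓ
    rw [Set.Finite.mem_toFinset] at hΓ
    rw [hI] at hf
    simp only [Finset.mem_filter, Finset.mem_univ, true_and] at hf
    obtain ⟨h1, h2⟩ := am_count r (n + 1) (r * K) f hf Γ hΓ.1
    refine ⟨h1.image _, (ncard_image_le h1).trans (h2.trans ?_)⟩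
    exact Nat.pow_le_pow_left (Nat.mul_le_mul_left _ hΓ.2) _
  have hfin : (⋃ f ∈ I, ⋃ Γ ∈ hS1.toFinset, U f Γ).Finite := by
    refine (Finset.finite_toSet I).biUnion (fun f hf => ?_)
    exact (Finset.finite_toSet _).biUnion (fun Γ hΓ => (hfib f hf Γ hΓ).1)
  refine ⟨hfin.subset hcov, (ncard_le_ncard hcov hfin).trans ?_⟩
  refine (Finset.set_ncard_biUnion_le I _).trans ?_
  have h3 : ∀ f ∈ I, (⋃ Γ ∈ hS1.toFinset, U f Γ).ncard ≤
      H ^ r * ((2 * (r * K) + 1) ^ r * H) ^ (n + 1 - r) := by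
    intro f hf
    refine (Finset.set_ncard_biUnion_le _ _).trans ?_
    refine (Finset.sum_le_card_nsmul _ _ _ (fun Γ hΓ => (hfib f hf Γ hΓ).2)).trans ?_
    rw [smul_eq_mul]
    refine Nat.mul_le_mul_right _ ?_
    rw [← ncard_eq_toFinset_card _ hS1]
    exact hS2
  refine (Finset.sum_le_card_nsmul _ _ _ h3).trans ?_
  rw [smul_eq_mul]
  have h4 : I.card ≤ Fintype.card (Fin r → Fin (n + 1)) := Finset.card_le_univ _
  refine (Nat.mul_le_mul_right _ h4).trans (le_of_eq ?_)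
  rw [mul_pow]
  have h5 : H ^ (n + 1) = H ^ r * H ^ (n + 1 - r) := by rw [← pow_add]; congr 1; omega
  rw [h5]; ring

end Pool.Agent.H438R2
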