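import Mathlib
import Pool.Agent.H438R2.Cover
import Pool.Agent.H438R2.Sum
import Pool.Agent.H438R2.Height
import Pool.Agent.H438R2.Count

set_option autoImplicit false

open Set Matrix MeasureTheory
open scoped ENNReal

namespace Pool.Agent.H438R2

theorem nr_vol (n r K : ℕ) (hK : 1 ≤ K) (hr1 : 1 ≤ r) (hr : r ≤ n) : ∃ C : ℝ, 1 ≤ C ∧
    ∀ (L : Submodule ℝ (Fin (n + 1) → ℝ)) (p : (Fin r → Fin (n + 1)) → ℤ), IsPP L p →
    ∀ ρ : ℝ, 0 < ρ → ρ ≤ 1 → volume (Nr n K L ρ) ≤ ENNReal.ofReal (C * ρ ^ (n + 1 - r)) := by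
  obtain ⟨C, hC1, hC⟩ := nr_cover n r K hK
  refine ⟨C * (2 * C) ^ n, ?_, ?_⟩
  · have : (1 : ℝ) ≤ (2 * C) ^ n := one_le_pow₀ (by linarith)
    nlinarith
  intro L p hp ρ hρ hρ1
  obtain ⟨S, hS1, hS2⟩ := hC L p hp ρ hρ hρ1
  refine (measure_mono hS2).trans ((measure_biUnion_finset_le S _).trans ?_)
  have h1 : ∀ c ∈ S, volume (Metric.closedBall c (C * ρ)) ≤ ENNReal.ofReal ((2 * (C * ρ)) ^ n) := by
    intro c _
    rw [Real.volume_pi_closedBall c (by positivity), Fintype.card_fin]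
  refine (Finset.sum_le_card_nsmul _ _ _ h1).trans ?_
  rw [nsmul_eq_mul, ← ENNReal.ofReal_natCast, ← ENNReal.ofReal_mul (by positivity)]
  refine ENNReal.ofReal_le_ofReal ?_
  calc (S.card : ℝ) * (2 * (C * ρ)) ^ n ≤ (C * ρ⁻¹ ^ (r - 1)) * (2 * (C * ρ)) ^ n := by gcongr
    _ = C * (2 * C) ^ n * (ρ⁻¹ ^ (r - 1) * ρ ^ n) := by ring
    _ = C * (2 * C) ^ n * ρ ^ (n + 1 - r) := by
        congr 1
        have h2 : n = (r - 1) + (n + 1 - r) := by omega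
        conv_lhs => rw [h2]
        rw [pow_add, ← mul_assoc, ← mul_pow, inv_mul_cancel₀ hρ.ne', one_pow, one_mul]

/-- the limsup set of neighbourhoods of rational planes -/
def WS (n r : ℕ) (C0 v : ℝ) : Set (Fin n → ℝ) :=
  {θ | {L : Submodule ℝ (Fin (n + 1) → ℝ) | ∃ p : (Fin r → Fin (n + 1)) → ℤ, IsPP L p ∧
    ∃ P ∈ L, P 0 = 1 ∧ ∀ i : Fin n, |P i.succ - θ i| ≤ C0 * (ht p : ℝ) ^ (-v)}.Infinite}

theorem upper (n r K : ℕ) (hK : 1 ≤ K) (hr1 : 1 ≤ r) (hr : r ≤ n) (C0 v s : ℝ) (hC0 : 0 < C0)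
    (hv : 0 < v) (hs : ((r - 1 : ℕ) : ℝ) + (n + 1) / v < s) :
    dimH {θ : Fin n → ℝ | (∀ i, |θ i| ≤ (K : ℝ)) ∧ θ ∈ WS n r C0 v} ≤ ENNReal.ofReal s := by
  classical
  obtain ⟨C, hC1, hC⟩ := nr_cover n r K hK
  obtain ⟨C', hC'⟩ := planes_count n r (K + 1) (by omega) (by omega)
  have hs0 : 0 < s := lt_of_le_of_lt (by positivity) hs
  -- the index type
  let ι := {L : Submodule ℝ (Fin (n + 1) → ℝ) // ∃ p : (Fin r → Fin (n + 1)) → ℤ, IsPP L p ∧
    C0 * (ht p : ℝ) ^ (-v) ≤ 1 ∧ ∃ x ∈ L, x 0 = 1 ∧ ∀ i, |x i| ≤ ((K + 1 : ℕ) : ℝ)}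
  have hι : ∀ L : ι, ∃ p : (Fin r → Fin (n + 1)) → ℤ, IsPP L.1 p ∧
    C0 * (ht p : ℝ) ^ (-v) ≤ 1 ∧ ∃ x ∈ L.1, x 0 = 1 ∧ ∀ i, |x i| ≤ ((K + 1 : ℕ) : ℝ) := fun L => L.2
  choose p hp1 hp2 hp3 using hι
  have hρ0 : ∀ L : ι, 0 < C0 * (ht (p L) : ℝ) ^ (-v) := by
    intro L
    have := (hp1 L).ht_pos
    have h1 : (0 : ℝ) < ht (p L) := by exact_mod_cast this
    positivity
  have hex : ∀ L : ι, ∃ S : Finset (Fin n → ℝ), (S.card : ℝ) ≤
      C * ((C0 * (ht (p L) : ℝ) ^ (-v))⁻¹) ^ (r - 1) ∧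
      Nr n K L.1 (C0 * (ht (p L) : ℝ) ^ (-v)) ⊆ ⋃ c ∈ S, Metric.closedBall c (C * (C0 * (ht (p L) : ℝ) ^ (-v))) :=
    fun L => hC L.1 (p L) (hp1 L) _ (hρ0 L) (hp2 L)
  choose S hS1 hS2 using hex
  have hcount : ∀ H : ℕ, {L : ι | ht (p L) ≤ H}.Finite ∧ {L : ι | ht (p L) ≤ H}.ncard ≤ C' * H ^ (n + 1) := by
    intro H
    obtain ⟨h1, h2⟩ := hC' H
    have hmap : ∀ L ∈ {L : ι | ht (p L) ≤ H}, (L.1 : Submodule ℝ (Fin (n + 1) → ℝ)) ∈ planes n r (K + 1) H := by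
      intro L hL
      refine ⟨p L, hp1 L, ?_, hp3 L⟩
      intro f
      have h3 := le_ht (p L) f
      have h4 : ht (p L) ≤ H := hL
      have h5 : (p L f).natAbs ≤ H := h3.trans h4
      rw [Int.abs_eq_natAbs]
      exact_mod_cast h5
    have hinj : InjOn (fun L : ι => (L.1 : Submodule ℝ (Fin (n + 1) → ℝ))) {L : ι | ht (p L) ≤ H} :=
      fun a _ b _ hab => Subtype.ext hab
    exact ⟨Set.Finite.of_injOn hmap hinj h1, (ncard_le_ncard_of_injOn _ hmap hinj h1).trans h2⟩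
  have hcι : Countable ι := by
    have h1 : (Set.univ : Set ι) = ⋃ H : ℕ, {L : ι | ht (p L) ≤ H} := by
      ext L; simp only [mem_univ, mem_iUnion, true_iff]; exact ⟨ht (p L), le_refl (ht (p L))⟩
    have h2 : (Set.univ : Set ι).Countable := by
      rw [h1]; exact countable_iUnion (fun H => (hcount H).1.countable)
    exact Set.countable_univ_iff.1 h2
  -- exponent
  obtain ⟨e, he⟩ : ∃ e : ℝ, e = s - ((r - 1 : ℕ) : ℝ) := ⟨_, rfl⟩
  have he0 : (n + 1) / v < e := by rw [he]; linarith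
  have heσ : ((n + 1 : ℕ) : ℝ) < v * e := by
    rw [div_lt_iff₀ hv] at he0
    push_cast; linarith
  have he1 : 0 < e := lt_of_le_of_lt (by positivity) he0
  -- sum
  have hsum : ∑' i : (Σ L : ι, {c // c ∈ S L}), (Metric.ediam (Metric.closedBall i.2.1
      (C * (C0 * (ht (p i.1) : ℝ) ^ (-v))))) ^ s ≠ ∞ := by
    rw [ENNReal.tsum_sigma (fun (L : ι) (c : {c // c ∈ S L}) => (Metric.ediam (Metric.closedBall c.1
      (C * (C0 * (ht (p L) : ℝ) ^ (-v))))) ^ s)]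
    have hb : ∀ L : ι, ∑' c : {c // c ∈ S L}, (Metric.ediam (Metric.closedBall c.1
        (C * (C0 * (ht (p L) : ℝ) ^ (-v))))) ^ s ≤
        ENNReal.ofReal (C * (2 * C) ^ s * C0 ^ e) * ENNReal.ofReal ((ht (p L) : ℝ) ^ (-(v * e))) := by
      intro L
      obtain ⟨ρ, hρ⟩ : ∃ ρ : ℝ, ρ = C0 * (ht (p L) : ℝ) ^ (-v) := ⟨_, rfl⟩
      have hρp : 0 < ρ := hρ ▸ hρ0 L
      have hS1' := hS1 L
      rw [← hρ] at hS1'
      rw [← hρ]
      rw [tsum_fintype]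
      have h1 : ∀ c ∈ (Finset.univ : Finset {c // c ∈ S L}), (Metric.ediam (Metric.closedBall c.1 (C * ρ))) ^ s ≤
          ENNReal.ofReal ((2 * (C * ρ)) ^ s) := by
        intro c _
        rw [← ENNReal.ofReal_rpow_of_nonneg (by positivity) hs0.le]
        refine ENNReal.rpow_le_rpow ?_ hs0.le
        have h2 : Metric.closedBall c.1 (C * ρ) = Metric.closedEBall c.1 (ENNReal.ofReal (C * ρ)) := by
          rw [Metric.closedEBall_ofReal (by positivity : (0:ℝ) ≤ C * ρ)]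
        rw [h2]
        refine Metric.ediam_closedEBall_le.trans ?_
        rw [ENNReal.ofReal_mul (by norm_num : (0 : ℝ) ≤ 2), ENNReal.ofReal_ofNat]
      refine (Finset.sum_le_card_nsmul _ _ _ h1).trans ?_
      rw [nsmul_eq_mul, Finset.card_univ, Fintype.card_coe, ← ENNReal.ofReal_natCast,
        ← ENNReal.ofReal_mul (by positivity), ← ENNReal.ofReal_mul (by positivity)]
      refine ENNReal.ofReal_le_ofReal ?_
      have hht : (0 : ℝ) < ht (p L) := by exact_mod_cast (hp1 L).ht_pos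
      calc ((S L).card : ℝ) * (2 * (C * ρ)) ^ s ≤ (C * ρ⁻¹ ^ (r - 1)) * (2 * (C * ρ)) ^ s := by
            gcongr
        _ = (C * (2 * C) ^ s) * ρ ^ e := by
            have h3 : (2 * (C * ρ)) ^ s = (2 * C) ^ s * ρ ^ s := by
              rw [← mul_assoc, Real.mul_rpow (by positivity) hρp.le]
            have h4 : ρ ^ s = ρ ^ e * ρ ^ (r - 1) := by
              rw [← Real.rpow_natCast ρ (r - 1), ← Real.rpow_add hρp, he]; congr 1; ring
            rw [h3, h4, inv_pow]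
            have h5 : ρ ^ (r - 1) ≠ 0 := by positivity
            field_simp
        _ = C * (2 * C) ^ s * C0 ^ e * (ht (p L) : ℝ) ^ (-(v * e)) := by
            rw [hρ, Real.mul_rpow hC0.le (by positivity), ← Real.rpow_mul hht.le]
            have h6 : -v * e = -(v * e) := by ring
            rw [h6]; ring
    refine ne_top_of_le_ne_top ?_ (ENNReal.tsum_le_tsum hb)
    rw [ENNReal.tsum_mul_left]
    refine ENNReal.mul_ne_top ENNReal.ofReal_ne_top ?_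
    exact tsum_ht_ne_top (fun L : ι => ht (p L)) (n + 1) C' (fun L => (hp1 L).ht_pos) hcount _ heσ
  refine le_trans (dimH_mono ?_) (hc (fun i : (Σ L : ι, {c // c ∈ S L}) => Metric.closedBall i.2.1
      (C * (C0 * (ht (p i.1) : ℝ) ^ (-v)))) s hs0 hsum)
  rintro θ ⟨hθK, hθ⟩
  rw [mem_ofPred_eq]
  intro hfin
  apply hθ
  -- the heights for which the radius is large are finitely many
  obtain ⟨H0, hH0⟩ : ∃ H0 : ℕ, ∀ h : ℕ, H0 ≤ h → C0 * (h : ℝ) ^ (-v) ≤ 1 := by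
    have h1 : Filter.Tendsto (fun h : ℕ => C0 * (h : ℝ) ^ (-v)) Filter.atTop (nhds (C0 * 0)) :=
      ((tendsto_rpow_neg_atTop hv).comp tendsto_natCast_atTop_atTop).const_mul C0
    rw [mul_zero] at h1
    have h2 := h1.eventually (gt_mem_nhds one_pos)
    obtain ⟨H0, hH0⟩ := Filter.eventually_atTop.1 h2
    exact ⟨H0, fun h hh => (hH0 h hh).le⟩
  refine ((finite_ht (r := r) (N := n + 1) H0).union (hfin.image (fun i => (i.1.1 : Submodule ℝ (Fin (n + 1) → ℝ))))).subset ?_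
  rintro L ⟨q, hq, P, hP, hP0, hPθ⟩
  by_cases hh : ht q ≤ H0
  · exact Or.inl ⟨q, hq, hh⟩
  · refine Or.inr ?_
    have h1 := hH0 (ht q) (by omega)
    have hx : ∀ i, |P i| ≤ ((K + 1 : ℕ) : ℝ) := by
      intro i
      refine Fin.cases ?_ (fun i => ?_) i
      · rw [hP0]; push_cast; rw [abs_one]
        have : (0 : ℝ) ≤ K := Nat.cast_nonneg K
        linarith
      · have h2 := hPθ i
        have h3 := hθK i
        have h4 : |P i.succ| ≤ |P i.succ - θ i| + |θ i| := by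
          calc |P i.succ| = |(P i.succ - θ i) + θ i| := by rw [sub_add_cancel]
            _ ≤ _ := abs_add_le _ _
        push_cast; linarith
    let LL : ι := ⟨L, q, hq, h1, P, hP, hP0, hx⟩
    have h2 : ht (p LL) = ht q := (hp1 LL).ht_eq hq
    have h3 : θ ∈ Nr n K L (C0 * (ht (p LL) : ℝ) ^ (-v)) := ⟨hθK, P, hP, hP0, by rw [h2]; exact hPθ⟩
    have h4 := hS2 LL h3
    simp only [mem_iUnion] at h4
    obtain ⟨c, hc, hcθ⟩ := h4
    exact ⟨⟨LL, ⟨c, hc⟩⟩, hcθ, rfl⟩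

end Pool.Agent.H438R2
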