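import Mathlib
import Pool.Agent.H438R2.PlaneEx
import Pool.Agent.H438R2.Upper

set_option autoImplicit false

open MeasureTheory Set Metric Module
open scoped ENNReal

namespace Pool.Agent.H438R2

/-- the points near a plane of suitable height -/
def Gd (n r : ℕ) (ε Y : ℝ) : Set (Fin n → ℝ) :=
  {θ | ∃ (L : Submodule ℝ (Fin (n + 1) → ℝ)) (p : (Fin r → Fin (n + 1)) → ℤ), IsPP L p ∧
    Y ^ (((n : ℝ) + 1 - r) - ε) ≤ ht p ∧ (ht p : ℝ) ≤ Y ^ (((n : ℝ) + 1 - r) + ε) ∧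
    ∃ P ∈ L, P 0 = 1 ∧ ∀ i : Fin n, |P i.succ - θ i| ≤ Y ^ (-((n : ℝ) + 1) + ε)}

/-- the unit cube -/
def cube (n : ℕ) : Set (Fin n → ℝ) := {θ | ∀ i, 0 ≤ θ i ∧ θ i ≤ 1}

theorem low_vol (n r : ℕ) (hr1 : 1 ≤ r) (hr : r ≤ n) : ∃ C : ℝ, 0 < C ∧ ∀ H ρ : ℝ, 0 ≤ H → 0 < ρ → ρ ≤ 1 →
    volume {θ ∈ cube n | ∃ (L : Submodule ℝ (Fin (n + 1) → ℝ)) (p : (Fin r → Fin (n + 1)) → ℤ), IsPP L p ∧
      (ht p : ℝ) ≤ H ∧ ∃ P ∈ L, P 0 = 1 ∧ ∀ i : Fin n, |P i.succ - θ i| ≤ ρ} ≤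
      ENNReal.ofReal (C * (H ^ (n + 1) * ρ ^ (n + 1 - r))) := by
  classical
  obtain ⟨C1, hC1, h1⟩ := nr_vol n r 1 le_rfl hr1 hr
  obtain ⟨C2, h2⟩ := planes_count n r 2 (by omega) (by omega)
  refine ⟨(C2 + 1) * C1, by positivity, fun H ρ hH hρ hρ1 => ?_⟩
  obtain ⟨hfin, hcard⟩ := h2 ⌊H⌋₊
  have hsub : {θ ∈ cube n | ∃ (L : Submodule ℝ (Fin (n + 1) → ℝ)) (p : (Fin r → Fin (n + 1)) → ℤ), IsPP L p ∧
      (ht p : ℝ) ≤ H ∧ ∃ P ∈ L, P 0 = 1 ∧ ∀ i : Fin n, |P i.succ - θ i| ≤ ρ} ⊆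
      ⋃ L ∈ hfin.toFinset, Nr n 1 L ρ := by
    rintro θ ⟨hθ, L, p, hp, hpH, P, hP, hP0, hPθ⟩
    simp only [mem_iUnion, Set.Finite.mem_toFinset]
    refine ⟨L, ⟨p, hp, ?_, P, hP, hP0, ?_⟩, ⟨?_, P, hP, hP0, hPθ⟩⟩
    · intro f
      have h3 : (p f).natAbs ≤ ⌊H⌋₊ := (le_ht p f).trans (Nat.le_floor hpH)
      rw [Int.abs_eq_natAbs]
      exact_mod_cast h3
    · intro i
      refine Fin.cases ?_ (fun i => ?_) i
      · rw [hP0]; norm_num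
      · have h3 := abs_le.1 (hPθ i)
        have h4 := hθ i
        rw [abs_le]; push_cast
        constructor <;> linarith
    · intro i
      rw [abs_of_nonneg (hθ i).1]; push_cast; exact (hθ i).2
  refine (measure_mono hsub).trans ((measure_biUnion_finset_le _ _).trans ?_)
  have h3 : ∀ L ∈ hfin.toFinset, volume (Nr n 1 L ρ) ≤ ENNReal.ofReal (C1 * ρ ^ (n + 1 - r)) := by
    intro L hL
    rw [Set.Finite.mem_toFinset] at hL
    obtain ⟨p, hp, _⟩ := hL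
    exact h1 L p hp ρ hρ hρ1
  refine (Finset.sum_le_card_nsmul _ _ _ h3).trans ?_
  rw [nsmul_eq_mul, ← ENNReal.ofReal_natCast, ← ENNReal.ofReal_mul (by positivity)]
  refine ENNReal.ofReal_le_ofReal ?_
  rw [← ncard_eq_toFinset_card _ hfin]
  have h4 : ((planes n r 2 ⌊H⌋₊).ncard : ℝ) ≤ (C2 + 1) * H ^ (n + 1) := by
    have h5 : ((planes n r 2 ⌊H⌋₊).ncard : ℝ) ≤ C2 * (⌊H⌋₊ : ℝ) ^ (n + 1) := by exact_mod_cast hcard
    have h6 : (⌊H⌋₊ : ℝ) ≤ H := Nat.floor_le hH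
    calc _ ≤ (C2 : ℝ) * (⌊H⌋₊ : ℝ) ^ (n + 1) := h5
      _ ≤ (C2 + 1) * H ^ (n + 1) := by gcongr; linarith
  calc _ ≤ ((C2 + 1) * H ^ (n + 1)) * (C1 * ρ ^ (n + 1 - r)) := by gcongr
    _ = _ := by ring

theorem good_measure (n r : ℕ) (hr1 : 1 ≤ r) (hr : r ≤ n) (ε : ℝ) (hε : 0 < ε) (hε1 : ε ≤ 1)
    (e : ℝ) (he : 0 < e) :
    ∀ᶠ Y : ℝ in Filter.atTop, volume (cube n \ Gd n r ε Y) ≤ ENNReal.ofReal e := by
  classical
  obtain ⟨C, hC0, hC⟩ := low_vol n r hr1 hr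
  obtain ⟨η, hη⟩ : ∃ η : ℝ, η = ε / (2 * ((n + 1) * (n + 2))) := ⟨_, rfl⟩
  have hη0 : 0 < η := by rw [hη]; positivity
  have hηε : η * ((n + 1) * (n + 2)) = ε / 2 := by rw [hη]; field_simp
  have hn1 : (1 : ℝ) ≤ n := by exact_mod_cast hr1.trans hr
  have hrn : (r : ℝ) ≤ n := by exact_mod_cast hr
  have hr1' : (1 : ℝ) ≤ r := by exact_mod_cast hr1
  have hlim : Filter.Tendsto (fun Y : ℝ => 6 * 10 ^ n * Y ^ (-η) + C * Y ^ (-ε)) Filter.atTop (nhds (6 * 10 ^ n * 0 + C * 0)) :=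
    ((tendsto_rpow_neg_atTop hη0).const_mul _).add ((tendsto_rpow_neg_atTop hε).const_mul _)
  rw [mul_zero, mul_zero, add_zero] at hlim
  have hev1 := hlim.eventually (gt_mem_nhds he)
  have hev2 : ∀ᶠ Y : ℝ in Filter.atTop, (6 : ℝ) ^ n < Y ^ η :=
    (tendsto_rpow_atTop hη0).eventually_gt_atTop _
  have hev3 : ∀ᶠ Y : ℝ in Filter.atTop, (((r + 1).factorial : ℕ) : ℝ) < Y ^ (ε / 2) :=
    (tendsto_rpow_atTop (by positivity : 0 < ε / 2)).eventually_gt_atTop _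
  filter_upwards [hev1, hev2, hev3, Filter.eventually_gt_atTop (1 : ℝ)] with Y h1 h2 h3 hY1
  have hY0 : 0 < Y := by linarith
  -- parameters
  obtain ⟨B, hB⟩ : ∃ B : ℝ, B = Y ^ η := ⟨_, rfl⟩
  obtain ⟨R, hR⟩ : ∃ R : ℝ, R = Y ^ ((n + 1) * η) := ⟨_, rfl⟩
  obtain ⟨B', hB'⟩ : ∃ B' : ℝ, B' = Y ^ ((n + 1) * (n + 1) * η) := ⟨_, rfl⟩
  have hB1 : 1 ≤ B := by rw [hB]; exact Real.one_le_rpow hY1.le hη0.le
  have hR1 : 1 ≤ R := by rw [hR]; exact Real.one_le_rpow hY1.le (by positivity)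
  have hB'1 : 1 ≤ B' := by rw [hB']; exact Real.one_le_rpow hY1.le (by positivity)
  have hB0 : 0 < B := by linarith
  have hR0 : 0 < R := by linarith
  have hB'0 : 0 < B' := by linarith
  have hnη : (n + 1) * η ≤ 1 / 2 := by nlinarith
  have hnη2 : (n + 1) * (n + 1) * η ≤ 1 / 2 := by nlinarith
  have hRY : R < Y := by
    rw [hR]
    calc Y ^ ((n + 1) * η) < Y ^ (1 : ℝ) := Real.rpow_lt_rpow_of_exponent_lt hY1 (by linarith)
      _ = Y := Real.rpow_one Y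
  have hRB : (6 * B) ^ n < R := by
    rw [mul_pow]
    have h4 : B ^ n * Y ^ η = R := by
      rw [hB, hR, ← Real.rpow_natCast, ← Real.rpow_mul hY0.le, ← Real.rpow_add hY0]
      congr 1; ring
    rw [← h4, mul_comm]
    gcongr
  have hYn : Y ^ n = Y ^ (n : ℝ) := (Real.rpow_natCast Y n).symm
  have hYn1 : 1 ≤ Y ^ n := one_le_pow₀ hY1.le
  have hYn0 : 0 < Y ^ n := by positivity
  have hB'Y : 1 ≤ Y ^ n / B' := by
    rw [one_le_div hB'0, hYn, hB']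
    exact Real.rpow_le_rpow_of_exponent_le hY1.le (by linarith)
  -- inclusion
  have hsub : cube n \ Gd n r ε Y ⊆ (EX n (Y ^ n / B) (1 / (Y * B)) ∪ EX n (Y ^ n / B') (R / Y)) ∪
      {θ ∈ cube n | ∃ (L : Submodule ℝ (Fin (n + 1) → ℝ)) (p : (Fin r → Fin (n + 1)) → ℤ), IsPP L p ∧
      (ht p : ℝ) ≤ Y ^ (((n : ℝ) + 1 - r) - ε) ∧
      ∃ P ∈ L, P 0 = 1 ∧ ∀ i : Fin n, |P i.succ - θ i| ≤ Y ^ (-((n : ℝ) + 1) + ε)} := by
    rintro θ ⟨hθc, hθG⟩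
    by_cases hE1 : θ ∈ EX n (Y ^ n / B) (1 / (Y * B))
    · exact Or.inl (Or.inl hE1)
    by_cases hE2 : θ ∈ EX n (Y ^ n / B') (R / Y)
    · exact Or.inl (Or.inr hE2)
    right
    refine ⟨hθc, ?_⟩
    obtain ⟨L, p, hp, hpH, P, hP, hP0, hPθ⟩ := good_plane n r hr1 (by omega) θ hθc Y R B B' hR1 hRY.le hB1
      hB'1 hRB hE1 hE2
    have hρ : (R / Y) / (Y ^ n / B') ≤ Y ^ (-((n : ℝ) + 1) + ε) := by
      have h5 : (R / Y) / (Y ^ n / B') = Y ^ ((n + 1) * η + (n + 1) * (n + 1) * η - ((n : ℝ) + 1)) := by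
        rw [Real.rpow_sub hY0, Real.rpow_add hY0, ← hR, ← hB', Real.rpow_add hY0, Real.rpow_one, ← hYn]
        field_simp
      rw [h5]
      apply Real.rpow_le_rpow_of_exponent_le hY1.le
      nlinarith
    have hH : (ht p : ℝ) ≤ Y ^ (((n : ℝ) + 1 - r) + ε) := by
      refine hpH.trans ?_
      have h5 : (R * Y ^ n) * (R / Y) ^ (r - 1) = R ^ r * Y ^ (((n : ℝ) + 1 - r)) := by
        obtain ⟨k, rfl⟩ : ∃ k, r = k + 1 := ⟨r - 1, by omega⟩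
        have h6 : Y ^ (((n : ℝ) + 1 - ((k + 1 : ℕ) : ℝ))) = Y ^ n / Y ^ k := by
          rw [hYn, ← Real.rpow_natCast Y k, ← Real.rpow_sub hY0]
          congr 1; push_cast; ring
        rw [h6, Nat.add_sub_cancel, div_pow, pow_succ]
        field_simp
      have h6 : R ^ r ≤ Y ^ (ε / 2) := by
        rw [hR, ← Real.rpow_natCast, ← Real.rpow_mul hY0.le]
        apply Real.rpow_le_rpow_of_exponent_le hY1.le
        nlinarith
      rw [h5]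
      calc (((r + 1).factorial : ℕ) : ℝ) * (R ^ r * Y ^ (((n : ℝ) + 1 - r)))
          ≤ Y ^ (ε / 2) * (Y ^ (ε / 2) * Y ^ (((n : ℝ) + 1 - r))) := by gcongr
        _ = Y ^ (((n : ℝ) + 1 - r) + ε) := by
            rw [← Real.rpow_add hY0, ← Real.rpow_add hY0]; congr 1; ring
    refine ⟨L, p, hp, ?_, P, hP, hP0, fun i => (hPθ i).trans hρ⟩
    by_contra hlow
    push Not at hlow
    exact hθG ⟨L, p, hp, hlow.le, hH, P, hP, hP0, fun i => (hPθ i).trans hρ⟩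
  refine (measure_mono hsub).trans ((measure_union_le _ _).trans ?_)
  have hv1 : volume (EX n (Y ^ n / B) (1 / (Y * B))) ≤ ENNReal.ofReal (3 * 10 ^ n * Y ^ (-η)) := by
    refine (ex_vol n _ _ (by positivity) (by positivity) ?_).trans (ENNReal.ofReal_le_ofReal ?_)
    · rw [div_lt_one (by positivity)]; nlinarith
    · have h5 : 2 * (Y ^ n / B) + 1 ≤ 3 * Y ^ n := by
        have : Y ^ n / B ≤ Y ^ n := div_le_self hYn0.le hB1
        linarith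
      have h6 : (10 * (1 / (Y * B))) ^ n ≤ 10 ^ n * ((Y ^ n)⁻¹ * B⁻¹) := by
        rw [mul_pow, one_div, inv_pow, mul_pow, mul_inv]
        gcongr
        calc B = B ^ 1 := (pow_one B).symm
          _ ≤ B ^ n := pow_le_pow_right₀ hB1 (by omega)
      calc (2 * (Y ^ n / B) + 1) * (10 * (1 / (Y * B))) ^ n
          ≤ (3 * Y ^ n) * (10 ^ n * ((Y ^ n)⁻¹ * B⁻¹)) := by gcongr
        _ = 3 * 10 ^ n * B⁻¹ := by field_simp
        _ = 3 * 10 ^ n * Y ^ (-η) := by rw [hB, Real.rpow_neg hY0.le]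
  have hv2 : volume (EX n (Y ^ n / B') (R / Y)) ≤ ENNReal.ofReal (3 * 10 ^ n * Y ^ (-η)) := by
    refine (ex_vol n _ _ (by positivity) (by positivity) ?_).trans (ENNReal.ofReal_le_ofReal ?_)
    · rw [div_lt_one (by positivity)]; exact hRY
    · have h5 : 2 * (Y ^ n / B') + 1 ≤ 3 * (Y ^ n / B') := by linarith
      calc (2 * (Y ^ n / B') + 1) * (10 * (R / Y)) ^ n
          ≤ (3 * (Y ^ n / B')) * (10 * (R / Y)) ^ n := by gcongr
        _ = 3 * 10 ^ n * (R ^ n / B') := by rw [mul_pow, div_pow]; field_simp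
        _ ≤ 3 * 10 ^ n * Y ^ (-η) := by
            gcongr
            rw [hR, hB', ← Real.rpow_natCast, ← Real.rpow_mul hY0.le, ← Real.rpow_sub hY0]
            apply Real.rpow_le_rpow_of_exponent_le hY1.le
            nlinarith
  have hv3 : volume {θ ∈ cube n | ∃ (L : Submodule ℝ (Fin (n + 1) → ℝ)) (p : (Fin r → Fin (n + 1)) → ℤ), IsPP L p ∧
      (ht p : ℝ) ≤ Y ^ (((n : ℝ) + 1 - r) - ε) ∧
      ∃ P ∈ L, P 0 = 1 ∧ ∀ i : Fin n, |P i.succ - θ i| ≤ Y ^ (-((n : ℝ) + 1) + ε)} ≤ ENNReal.ofReal (C * Y ^ (-ε)) := by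
    refine (hC _ _ (by positivity) (by positivity) ?_).trans (ENNReal.ofReal_le_ofReal ?_)
    · exact Real.rpow_le_one_of_one_le_of_nonpos hY1.le (by linarith)
    · gcongr
      rw [← Real.rpow_natCast, ← Real.rpow_mul hY0.le, ← Real.rpow_natCast, ← Real.rpow_mul hY0.le,
        ← Real.rpow_add hY0]
      apply Real.rpow_le_rpow_of_exponent_le hY1.le
      have h5 : ((n + 1 - r : ℕ) : ℝ) = (n : ℝ) + 1 - r := by
        rw [Nat.cast_sub (by omega)]; push_cast; ring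
      rw [h5]
      push_cast
      nlinarith
  calc _ ≤ (ENNReal.ofReal (3 * 10 ^ n * Y ^ (-η)) + ENNReal.ofReal (3 * 10 ^ n * Y ^ (-η))) +
        ENNReal.ofReal (C * Y ^ (-ε)) := by
        refine add_le_add ((measure_union_le _ _).trans (add_le_add hv1 hv2)) hv3
    _ = ENNReal.ofReal (6 * 10 ^ n * Y ^ (-η) + C * Y ^ (-ε)) := by
        rw [← ENNReal.ofReal_add (by positivity) (by positivity),
          ← ENNReal.ofReal_add (by positivity) (by positivity)]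
        congr 1; ring
    _ ≤ _ := ENNReal.ofReal_le_ofReal h1.le

end Pool.Agent.H438R2
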