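import Mathlib
import Pool.Agent.H438R2.Cluster
import Pool.Agent.H438R2.GoodM

set_option autoImplicit false

open Set Matrix MeasureTheory Metric
open scoped ENNReal

namespace Pool.Agent.H438R2

theorem geom_step (n r : ℕ) (hn : 1 ≤ n) (x : Fin n → ℝ) (R ρ q : ℝ) (hR : 0 < R)
    (hRc : closedBall x R ⊆ cube n) (hq : 0 < q) (hqρ : q ≤ ρ) (hρR : 3 * ρ ≤ R / 2) (Z : ℕ)
    (hZ : 8 * (r : ℝ) ^ 2 * q * Z ≤ ρ)
    (Good : Submodule ℝ (Fin (n + 1) → ℝ) → ((Fin r → Fin (n + 1)) → ℤ) → Prop)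
    (hvol : ENNReal.ofReal (R ^ n / 2) ≤ volume {θ ∈ closedBall x (R / 2) |
      ∃ (L : Submodule ℝ (Fin (n + 1) → ℝ)) (p : (Fin r → Fin (n + 1)) → ℤ), IsPP L p ∧ Good L p ∧
      ∃ P ∈ L, P 0 = 1 ∧ ∀ i : Fin n, |P i.succ - θ i| ≤ ρ}) :
    ∃ F : Finset (Fin n → ℝ), (∀ y ∈ F, closedBall y q ⊆ closedBall x R) ∧
      (∀ y ∈ F, ∃ (L : Submodule ℝ (Fin (n + 1) → ℝ)) (p : (Fin r → Fin (n + 1)) → ℤ), IsPP L p ∧
        Good L p ∧ ∃ P ∈ L, P 0 = 1 ∧ ∀ i : Fin n, P i.succ = y i) ∧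
      ∃ I : ℝ, R ^ n / (2 * (32 * ρ) ^ n) ≤ I ∧ (F.card : ℝ) = I * (Z : ℝ) ^ (r - 1) ∧
      ∀ (U : Set (Fin n → ℝ)) (u : ℝ), 0 < u → (∀ a ∈ U, ∀ b ∈ U, dist a b ≤ u) →
        ∀ (G : Finset (Fin n → ℝ)), G ⊆ F → (∀ y ∈ G, (U ∩ closedBall y q).Nonempty) →
          (u < q → G.card ≤ 1) ∧
          (q ≤ u → u < ρ → (G.card : ℝ) ≤ (3 * (u / q)) ^ (r - 1)) ∧
          (ρ ≤ u → (G.card : ℝ) ≤ (2 * (u / ρ)) ^ n * (Z : ℝ) ^ (r - 1)) := by
  classical
  have hρ : 0 < ρ := lt_of_lt_of_le hq hqρ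
  have hcube1 : ∀ y ∈ cube n, ‖y‖ ≤ 1 := by
    intro y hy
    rw [pi_norm_le_iff_of_nonneg zero_le_one]
    intro i
    rw [Real.norm_eq_abs, abs_of_nonneg (hy i).1]; exact (hy i).2
  have hGc : ∀ θ ∈ {θ ∈ closedBall x (R / 2) |
      ∃ (L : Submodule ℝ (Fin (n + 1) → ℝ)) (p : (Fin r → Fin (n + 1)) → ℤ), IsPP L p ∧ Good L p ∧
      ∃ P ∈ L, P 0 = 1 ∧ ∀ i : Fin n, |P i.succ - θ i| ≤ ρ}, θ ∈ cube n := fun θ hθ =>
    hRc (closedBall_subset_closedBall (by linarith) hθ.1)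
  obtain ⟨Θ, hΘ1, hΘ2, hΘ3⟩ := exists_net n _ (fun θ hθ => hcube1 θ (hGc θ hθ)) (16 * ρ) (by positivity)
  -- clusters
  have hcl : ∀ θ ∈ Θ, ∃ C : Finset (Fin n → ℝ), C.card = Z ^ (r - 1) ∧
      (∀ y ∈ C, ∃ (L : Submodule ℝ (Fin (n + 1) → ℝ)) (p : (Fin r → Fin (n + 1)) → ℤ), IsPP L p ∧
        Good L p ∧ ∃ P ∈ L, P 0 = 1 ∧ ∀ i : Fin n, P i.succ = y i) ∧
      (∀ y ∈ C, dist y θ ≤ 2 * ρ) ∧
      (∀ y ∈ C, ∀ y' ∈ C, y ≠ y' → 4 * q ≤ dist y y') ∧
      ∀ u : ℝ, q ≤ u → ∀ G : Finset (Fin n → ℝ), G ⊆ C → (∀ y ∈ G, ∀ y' ∈ G, dist y y' ≤ 3 * u) →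
        (G.card : ℝ) ≤ (3 * (u / q)) ^ (r - 1) := by
    intro θ hθ
    have hθc := hGc θ (hΘ1 θ hθ)
    obtain ⟨_, L, p, hp, hgood, P, hP, hP0, hPθ⟩ := hΘ1 θ hθ
    have hR1 : R ≤ 1 := by
      have h1 : (fun i => x i + R) ∈ cube n := hRc (by
        rw [mem_closedBall, dist_pi_le_iff hR.le]
        intro i; rw [Real.dist_eq]; simp [abs_of_pos hR])
      have h2 := hRc (mem_closedBall_self hR.le)
      have h3 := h1 ⟨0, hn⟩
      have h4 := h2 ⟨0, hn⟩
      dsimp only at h3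
      linarith
    have hP2 : ∀ i, |P i| ≤ ((2 : ℕ) : ℝ) := by
      intro i
      refine Fin.cases ?_ (fun i => ?_) i
      · rw [hP0]; norm_num
      · have h1 := abs_le.1 (hPθ i)
        have h2 := hθc i
        rw [abs_le]; push_cast
        constructor <;> linarith
    obtain ⟨C, hC1, hC2, hC3, hC4, hC5⟩ := cluster n r L p hp P hP hP0 hP2 q hq Z
    refine ⟨C, hC1, fun y hy => ?_, fun y hy => ?_, hC4, hC5⟩
    · obtain ⟨P', hP', hP'0, hP'y⟩ := hC2 y hy
      exact ⟨L, p, hp, hgood, P', hP', hP'0, hP'y⟩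
    · rw [dist_pi_le_iff (by positivity)]
      intro i
      rw [Real.dist_eq]
      have h1 := hC3 y hy i
      have h2 := hPθ i
      calc |y i - θ i| = |(y i - P i.succ) + (P i.succ - θ i)| := by congr 1; ring
        _ ≤ |y i - P i.succ| + |P i.succ - θ i| := abs_add_le _ _
        _ ≤ ρ + ρ := add_le_add (h1.trans hZ) h2
        _ = 2 * ρ := by ring
  choose! C hC1 hC2 hC3 hC4 hC5 using hcl
  -- the clusters are far apart
  have hfar : ∀ θ ∈ Θ, ∀ θ' ∈ Θ, ∀ y ∈ C θ, ∀ y' ∈ C θ', dist y y' ≤ 3 * ρ → θ = θ' := by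
    intro θ hθ θ' hθ' y hy y' hy' hd
    by_contra hne
    have h1 := hΘ2 θ hθ θ' hθ' hne
    have h2 := hC3 θ hθ y hy
    have h3 := hC3 θ' hθ' y' hy'
    have h4 : dist θ θ' ≤ dist θ y + dist y y' + dist y' θ' := dist_triangle4 _ _ _ _
    rw [dist_comm θ y] at h4
    linarith
  refine ⟨Θ.biUnion C, ?_, ?_, (Θ.card : ℝ), ?_, ?_, ?_⟩
  · intro y hy
    rw [Finset.mem_biUnion] at hy
    obtain ⟨θ, hθ, hyθ⟩ := hy
    apply closedBall_subset_closedBall'
    have h1 := hC3 θ hθ y hyθ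
    have h2 : dist θ x ≤ R / 2 := (hΘ1 θ hθ).1
    have h3 : dist y x ≤ dist y θ + dist θ x := dist_triangle _ _ _
    linarith
  · intro y hy
    rw [Finset.mem_biUnion] at hy
    obtain ⟨θ, hθ, hyθ⟩ := hy
    exact hC2 θ hθ y hyθ
  · -- the number of clusters
    have h1 : ENNReal.ofReal (R ^ n / 2) ≤ ENNReal.ofReal ((Θ.card : ℝ) * (32 * ρ) ^ n) := by
      refine hvol.trans ?_
      have h2 : {θ ∈ closedBall x (R / 2) |
        ∃ (L : Submodule ℝ (Fin (n + 1) → ℝ)) (p : (Fin r → Fin (n + 1)) → ℤ), IsPP L p ∧ Good L p ∧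
        ∃ P ∈ L, P 0 = 1 ∧ ∀ i : Fin n, |P i.succ - θ i| ≤ ρ} ⊆ ⋃ θ ∈ Θ, closedBall θ (16 * ρ) := by
        intro g hg
        obtain ⟨y, hy, hgy⟩ := hΘ3 g hg
        simp only [mem_iUnion]
        exact ⟨y, hy, hgy.le⟩
      refine (measure_mono h2).trans ((measure_biUnion_finset_le _ _).trans ?_)
      have h3 : ∀ θ ∈ Θ, volume (closedBall θ (16 * ρ)) ≤ ENNReal.ofReal ((32 * ρ) ^ n) := by
        intro θ _
        rw [Real.volume_pi_closedBall θ (by positivity), Fintype.card_fin]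
        refine ENNReal.ofReal_le_ofReal (le_of_eq ?_)
        congr 1; ring
      refine (Finset.sum_le_card_nsmul _ _ _ h3).trans ?_
      rw [nsmul_eq_mul, ← ENNReal.ofReal_natCast, ← ENNReal.ofReal_mul (by positivity)]
    rw [ENNReal.ofReal_le_ofReal_iff (by positivity)] at h1
    rw [div_le_iff₀ (by positivity)]
    linarith
  · rw [Finset.card_biUnion]
    · rw [Finset.sum_congr rfl (fun θ hθ => hC1 θ hθ), Finset.sum_const, smul_eq_mul]
      push_cast; ring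
    · intro θ hθ θ' hθ' hne
      show Disjoint (C θ) (C θ')
      rw [Finset.disjoint_left]
      intro y hy hy'
      exact hne (hfar θ hθ θ' hθ' y hy y hy' (by rw [dist_self]; positivity))
  · intro U u hu hU G hG hGU
    -- distances in `G`
    have hd : ∀ y ∈ G, ∀ y' ∈ G, dist y y' ≤ 2 * q + u := by
      intro y hy y' hy'
      obtain ⟨a, ha, hay⟩ := hGU y hy
      obtain ⟨b, hb, hby⟩ := hGU y' hy'
      rw [mem_closedBall] at hay hby
      have h1 := hU a ha b hb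
      have h2 : dist y y' ≤ dist y a + dist a b + dist b y' := dist_triangle4 _ _ _ _
      rw [dist_comm y a] at h2
      linarith
    have hone : u ≤ ρ → G = ∅ ∨ ∃ θ ∈ Θ, G ⊆ C θ := by
      intro huρ
      rcases G.eq_empty_or_nonempty with he | ⟨y0, hy0⟩
      · exact Or.inl he
      · right
        obtain ⟨θ, hθ, hyθ⟩ := Finset.mem_biUnion.1 (hG hy0)
        refine ⟨θ, hθ, fun y hy => ?_⟩
        obtain ⟨θ', hθ', hyθ'⟩ := Finset.mem_biUnion.1 (hG hy)
        have h1 := hfar θ' hθ' θ hθ y hyθ' y0 hyθ ((hd y hy y0 hy0).trans (by linarith))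
        rw [h1] at hyθ'
        exact hyθ'
    refine ⟨?_, ?_, ?_⟩
    · intro huq
      rcases hone (by linarith) with he | ⟨θ, hθ, hGθ⟩
      · rw [he]; simp
      · rw [Finset.card_le_one]
        intro y hy y' hy'
        by_contra hne
        have h1 := hC4 θ hθ y (hGθ hy) y' (hGθ hy') hne
        have h2 := hd y hy y' hy'
        linarith
    · intro hqu huρ
      rcases hone huρ.le with he | ⟨θ, hθ, hGθ⟩
      · rw [he]; simp; positivity
      · refine hC5 θ hθ u hqu G hGθ (fun y hy y' hy' => ?_)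
        have h2 := hd y hy y' hy'
        linarith
    · intro hρu
      obtain ⟨T, hT⟩ : ∃ T : Finset (Fin n → ℝ), T = Θ.filter (fun θ => ∃ y ∈ G, y ∈ C θ) := ⟨_, rfl⟩
      have hTΘ : T ⊆ Θ := hT ▸ Finset.filter_subset _ _
      have h1 : G ⊆ T.biUnion C := by
        intro y hy
        obtain ⟨θ, hθ, hyθ⟩ := Finset.mem_biUnion.1 (hG hy)
        rw [Finset.mem_biUnion]
        refine ⟨θ, ?_, hyθ⟩
        rw [hT, Finset.mem_filter]
        exact ⟨hθ, y, hy, hyθ⟩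
      have h2 : (G.card : ℝ) ≤ T.card * (Z : ℝ) ^ (r - 1) := by
        have h3 : G.card ≤ T.card * Z ^ (r - 1) := by
          refine (Finset.card_le_card h1).trans (Finset.card_biUnion_le.trans ?_)
          rw [Finset.sum_congr rfl (fun θ hθ => hC1 θ (hTΘ hθ)), Finset.sum_const, smul_eq_mul]
        exact_mod_cast h3
      refine h2.trans ?_
      gcongr
      rcases T.eq_empty_or_nonempty with he | ⟨t0, ht0⟩
      · rw [he]; simp; positivity
      have hTd : ∀ t ∈ T, dist t t0 ≤ 7 * u := by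
        intro t ht
        have ht' := ht
        have ht0' := ht0
        rw [hT, Finset.mem_filter] at ht' ht0'
        obtain ⟨h3, y, hy, hyt⟩ := ht'
        obtain ⟨h4, y0, hy0, hyt0⟩ := ht0'
        have h5 := hC3 t h3 y hyt
        have h6 := hC3 t0 h4 y0 hyt0
        have h7 := hd y hy y0 hy0
        have h8 : dist t t0 ≤ dist t y + dist y y0 + dist y0 t0 := dist_triangle4 _ _ _ _
        rw [dist_comm t y] at h8
        linarith
      have h3 := packing (T.image (fun t => t - t0)) (7 * u) (16 * ρ) (by positivity) (by positivity)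
        (by
          intro c hc
          rw [Finset.mem_image] at hc
          obtain ⟨t, ht, rfl⟩ := hc
          rw [← dist_eq_norm]; exact hTd t ht)
        (by
          intro c hc d hd' hcd
          rw [Finset.mem_image] at hc hd'
          obtain ⟨t, ht, rfl⟩ := hc
          obtain ⟨t', ht', rfl⟩ := hd'
          have h4 : t - t0 - (t' - t0) = t - t' := by abel
          rw [h4, ← dist_eq_norm]
          exact hΘ2 t (hTΘ ht) t' (hTΘ ht') (fun h => hcd (by rw [h])))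
      rw [Finset.card_image_of_injective _ (sub_left_injective), Module.finrank_fin_fun] at h3
      refine h3.trans ?_
      gcongr
      have h4 : 1 ≤ u / ρ := (one_le_div hρ).2 hρu
      have h5 : 2 * (7 * u) / (16 * ρ) = (7 / 8) * (u / ρ) := by field_simp; ring
      rw [h5]; linarith

end Pool.Agent.H438R2
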