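import Mathlib
import Pool.Agent.H438R2.Defs
import Pool.Agent.H438R2.Lower

set_option autoImplicit false

open Set Matrix MeasureTheory Metric
open scoped ENNReal

namespace Pool.Agent.H438R2

theorem isPluecker_iff {n d : ℕ} (L : Submodule ℝ (Fin (n + 1) → ℝ))
    (p : (Fin (d + 1) → Fin (n + 1)) → ℤ) : IsPluecker n d L p ↔ IsPP L p :=
  ⟨fun h => ⟨h.primitive, h.minors⟩, fun h => ⟨h.prim, h.ex⟩⟩

theorem maxNorm_eq {n d : ℕ} (p : (Fin (d + 1) → Fin (n + 1)) → ℤ) : maxNorm p = ht p := rfl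

theorem eNorm_nonneg {n : ℕ} (x : Fin (n + 1) → ℝ) : 0 ≤ eNorm x := Real.sqrt_nonneg _

theorem le_eNorm {n : ℕ} (x : Fin (n + 1) → ℝ) (i : Fin (n + 1)) : |x i| ≤ eNorm x := by
  unfold eNorm
  apply Real.le_sqrt_of_sq_le
  rw [sq_abs]
  exact Finset.single_le_sum (f := fun i => x i ^ 2) (fun _ _ => sq_nonneg _) (Finset.mem_univ i)

theorem eNorm_le {n : ℕ} (x : Fin (n + 1) → ℝ) (M : ℝ) (hM : 0 ≤ M) (h : ∀ i, |x i| ≤ M) :
    eNorm x ≤ (n + 1) * M := by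
  unfold eNorm
  rw [Real.sqrt_le_left (by positivity)]
  calc ∑ i, x i ^ 2 ≤ ∑ _i : Fin (n + 1), M ^ 2 := Finset.sum_le_sum (fun i _ => by
        rw [← sq_abs]; exact pow_le_pow_left₀ (abs_nonneg _) (h i) 2)
    _ = (n + 1) * M ^ 2 := by
        rw [Finset.sum_const, Finset.card_univ, Fintype.card_fin, nsmul_eq_mul]; push_cast; ring
    _ ≤ ((n + 1) * M) ^ 2 := by
        have h1 : (0 : ℝ) ≤ n := Nat.cast_nonneg n
        have h2 : 0 ≤ M ^ 2 := sq_nonneg M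
        have h3 : ((n : ℝ) + 1) ^ 2 ≥ (n : ℝ) + 1 := by nlinarith
        rw [mul_pow]; gcongr

theorem le_wedgeNorm {n : ℕ} (x y : Fin (n + 1) → ℝ) (i j : Fin (n + 1)) (hij : i ≠ j) :
    |x i * y j - x j * y i| ≤ wedgeNorm x y := by
  unfold wedgeNorm
  apply Real.le_sqrt_of_sq_le
  rw [sq_abs, le_div_iff₀ (by norm_num)]
  have h1 : (∑ j', (x i * y j' - x j' * y i) ^ 2) + (∑ j', (x j * y j' - x j' * y j) ^ 2) ≤
      ∑ i, ∑ j, (x i * y j - x j * y i) ^ 2 := by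
    rw [← Finset.sum_pair (f := fun i => ∑ j, (x i * y j - x j * y i) ^ 2) hij]
    refine Finset.sum_le_sum_of_subset_of_nonneg (Finset.subset_univ _) (fun _ _ _ => ?_)
    exact Finset.sum_nonneg (fun _ _ => sq_nonneg _)
  have h2 : (x i * y j - x j * y i) ^ 2 ≤ ∑ j', (x i * y j' - x j' * y i) ^ 2 :=
    Finset.single_le_sum (f := fun j' => (x i * y j' - x j' * y i) ^ 2) (fun _ _ => sq_nonneg _)
      (Finset.mem_univ j)
  have h3 : (x j * y i - x i * y j) ^ 2 ≤ ∑ j', (x j * y j' - x j' * y j) ^ 2 :=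
    Finset.single_le_sum (f := fun j' => (x j * y j' - x j' * y j) ^ 2) (fun _ _ => sq_nonneg _)
      (Finset.mem_univ i)
  have h4 : (x j * y i - x i * y j) ^ 2 = (x i * y j - x j * y i) ^ 2 := by ring
  linarith

theorem wedgeNorm_le {n : ℕ} (x y : Fin (n + 1) → ℝ) (M : ℝ) (hM : 0 ≤ M)
    (h : ∀ i j, |x i * y j - x j * y i| ≤ M) : wedgeNorm x y ≤ (n + 1) * M := by
  unfold wedgeNorm
  rw [Real.sqrt_le_left (by positivity)]
  have h1 : ∑ i, ∑ j, (x i * y j - x j * y i) ^ 2 ≤ (n + 1) * ((n + 1) * M ^ 2) := by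
    calc ∑ i, ∑ j, (x i * y j - x j * y i) ^ 2 ≤ ∑ _i : Fin (n + 1), ∑ _j : Fin (n + 1), M ^ 2 :=
          Finset.sum_le_sum (fun i _ => Finset.sum_le_sum (fun j _ => by
            rw [← sq_abs]; exact pow_le_pow_left₀ (abs_nonneg _) (h i j) 2))
      _ = (n + 1) * ((n + 1) * M ^ 2) := by
          simp only [Finset.sum_const, Finset.card_univ, Fintype.card_fin, nsmul_eq_mul]; push_cast; ring
  have h2 : 0 ≤ (n + 1) * ((n + 1) * M ^ 2) := by positivity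
  have h3 : ((n + 1 : ℝ) * M) ^ 2 = (n + 1) * ((n + 1) * M ^ 2) := by ring
  rw [h3]; linarith

/-- from projective to affine distance -/
theorem proj_to_aff {n K : ℕ} (hK : 1 ≤ K) (θ : Fin n → ℝ) (hθ : ∀ i, |θ i| ≤ (K : ℝ))
    (P : Fin (n + 1) → ℝ) (hP : P ≠ 0) (η : ℝ) (hη : 0 ≤ η)
    (hηK : η * ((n + 1) * (n + 1) * K) ≤ 1 / 2) (h : projDist (hat θ) P ≤ η) :
    P 0 ≠ 0 ∧ ∀ i : Fin n, |P i.succ / P 0 - θ i| ≤ 2 * ((n + 1) * (n + 1) * K) * K * η := by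
  have hKR : (1 : ℝ) ≤ K := by exact_mod_cast hK
  have hn0 : (0 : ℝ) ≤ n := Nat.cast_nonneg n
  obtain ⟨i0, _, hi0⟩ := (Finset.univ : Finset (Fin (n + 1))).exists_max_image (fun i => |P i|) ⟨0, Finset.mem_univ _⟩
  obtain ⟨M, hM⟩ : ∃ M : ℝ, M = |P i0| := ⟨_, rfl⟩
  have hPM : ∀ i, |P i| ≤ M := fun i => hM ▸ hi0 i (Finset.mem_univ i)
  have hM0 : 0 < M := by
    by_contra hcon
    push Not at hcon
    apply hP
    ext i
    exact abs_nonpos_iff.1 ((hPM i).trans hcon)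
  have hhat : ∀ i, |hat θ i| ≤ K := by
    intro i
    refine Fin.cases ?_ (fun i => ?_) i
    · rw [hat_zero, abs_one]; exact hKR
    · rw [hat_succ]; exact hθ i
  have e1 : 1 ≤ eNorm (hat θ) := by
    have := le_eNorm (hat θ) 0
    rwa [hat_zero, abs_one] at this
  have e2 : eNorm (hat θ) ≤ (n + 1) * K := eNorm_le _ _ (by positivity) hhat
  have e3 : eNorm P ≤ (n + 1) * M := eNorm_le _ _ hM0.le hPM
  have e4 : 0 < eNorm P := lt_of_lt_of_le hM0 (hM ▸ le_eNorm P i0)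
  have hw : wedgeNorm (hat θ) P ≤ η * ((n + 1) * (n + 1) * K) * M := by
    unfold projDist at h
    rw [div_le_iff₀ (by positivity)] at h
    calc wedgeNorm (hat θ) P ≤ η * (eNorm (hat θ) * eNorm P) := h
      _ ≤ η * (((n + 1) * K) * ((n + 1) * M)) := by gcongr
      _ = _ := by ring
  have hk : ∀ k : Fin n, |P k.succ - θ k * P 0| ≤ η * ((n + 1) * (n + 1) * K) * M := by
    intro k
    have h1 := le_wedgeNorm (hat θ) P 0 k.succ (Fin.succ_ne_zero k).symm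
    rw [hat_zero, hat_succ, one_mul] at h1
    exact h1.trans hw
  -- the maximum is controlled by `P 0`
  have hM2 : M ≤ 2 * K * |P 0| := by
    have h1 : M ≤ K * |P 0| + η * ((n + 1) * (n + 1) * K) * M := by
      rw [hM]
      have h2 : ∀ i, |P i| ≤ K * |P 0| + η * ((n + 1) * (n + 1) * K) * M := by
        intro i
        refine Fin.cases ?_ (fun k => ?_) i
        · have h3 : |P 0| ≤ K * |P 0| := by nlinarith [abs_nonneg (P 0)]
          have h4 : 0 ≤ η * ((n + 1) * (n + 1) * K) * M := by positivity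
          linarith
        · calc |P k.succ| = |(P k.succ - θ k * P 0) + θ k * P 0| := by congr 1; ring
            _ ≤ |P k.succ - θ k * P 0| + |θ k * P 0| := abs_add_le _ _
            _ ≤ η * ((n + 1) * (n + 1) * K) * M + K * |P 0| := by
                rw [abs_mul]
                have := hθ k
                gcongr
                exact hk k
            _ = _ := by ring
      rw [hM] at h2
      exact h2 i0
    nlinarith
  have hP0 : 0 < |P 0| := by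
    by_contra hcon
    push Not at hcon
    have h1 : (0 : ℝ) < 2 * K := by positivity
    nlinarith
  refine ⟨abs_pos.1 hP0, fun i => ?_⟩
  have hP0' : P 0 ≠ 0 := abs_pos.1 hP0
  have h1 : P i.succ / P 0 - θ i = (P i.succ - θ i * P 0) / P 0 := by field_simp
  rw [h1, abs_div, div_le_iff₀ hP0]
  calc |P i.succ - θ i * P 0| ≤ η * ((n + 1) * (n + 1) * K) * M := hk i
    _ ≤ η * ((n + 1) * (n + 1) * K) * (2 * K * |P 0|) := by gcongr
    _ = _ := by ring

/-- from affine to projective distance -/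
theorem aff_to_proj {n : ℕ} (θ : Fin n → ℝ) (hθ : θ ∈ cube n) (P : Fin (n + 1) → ℝ) (hP0 : P 0 = 1)
    (ρ : ℝ) (hρ : 0 ≤ ρ) (h : ∀ i : Fin n, |P i.succ - θ i| ≤ ρ) :
    projDist (hat θ) P ≤ 2 * (n + 1) * ρ := by
  have hhat : ∀ i, |hat θ i| ≤ 1 := by
    intro i
    refine Fin.cases ?_ (fun i => ?_) i
    · rw [hat_zero, abs_one]
    · rw [hat_succ, abs_of_nonneg (hθ i).1]; exact (hθ i).2
  have hd : ∀ i, |P i - hat θ i| ≤ ρ := by
    intro i
    refine Fin.cases ?_ (fun i => ?_) i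
    · rw [hat_zero, hP0, sub_self, abs_zero]; exact hρ
    · rw [hat_succ]; exact h i
  have e1 : 1 ≤ eNorm (hat θ) := by
    have := le_eNorm (hat θ) 0
    rwa [hat_zero, abs_one] at this
  have e2 : 1 ≤ eNorm P := by
    have := le_eNorm P 0
    rwa [hP0, abs_one] at this
  have e3 : 1 ≤ eNorm (hat θ) * eNorm P := by nlinarith
  have hw : wedgeNorm (hat θ) P ≤ (n + 1) * (2 * ρ) := by
    refine wedgeNorm_le _ _ _ (by positivity) (fun i j => ?_)
    have h1 : hat θ i * P j - hat θ j * P i = hat θ i * (P j - hat θ j) - hat θ j * (P i - hat θ i) := by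
      ring
    rw [h1]
    calc _ ≤ |hat θ i * (P j - hat θ j)| + |hat θ j * (P i - hat θ i)| := abs_sub _ _
      _ ≤ 1 * ρ + 1 * ρ := by
          rw [abs_mul, abs_mul]
          have h2 := hhat i
          have h3 := hhat j
          have h4 := hd i
          have h5 := hd j
          gcongr
      _ = 2 * ρ := by ring
  unfold projDist
  rw [div_le_iff₀ (by linarith)]
  calc wedgeNorm (hat θ) P ≤ (n + 1) * (2 * ρ) := hw
    _ = 2 * (n + 1) * ρ * 1 := by ring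
    _ ≤ _ := by gcongr

theorem projDist_nonneg {n : ℕ} (x y : Fin (n + 1) → ℝ) : 0 ≤ projDist x y := by
  unfold projDist wedgeNorm
  exact div_nonneg (Real.sqrt_nonneg _) (mul_nonneg (eNorm_nonneg _) (eNorm_nonneg _))

theorem distTo_le {n : ℕ} (θ : Fin n → ℝ) (L : Submodule ℝ (Fin (n + 1) → ℝ)) (P : Fin (n + 1) → ℝ)
    (hP : P ∈ L) (hP0 : P ≠ 0) : distTo θ L ≤ projDist (hat θ) P := by
  unfold distTo
  exact ciInf_le ⟨0, by rintro _ ⟨P, rfl⟩; exact projDist_nonneg _ _⟩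
    (⟨P, hP, hP0⟩ : {P : Fin (n + 1) → ℝ // P ∈ L ∧ P ≠ 0})

theorem exists_of_distTo_lt {n : ℕ} (θ : Fin n → ℝ) (L : Submodule ℝ (Fin (n + 1) → ℝ))
    (hL : ∃ P ∈ L, P ≠ 0) (a : ℝ) (h : distTo θ L < a) :
    ∃ P ∈ L, P ≠ 0 ∧ projDist (hat θ) P < a := by
  obtain ⟨P0, hP0, hP0'⟩ := hL
  have : Nonempty {P : Fin (n + 1) → ℝ // P ∈ L ∧ P ≠ 0} := ⟨⟨P0, hP0, hP0'⟩⟩
  unfold distTo at h
  obtain ⟨⟨P, hP, hP'⟩, hlt⟩ := exists_lt_of_ciInf_lt h
  exact ⟨P, hP, hP', hlt⟩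

theorem IsPP.exists_mem {n d : ℕ} {L : Submodule ℝ (Fin (n + 1) → ℝ)}
    {p : (Fin (d + 1) → Fin (n + 1)) → ℤ} (h : IsPP L p) : ∃ P ∈ L, P ≠ 0 := by
  obtain ⟨B, hB, hBL, _⟩ := h.ex
  refine ⟨fun j => (B 0 j : ℝ), ?_, hB.ne_zero 0⟩
  rw [← hBL]
  exact Submodule.subset_span ⟨0, rfl⟩

/-- upper inclusion -/
theorem omega_to_ws {n d K : ℕ} (hK : 1 ≤ K) (w w' : ℝ) (hw' : 0 < w') (hww : w' < w) (θ : Fin n → ℝ)
    (hθ : ∀ i, |θ i| ≤ (K : ℝ)) (h : (w : EReal) ≤ omegaExp n d θ) :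
    θ ∈ WS n (d + 1) (2 * ((n + 1) * (n + 1) * K) * K * 2) (w' + 1) := by
  have h1 : (w' : EReal) < omegaExp n d θ := lt_of_lt_of_le (by exact_mod_cast hww) h
  unfold omegaExp at h1
  rw [lt_sSup_iff] at h1
  obtain ⟨_, ⟨ω, rfl, hinf⟩, hω⟩ := h1
  have hω' : w' < ω := by exact_mod_cast hω
  -- small radii
  obtain ⟨H0, hH0⟩ : ∃ H0 : ℕ, ∀ h : ℕ, H0 ≤ h → (2 * (h : ℝ) ^ (-(w' + 1))) * ((n + 1) * (n + 1) * K) ≤ 1 / 2 := by
    have h1 : Filter.Tendsto (fun h : ℕ => (2 * (h : ℝ) ^ (-(w' + 1))) * (((n : ℝ) + 1) * (n + 1) * K)) Filter.atTop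
        (nhds ((2 * 0) * (((n : ℝ) + 1) * (n + 1) * K))) :=
      ((((tendsto_rpow_neg_atTop (by linarith : 0 < w' + 1)).comp tendsto_natCast_atTop_atTop)).const_mul 2).mul_const _
    rw [mul_zero, zero_mul] at h1
    have h2 := h1.eventually (gt_mem_nhds (by norm_num : (0 : ℝ) < 1 / 2))
    obtain ⟨H0, hH0⟩ := Filter.eventually_atTop.1 h2
    exact ⟨H0, fun h hh => (hH0 h hh).le⟩
  refine (hinf.sdiff (finite_ht (r := d + 1) (N := n + 1) H0)).mono ?_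
  rintro L ⟨⟨p, hp, hpd⟩, hL⟩
  rw [isPluecker_iff] at hp
  rw [maxNorm_eq] at hpd
  have hht : H0 < ht p := by
    by_contra hcon
    push Not at hcon
    exact hL ⟨p, hp, hcon⟩
  have hht1 : (1 : ℝ) ≤ ht p := by exact_mod_cast hp.ht_pos
  have hht0 : (0 : ℝ) < ht p := by linarith
  refine ⟨p, hp, ?_⟩
  have h2 : distTo θ L ≤ (ht p : ℝ) ^ (-(w' + 1)) := by
    have h3 : distTo θ L ≤ (ht p : ℝ) ^ (-ω) / ht p := by
      rw [le_div_iff₀ hht0]; linarith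
    refine h3.trans ?_
    calc (ht p : ℝ) ^ (-ω) / ht p = (ht p : ℝ) ^ (-ω - 1) := by
          rw [Real.rpow_sub hht0, Real.rpow_one]
      _ ≤ (ht p : ℝ) ^ (-(w' + 1)) := Real.rpow_le_rpow_of_exponent_le hht1 (by linarith)
  have h3 : distTo θ L < 2 * (ht p : ℝ) ^ (-(w' + 1)) := by
    have : 0 < (ht p : ℝ) ^ (-(w' + 1)) := by positivity
    linarith
  obtain ⟨P, hP, hPne, hPd⟩ := exists_of_distTo_lt θ L hp.exists_mem _ h3
  obtain ⟨hP0, hPθ⟩ := proj_to_aff hK θ hθ P hPne (2 * (ht p : ℝ) ^ (-(w' + 1))) (by positivity)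
    (hH0 _ hht.le) hPd.le
  refine ⟨(P 0)⁻¹ • P, L.smul_mem _ hP, ?_, fun i => ?_⟩
  · simp only [Pi.smul_apply, smul_eq_mul]; exact inv_mul_cancel₀ hP0
  · have h4 := hPθ i
    simp only [Pi.smul_apply, smul_eq_mul]
    rw [div_eq_inv_mul] at h4
    refine h4.trans (le_of_eq ?_)
    ring

/-- lower inclusion -/
theorem ws_to_omega {n d : ℕ} (w v : ℝ) (hwv : w < v - 1) (θ : Fin n → ℝ)
    (hθ : θ ∈ cube n) (h : θ ∈ WS n (d + 1) 1 v) : (w : EReal) ≤ omegaExp n d θ := by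
  unfold omegaExp
  apply le_sSup
  refine ⟨w, rfl, ?_⟩
  obtain ⟨H0, hH0⟩ : ∃ H0 : ℕ, ∀ h : ℕ, H0 ≤ h → (2 * ((n : ℝ) + 1)) ≤ (h : ℝ) ^ (v - 1 - w) := by
    have h1 : Filter.Tendsto (fun h : ℕ => (h : ℝ) ^ (v - 1 - w)) Filter.atTop Filter.atTop :=
      (tendsto_rpow_atTop (by linarith : 0 < v - 1 - w)).comp tendsto_natCast_atTop_atTop
    obtain ⟨H0, hH0⟩ := Filter.eventually_atTop.1 (h1.eventually_ge_atTop (2 * ((n : ℝ) + 1)))
    exact ⟨H0, hH0⟩
  refine (h.sdiff (finite_ht (r := d + 1) (N := n + 1) H0)).mono ?_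
  rintro L ⟨⟨p, hp, P, hP, hP0, hPθ⟩, hL⟩
  have hht : H0 < ht p := by
    by_contra hcon
    push Not at hcon
    exact hL ⟨p, hp, hcon⟩
  have hht1 : (1 : ℝ) ≤ ht p := by exact_mod_cast hp.ht_pos
  have hht0 : (0 : ℝ) < ht p := by linarith
  refine ⟨p, (isPluecker_iff L p).2 hp, ?_⟩
  rw [maxNorm_eq]
  have hPne : P ≠ 0 := by
    intro h0
    rw [h0] at hP0
    exact zero_ne_one hP0
  have h1 := (distTo_le θ L P hP hPne).trans (aff_to_proj θ hθ P hP0 (1 * (ht p : ℝ) ^ (-v)) (by positivity) hPθ)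
  calc (ht p : ℝ) * distTo θ L ≤ ht p * (2 * (n + 1) * (1 * (ht p : ℝ) ^ (-v))) := by gcongr
    _ = (2 * (n + 1)) * ((ht p : ℝ) ^ (1 - v)) := by
        rw [sub_eq_add_neg, Real.rpow_add hht0, Real.rpow_one]; ring
    _ ≤ (ht p : ℝ) ^ (v - 1 - w) * ((ht p : ℝ) ^ (1 - v)) := by gcongr; exact hH0 _ hht.le
    _ = (ht p : ℝ) ^ (-w) := by rw [← Real.rpow_add hht0]; congr 1; ring

theorem dim_pi (n d : ℕ) (hd : d < n) (w : ℝ) (hw : ((d : ℝ) + 1) / ((n : ℝ) - d) < w) :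
    dimH {θ : Fin n → ℝ | (w : EReal) ≤ omegaExp n d θ} =
      ENNReal.ofReal ((d : ℝ) + ((n : ℝ) + 1) / (w + 1)) := by
  have hnd : (0 : ℝ) < (n : ℝ) - d := by
    have : (d : ℝ) < n := by exact_mod_cast hd
    linarith
  have hw0 : 0 < w := lt_of_le_of_lt (by positivity) hw
  have hd1 : ((d + 1 - 1 : ℕ) : ℝ) = d := by simp
  apply le_antisymm
  · -- upper bound
    have hup : ∀ s : ℝ, (d : ℝ) + ((n : ℝ) + 1) / (w + 1) < s →
        dimH {θ : Fin n → ℝ | (w : EReal) ≤ omegaExp n d θ} ≤ ENNReal.ofReal s := by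
      intro s hs
      have hsd : 0 < s - d := by
        have : 0 < ((n : ℝ) + 1) / (w + 1) := by positivity
        linarith
      have h1 : ((n : ℝ) + 1) / (s - d) < w + 1 := by
        rw [div_lt_iff₀ hsd]
        have h2 : ((n : ℝ) + 1) / (w + 1) < s - d := by linarith
        rw [div_lt_iff₀ (by linarith)] at h2
        linarith
      obtain ⟨w', hw'1, hw'2⟩ := exists_between (max_lt (by linarith : (n + 1) / (s - d) - 1 < w) hw0)
      have hw'3 : 0 < w' := lt_of_le_of_lt (le_max_right _ _) hw'1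
      have hw'4 : ((n : ℝ) + 1) / (s - d) - 1 < w' := lt_of_le_of_lt (le_max_left _ _) hw'1
      have hs' : ((d + 1 - 1 : ℕ) : ℝ) + ((n : ℝ) + 1) / (w' + 1) < s := by
        rw [hd1]
        have h2 : ((n : ℝ) + 1) / (s - d) < w' + 1 := by linarith
        rw [div_lt_iff₀ hsd] at h2
        have h3 : ((n : ℝ) + 1) / (w' + 1) < s - d := by
          rw [div_lt_iff₀ (by linarith)]; linarith
        linarith
      have hsub : {θ : Fin n → ℝ | (w : EReal) ≤ omegaExp n d θ} ⊆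
          ⋃ K : ℕ, {θ : Fin n → ℝ | (∀ i, |θ i| ≤ ((K + 1 : ℕ) : ℝ)) ∧
            θ ∈ WS n (d + 1) (2 * ((n + 1) * (n + 1) * (K + 1 : ℕ)) * (K + 1 : ℕ) * 2) (w' + 1)} := by
        intro θ hθ
        obtain ⟨K, hK⟩ := exists_nat_gt ‖θ‖
        rw [mem_iUnion]
        have hb : ∀ i, |θ i| ≤ ((K + 1 : ℕ) : ℝ) := by
          intro i
          have h2 := norm_le_pi_norm θ i
          rw [Real.norm_eq_abs] at h2
          push_cast; linarith
        exact ⟨K, hb, omega_to_ws (by omega) w w' hw'3 hw'2 θ hb hθ⟩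
      refine (dimH_mono hsub).trans ?_
      rw [dimH_iUnion]
      refine iSup_le (fun K => ?_)
      exact upper n (d + 1) (K + 1) (by omega) (by omega) (by omega) _ (w' + 1) s (by positivity)
        (by linarith) hs'
    by_contra hcon
    push Not at hcon
    obtain ⟨s, hs0, hs1, hs2⟩ := ENNReal.lt_iff_exists_real_btwn.1 hcon
    rw [ENNReal.ofReal_lt_ofReal_iff_of_nonneg (by positivity)] at hs1
    exact absurd (hup s hs1) (not_le.2 hs2)
  · -- lower bound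
    by_contra hcon
    push Not at hcon
    obtain ⟨s, hs0, hs1, hs2⟩ := ENNReal.lt_iff_exists_real_btwn.1 hcon
    rw [ENNReal.ofReal_lt_ofReal_iff_of_nonneg hs0] at hs2
    obtain ⟨D, hD⟩ : ∃ D : ℝ, D = (d : ℝ) + ((n : ℝ) + 1) / (w + 1) := ⟨_, rfl⟩
    rw [← hD] at hs2
    have hq : 0 < ((n : ℝ) + 1) / (w + 1) := by positivity
    obtain ⟨s', hs'⟩ : ∃ s' : ℝ, s' = max s (((d : ℝ) + D) / 2) := ⟨_, rfl⟩
    have h1 : s ≤ s' := hs' ▸ le_max_left _ _
    have h2 : (d : ℝ) < s' := by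
      have : ((d : ℝ) + D) / 2 ≤ s' := hs' ▸ le_max_right _ _
      linarith
    have h3 : s' < D := by
      rw [hs']; exact max_lt hs2 (by linarith)
    have h4 : w + 1 < ((n : ℝ) + 1) / (s' - d) := by
      rw [lt_div_iff₀ (by linarith)]
      have h5 : s' - d < ((n : ℝ) + 1) / (w + 1) := by linarith
      rw [lt_div_iff₀ (by linarith)] at h5
      linarith
    obtain ⟨v, hv1, hv2⟩ := exists_between h4
    have hv3 : ((n : ℝ) + 1) / ((n : ℝ) + 1 - ((d + 1 : ℕ) : ℝ)) < v := by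
      have h5 : (n : ℝ) + 1 - ((d + 1 : ℕ) : ℝ) = (n : ℝ) - d := by push_cast; ring
      rw [h5, div_lt_iff₀ hnd]
      rw [div_lt_iff₀ hnd] at hw
      nlinarith
    have hv4 : s' < ((d + 1 - 1 : ℕ) : ℝ) + ((n : ℝ) + 1) / v := by
      rw [hd1]
      have h5 : s' - d < ((n : ℝ) + 1) / v := by
        rw [lt_div_iff₀ (by linarith)]
        rw [lt_div_iff₀ (by linarith)] at hv2
        linarith
      linarith
    have h6 := lower n (d + 1) (by omega) (by omega) v s' hv3 (by rw [hd1]; exact h2) hv4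
    have h7 : {θ : Fin n → ℝ | θ ∈ cube n ∧ θ ∈ WS n (d + 1) 1 v} ⊆
        {θ : Fin n → ℝ | (w : EReal) ≤ omegaExp n d θ} := by
      rintro θ ⟨hθ1, hθ2⟩
      exact ws_to_omega w v (by linarith) θ hθ1 hθ2
    have h8 := (h6.trans (dimH_mono h7)).trans_lt hs1
    exact absurd (ENNReal.ofReal_le_ofReal h1) (not_le.2 h8)

end Pool.Agent.H438R2
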